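import Pool.Agent.H.MP_0447ec_lc.SE.Comb

/-!
# Assembly
-/

namespace Pool.Agent.H.MP_0447ec_lc.SE

open Pool.Agent.H.MP_0447ec_lc.PS Pool.Agent.H.MP_0447ec_lc.PS.Fm

variable {F : List Rule}

/-- A name made of `n` symbols. -/
def nmr (n : ℕ) : Nm := List.replicate n true

theorem nmr_inj {n n' : ℕ} (h : nmr n = nmr n') : n = n' := by
  have := congrArg List.length h
  simpa [nmr] using this

/-- New names. -/
def zf (L d : ℕ) (i a : ℕ) : Nm := nmr (L + 1 + d + 2 * Nat.pair i a)

theorem zf_inj {L d i a i' a' : ℕ} (h : zf L d i a = zf L d i' a') : i = i' ∧ a = a' := by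
  have h1 := nmr_inj h
  have h2 : Nat.pair i a = Nat.pair i' a' := by omega
  exact Nat.pair_eq_pair.1 h2

theorem zf_ne {L i a i' a' : ℕ} : zf L 0 i a ≠ zf L 1 i' a' := by
  intro h
  have h1 := nmr_inj h
  omega

theorem mem_bgN {z : ℕ → ℕ → Nm} {V w : ℕ} {x : Nm} (h : x ∈ bgN z V w) :
    ∃ i a, x = z i a := by
  simp only [bgN, List.mem_flatMap, List.mem_map] at h
  obtain ⟨i, -, a, -, rfl⟩ := h
  exact ⟨i, a + 1, rfl⟩

theorem bgN_nodup {z : ℕ → ℕ → Nm} (hz : ∀ i a i' a', z i a = z i' a' → i = i' ∧ a = a')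
    (V w : ℕ) : (bgN z V w).Nodup := by
  unfold bgN
  rw [List.nodup_flatMap]
  refine ⟨?_, ?_⟩
  · intro i _
    refine List.Nodup.map ?_ List.nodup_range
    intro a a' h
    have := (hz _ _ _ _ h).2
    omega
  · refine List.Pairwise.imp_of_mem ?_ List.pairwise_lt_range
    intro i i' _ _ hii
    simp only [Function.onFun, List.disjoint_left]
    intro x hx hx'
    obtain ⟨a, -, rfl⟩ := List.mem_map.1 hx
    obtain ⟨a', -, h⟩ := List.mem_map.1 hx'
    have := (hz _ _ _ _ h).1
    omega

theorem setup (hF : IsFrege F) {A : Fm} {π₀ : List Fm} (h : ExtProof F A π₀) (d : ℕ)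
    (J : List Nm) (hJ : ∀ x ∈ J, x ∈ A.vars) :
    Setup (extL A π₀).reverse A J (lenB π₀) (nmr (lenB π₀)) (zf (lenB π₀) d) := by
  obtain ⟨-, h2, h3⟩ := collect h.1
  have hA : A ∈ π₀ := List.mem_of_getLast? h.2
  refine ⟨good_ord h2, ?_, hJ, fun x hx => lenB_spec hA hx, ?_, by simp [nmr], ?_, ?_⟩
  · intro e he
    exact (good_fst h2 (List.mem_reverse.1 he))
  · intro e he x hx
    refine lenB_spec (h3 e (List.mem_reverse.1 he)) ?_
    simp only [eAx, Fm.iff, Fm.vars, Set.mem_union]
    exact Or.inl (Or.inr hx)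
  · intro i a
    simp only [zf, nmr, List.length_replicate]
    omega
  · intro i a i' a' h
    exact zf_inj h

theorem main_can (hF : IsFrege F) : ∃ k : ℕ, ∀ (A : Fm) (π₀ : List Fm), ExtProof F A π₀ →
    ∀ (c w N : ℕ), 0 < c → (extL A π₀).length ≤ w * c →
    30 * (3 * 2 ^ c + 4) * ((π₀.map sz).sum + w + 1) ≤ N →
    Can F true (k * N) [] (k * ((N + 1) ^ 6 * ((π₀.map sz).sum + 1) ^ w)) A := by
  obtain ⟨k1, hk1⟩ := jline hF
  obtain ⟨k2, hk2⟩ := dtree hF
  obtain ⟨k3, hk3⟩ := comb hF
  refine ⟨4 * k1 + 4 * k2 + k3, ?_⟩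
  intro A π₀ h c w N hc hE hN
  have hval : ∀ v, A.Eval v := ext_sound hF h
  set L := lenB π₀ with hL
  set V := 2 ^ c with hV
  set S := (π₀.map sz).sum with hSdef
  have hV1 : 1 ≤ V := Nat.one_le_two_pow
  have hN' : 90 * (V * S) + 90 * (V * w) + 90 * V + 120 * S + 120 * w + 120 ≤ N := by
    refine le_trans (le_of_eq ?_) hN
    ring
  have hAπ : A ∈ π₀ := List.mem_of_getLast? h.2
  have hAS : sz A ≤ S := List.single_le_sum (by simp) _ (List.mem_map_of_mem hAπ)
  set R := (nms A).dedup with hR
  have hRl : R.length ≤ S := ((List.dedup_sublist _).length_le.trans (nms_length_le A)).trans hAS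
  set M := (4 * k1 + 4 * k2 + k3) * N with hM
  have hVw : w * (V - 1) ≤ V * w := by
    rw [mul_comm]; exact Nat.mul_le_mul_right _ (by omega)
  have key : ∀ β : Bool, ∀ d : ℕ, Can F true M []
      ((k1 * (N + 1) ^ 6 + k2 * (N + 1) ^ 2) * (2 * (S + 1) ^ w - 1))
      (imps ((bgN (zf L d) V w).map (lit (!β))) A) := by
    intro β d
    have hbg := hsz_lit_map (!β) (bgN (zf L d) V w)
    rw [length_bgN] at hbg
    have h1 := hk2 M N (k1 * (N + 1) ^ 6) A w β ((bgN (zf L d) V w).map (lit (!β))) [] hval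
      (Nat.mul_le_mul_right _ (by omega)) (by
        intro J hJn hJl hJA
        exact hk1 M N A π₀ J L (nmr L) (zf L d) β c w h (setup hF h d J hJA) hc hJn hJl hE
          (Nat.mul_le_mul_right _ (by omega)) hN) R [] (by
        simp only [List.map_nil, List.nil_append]
        exact List.nodup_dedup _) (by
        intro x hx
        simp only [List.map_nil, List.nil_append] at hx
        rw [hR, List.mem_dedup, mem_nms] at hx
        exact hx) (by
        intro x hx
        simp only [List.map_nil, List.nil_append]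
        rw [hR, List.mem_dedup, mem_nms]
        exact hx) (by simp [cnt]) (by
        simp only [List.length_nil]
        omega)
    have e1 : cnt β ([] : List (Nm × Bool)) = 0 := rfl
    have e2 : lits [] = [] := rfl
    rw [e1, e2, List.append_nil, Nat.sub_zero] at h1
    refine h1.le (Nat.mul_le_mul_left _ ?_)
    have : (R.length + 1) ^ w ≤ (S + 1) ^ w := Nat.pow_le_pow_left (by omega) _
    omega
  have g1 := key true 0
  have g2 := (key false 1).wk (C := imps ((bgN (zf L 0) V w).map (lit (!true))) A)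
  have g3 := hk3 M N A (bgN (zf L 1) V w) (Nat.mul_le_mul_right _ (by omega)) (by
    intro u hu hua
    obtain ⟨i, a, rfl⟩ := mem_bgN hu
    have := lenB_spec hAπ hua
    simp only [zf, nmr, List.length_replicate] at this
    omega) (bgN (zf L 0) V w)
    (imps ((bgN (zf L 1) V w).map (lit (!false))) A ::
      [imps ((bgN (zf L 0) V w).map (lit (!true))) A])
    (bgN_nodup (fun i a i' a' h => zf_inj h) V w) (by
      intro x hx
      obtain ⟨i, a, rfl⟩ := mem_bgN hx
      refine ⟨?_, ?_⟩
      · intro hua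
        have := lenB_spec hAπ hua
        simp only [zf, nmr, List.length_replicate] at this
        omega
      · intro hx'
        obtain ⟨i', a', h'⟩ := mem_bgN hx'
        exact zf_ne h') (by
      rw [length_bgN, length_bgN]; omega)
    (List.mem_cons_of_mem _ List.mem_cons_self) List.mem_cons_self
  refine (g1.cut (g2.cut g3)).le ?_
  rw [length_bgN]
  set n := N + 1 with hn
  have hn1 : 1 ≤ n := by omega
  set Q := (S + 1) ^ w with hQ
  have hQ1 : 1 ≤ Q := Nat.one_le_pow _ _ (by omega)
  have p2 : n ^ 2 ≤ n ^ 6 := Nat.pow_le_pow_right hn1 (by omega)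
  have p3 : n ^ 3 ≤ n ^ 6 := Nat.pow_le_pow_right hn1 (by omega)
  have q1 : (k1 * n ^ 6 + k2 * n ^ 2) * (2 * Q - 1) ≤ (k1 + k2) * (2 * (n ^ 6 * Q)) := by
    calc (k1 * n ^ 6 + k2 * n ^ 2) * (2 * Q - 1) ≤ (k1 * n ^ 6 + k2 * n ^ 6) * (2 * Q) := by
          gcongr; omega
      _ = _ := by ring
  have q2 : w * (V - 1) * (k3 * n ^ 2) ≤ k3 * (n ^ 6 * Q) := by
    calc w * (V - 1) * (k3 * n ^ 2) ≤ n * (k3 * n ^ 2) := Nat.mul_le_mul_right _ (by omega)
      _ = k3 * n ^ 3 := by ring
      _ ≤ k3 * n ^ 6 := Nat.mul_le_mul_left _ p3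
      _ ≤ k3 * (n ^ 6 * Q) := Nat.mul_le_mul_left _ (Nat.le_mul_of_pos_right _ hQ1)
  have q3 : (4 * k1 + 4 * k2 + k3) * (n ^ 6 * Q) =
      (k1 + k2) * (2 * (n ^ 6 * Q)) + ((k1 + k2) * (2 * (n ^ 6 * Q)) + k3 * (n ^ 6 * Q)) := by
    ring
  omega

/-- From a derivation to a proof. -/
theorem can_proof {M n : ℕ} {A : Fm} (h : Can F true M [] n A) :
    ∃ π' : List Fm, PermProof F A π' ∧ (π'.map sz).sum ≤ n * M := by
  obtain ⟨τ, h1, h2, h3, h4⟩ := h
  have hA : A ∈ app [] τ := mem_app.2 (Or.inr (by simpa using h2))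
  have hD := deriv_app (mono_perm F) Deriv.nil h1
  obtain ⟨d1, d2⟩ := deriv_cutAt hD hA
  refine ⟨cutAt A (app [] τ), ⟨d1, d2⟩, ?_⟩
  have happ : ∀ (τ π : List Fm), (app π τ).length ≤ π.length + τ.length := by
    intro τ
    induction τ with
    | nil => intro π; simp [app]
    | cons B τ ih =>
      intro π
      have e : app π (B :: τ) = app (if B ∈ π then π else π ++ [B]) τ := rfl
      rw [e]
      have := ih (if B ∈ π then π else π ++ [B])
      split_ifs at this ⊢ with hB
      · simp only [List.length_cons]; omega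
      · simp only [List.length_append, List.length_cons, List.length_nil] at this ⊢; omega
  have hlen : (cutAt A (app [] τ)).length ≤ n := by
    have e1 : (cutAt A (app [] τ)).length ≤ (app [] τ).length := by
      unfold cutAt
      rw [List.length_append, List.length_singleton]
      have e2 : (List.takeWhile (fun C => !decide (C = A)) (app [] τ)).length <
          (app [] τ).length := by
        have e3 := (List.takeWhile_prefix (fun C => !decide (C = A)) (l := app [] τ))
        rcases Nat.lt_or_ge (List.takeWhile (fun C => !decide (C = A)) (app [] τ)).length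
          (app [] τ).length with h | h
        · exact h
        · exfalso
          have e4 := e3.eq_of_length_le h
          rw [List.takeWhile_eq_self_iff] at e4
          have := e4 A hA
          simp at this
      omega
    have := happ τ []
    simp only [List.length_nil] at this
    omega
  have hsz : ∀ C ∈ cutAt A (app [] τ), sz C ≤ M := by
    intro C hC
    have hC' : C ∈ app [] τ := by
      unfold cutAt at hC
      rcases List.mem_append.1 hC with hC | hC
      · exact (List.takeWhile_prefix _).subset hC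
      · rw [List.mem_singleton] at hC; subst hC; exact hA
    rcases mem_app.1 hC' with h | h
    · simp at h
    · exact h4 C h
  calc ((cutAt A (app [] τ)).map sz).sum ≤ ((cutAt A (app [] τ)).map sz).length • M := by
        apply List.sum_le_card_nsmul
        intro x hx
        obtain ⟨C, hC, rfl⟩ := List.mem_map.1 hx
        exact hsz C hC
    _ = (cutAt A (app [] τ)).length * M := by simp
    _ ≤ n * M := Nat.mul_le_mul_right _ hlen

end Pool.Agent.H.MP_0447ec_lc.SE
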