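import Pool.Agent.H.MP_0447ec_lc.PS.Alg

/-!
# A calculus of short derivations (number of lines, size of lines)
-/

namespace Pool.Agent.H.MP_0447ec_lc.SE

open Pool.Agent.H.MP_0447ec_lc.PS Pool.Agent.H.MP_0447ec_lc.PS.Fm

/-- The number of symbols of a formula. -/
def sz : Fm → ℕ
  | .var _ => 1
  | .neg A => sz A + 1
  | .and A B => sz A + sz B + 1
  | .or A B => sz A + sz B + 1
  | .imp A B => sz A + sz B + 1

theorem sz_eq (A : Fm) : sz A = A.pol.length := by
  induction A with
  | var w => rfl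
  | neg A ih => simp [sz, Fm.pol, ih]
  | and A B ih1 ih2 => simp [sz, Fm.pol, ih1, ih2]
  | or A B ih1 ih2 => simp [sz, Fm.pol, ih1, ih2]
  | imp A B ih1 ih2 => simp [sz, Fm.pol, ih1, ih2]

theorem sz_pos (A : Fm) : 1 ≤ sz A := by
  cases A <;> simp [sz]

theorem sz_subst {A : Fm} {s : Nm → Fm} {m : ℕ} (hm : 1 ≤ m) (h : ∀ x ∈ A.vars, sz (s x) ≤ m) :
    sz (A.subst s) ≤ sz A * m := by
  induction A with
  | var w => simpa [sz, Fm.subst] using h w rfl
  | neg A ih =>
    have := ih h
    simp only [sz, Fm.subst]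
    nlinarith
  | and A B ih1 ih2 =>
    have h1 := ih1 (fun x hx => h x (Or.inl hx))
    have h2 := ih2 (fun x hx => h x (Or.inr hx))
    simp only [sz, Fm.subst]
    nlinarith
  | or A B ih1 ih2 =>
    have h1 := ih1 (fun x hx => h x (Or.inl hx))
    have h2 := ih2 (fun x hx => h x (Or.inr hx))
    simp only [sz, Fm.subst]
    nlinarith
  | imp A B ih1 ih2 =>
    have h1 := ih1 (fun x hx => h x (Or.inl hx))
    have h2 := ih2 (fun x hx => h x (Or.inr hx))
    simp only [sz, Fm.subst]
    nlinarith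

/-- Frege (`false`) or Frege with the permutation rule (`true`). -/
def St (F : List Rule) : Bool → List Fm → Fm → Prop
  | false => RuleStep F
  | true => FP F

theorem mono_St (F : List Rule) (b : Bool) : Mono (St F b) := by
  cases b
  · exact mono_ruleStep F
  · exact mono_perm F

theorem St_rule {F : List Rule} {b : Bool} {σ : List Fm} {C : Fm} (h : RuleStep F σ C) :
    St F b σ C := by
  cases b
  · exact h
  · exact Or.inl h

/-- From the lines of `π` one can derive `B` with at most `n` more lines, all of size at most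
`M`. -/
def Can (F : List Rule) (b : Bool) (M : ℕ) (π : List Fm) (n : ℕ) (B : Fm) : Prop :=
  ∃ τ : List Fm, Just (St F b) π τ ∧ B ∈ π ++ τ ∧ τ.length ≤ n ∧ ∀ C ∈ τ, sz C ≤ M

variable {F : List Rule} {b : Bool} {M : ℕ} {π : List Fm} {n n' : ℕ} {B C : Fm}

theorem can_mem (h : B ∈ π) : Can F b M π n B :=
  ⟨[], trivial, by simpa using h, by simp, by simp⟩

theorem Can.mono {π' : List Fm} {M' : ℕ} (h : Can F b M π n B) (hπ : ∀ C ∈ π, C ∈ π')
    (hM : M ≤ M') (hn : n ≤ n') : Can F b M' π' n' B := by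
  obtain ⟨τ, h1, h2, h3, h4⟩ := h
  refine ⟨τ, Just.mono (mono_St F b) hπ h1, ?_, h3.trans hn, fun C hC => (h4 C hC).trans hM⟩
  rcases List.mem_append.1 h2 with h | h
  · exact List.mem_append_left _ (hπ _ h)
  · exact List.mem_append_right _ h

theorem Can.le (h : Can F b M π n B) (hn : n ≤ n') : Can F b M π n' B :=
  h.mono (fun _ h => h) le_rfl hn

theorem Can.wk (h : Can F b M π n B) : Can F b M (C :: π) n B :=
  h.mono (fun _ h => List.mem_cons_of_mem _ h) le_rfl le_rfl

theorem Can.cut (h : Can F b M π n B) (h' : Can F b M (B :: π) n' C) :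
    Can F b M π (n + n') C := by
  obtain ⟨τ, h1, h2, h3, h4⟩ := h
  obtain ⟨τ', h1', h2', h3', h4'⟩ := h'
  have hsub : ∀ D ∈ B :: π, D ∈ π ++ τ := by
    intro D hD
    rcases List.mem_cons.1 hD with rfl | hD
    · exact h2
    · exact List.mem_append_left _ hD
  refine ⟨τ ++ τ', Just.append h1 (Just.mono (mono_St F b) hsub h1'), ?_, ?_, ?_⟩
  · rcases List.mem_append.1 h2' with h | h
    · have := hsub _ h
      rw [← List.append_assoc]
      exact List.mem_append_left _ this
    · rw [← List.append_assoc]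
      exact List.mem_append_right _ h
  · rw [List.length_append]; omega
  · intro D hD
    rcases List.mem_append.1 hD with h | h
    · exact h4 D h
    · exact h4' D h

theorem can_cuts : ∀ (L : List Fm) {π : List Fm}, (∀ B ∈ L, Can F b M π n B) →
    Can F b M (L ++ π) n' C → Can F b M π (L.length * n + n') C := by
  intro L
  induction L with
  | nil => intro π _ h; simpa using h
  | cons B L ih =>
    intro π h1 h2
    have h3 : Can F b M (B :: π) (L.length * n + n') C := by
      apply ih
      · intro B' hB'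
        exact (h1 B' (List.mem_cons_of_mem _ hB')).wk
      · refine h2.mono ?_ le_rfl le_rfl
        intro D hD
        simp only [List.cons_append, List.mem_cons, List.mem_append] at hD ⊢
        tauto
    refine ((h1 B (by simp)).cut h3).le ?_
    rw [List.length_cons]
    have : (L.length + 1) * n = L.length * n + n := by ring
    omega

/-- Substitution by the entries of a list. -/
def sl (l : List Fm) : Nm → Fm := fun w => l.getD w.length (var [])

/-- Metavariables. -/
def vv (i : ℕ) : Fm := var (List.replicate i true)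

theorem sz_sl (l : List Fm) (x : Nm) : sz (sl l x) ≤ (l.map sz).sum + 1 := by
  unfold sl
  rw [List.getD_eq_getElem?_getD]
  cases h : l[x.length]? with
  | none => simp [sz]
  | some a =>
    have h1 : a ∈ l := List.mem_of_getElem? h
    have : sz a ≤ (l.map sz).sum := List.single_le_sum (by simp) _ (List.mem_map_of_mem h1)
    simp only [Option.getD_some]
    omega

/-- A fixed sound inference costs a constant number of lines. -/
theorem exists_rule (hF : IsFrege F) (Γ : List Fm) (B : Fm)
    (h : ∀ v : Nm → Prop, (∀ P ∈ Γ, P.Eval v) → B.Eval v) :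
    ∃ k : ℕ, ∀ (b : Bool) (M : ℕ) (π : List Fm) (s : Nm → Fm) (m : ℕ), (∀ x, sz (s x) ≤ m) →
      k * m ≤ M → (∀ P ∈ Γ, P.subst s ∈ π) → Can F b M π k (B.subst s) := by
  obtain ⟨D, hD⟩ := exists_sch hF Γ B h
  refine ⟨D.length + (D.map sz).sum + 1, ?_⟩
  intro b M π s m hm hM hΓ
  refine ⟨inst D s, hD.just (mono_St F b) (fun σ C h => St_rule h) s π hΓ,
    List.mem_append_right _ (hD.mem_inst s), ?_, ?_⟩
  · simp [inst]; omega
  · intro C hC
    obtain ⟨A, hA, rfl⟩ := List.mem_map.1 hC
    have hm1 : 1 ≤ m := (sz_pos _).trans (hm [])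
    have h1 : sz (A.subst s) ≤ sz A * m := sz_subst hm1 (fun x _ => hm x)
    have h2 : sz A ≤ (D.map sz).sum := List.single_le_sum (by simp) _ (List.mem_map_of_mem hA)
    calc sz (A.subst s) ≤ sz A * m := h1
      _ ≤ (D.length + (D.map sz).sum + 1) * m := Nat.mul_le_mul_right _ (by omega)
      _ ≤ M := hM

/-- A fixed sound inference, with its metavariables instantiated by a list. -/
theorem exists_rule' (hF : IsFrege F) (Γ : List Fm) (B : Fm)
    (h : ∀ v : Nm → Prop, (∀ P ∈ Γ, P.Eval v) → B.Eval v) :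
    ∃ k : ℕ, ∀ (b : Bool) (M : ℕ) (π : List Fm) (l : List Fm), k * ((l.map sz).sum + 1) ≤ M →
      (∀ P ∈ Γ, P.subst (sl l) ∈ π) → Can F b M π k (B.subst (sl l)) := by
  obtain ⟨k, hk⟩ := exists_rule hF Γ B h
  exact ⟨k, fun b M π l hM hΓ => hk b M π (sl l) _ (sz_sl l) hM hΓ⟩

/-! ### Contexts -/

/-- `H₁ → (H₂ → ... → X)`. -/
def imps (H : List Fm) (X : Fm) : Fm := H.foldr imp X

/-- The size of a context. -/
def hsz (H : List Fm) : ℕ := (H.map (fun h => sz h + 1)).sum

@[simp] theorem imps_nil (X : Fm) : imps [] X = X := rfl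
@[simp] theorem imps_cons (h : Fm) (H : List Fm) (X : Fm) : imps (h :: H) X = imp h (imps H X) :=
  rfl

theorem imps_append (H H' : List Fm) (X : Fm) : imps (H ++ H') X = imps H (imps H' X) := by
  simp [imps, List.foldr_append]

@[simp] theorem hsz_nil : hsz [] = 0 := rfl
@[simp] theorem hsz_cons (h : Fm) (H : List Fm) : hsz (h :: H) = sz h + 1 + hsz H := by
  simp [hsz]

theorem hsz_append (H H' : List Fm) : hsz (H ++ H') = hsz H + hsz H' := by
  simp [hsz]

theorem sz_imps (H : List Fm) (X : Fm) : sz (imps H X) = hsz H + sz X := by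
  induction H with
  | nil => simp
  | cons h H ih => simp [sz, ih]; omega

theorem length_le_hsz (H : List Fm) : H.length ≤ hsz H := by
  induction H with
  | nil => simp
  | cons h H ih => simp; omega

theorem sz_le_hsz {h : Fm} {H : List Fm} (hh : h ∈ H) : sz h + 1 ≤ hsz H :=
  List.single_le_sum (by simp) _ (List.mem_map_of_mem (f := fun h => sz h + 1) hh)

theorem subst_imps (H : List Fm) (X : Fm) (s : Nm → Fm) :
    (imps H X).subst s = imps (H.map (fun h => h.subst s)) (X.subst s) := by
  induction H with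
  | nil => rfl
  | cons h H ih => simp [Fm.subst, ih]

theorem eval_imps (H : List Fm) (X : Fm) (v : Nm → Prop) :
    (imps H X).Eval v ↔ ((∀ h ∈ H, h.Eval v) → X.Eval v) := by
  induction H with
  | nil => simp
  | cons h H ih => simp [Fm.Eval, ih]

/-- Arithmetic for budgets. -/
theorem bud {k N M k1 c a : ℕ} (h : k * N ≤ M) (h1 : k1 * c ≤ k) (h2 : a ≤ c * N) :
    k1 * a ≤ M :=
  calc k1 * a ≤ k1 * (c * N) := Nat.mul_le_mul_left _ h2
    _ = k1 * c * N := by ring
    _ ≤ k * N := Nat.mul_le_mul_right _ h1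
    _ ≤ M := h

theorem nec (hF : IsFrege F) : ∃ k : ℕ, ∀ (b : Bool) (M : ℕ) (π : List Fm) (H : List Fm) (X : Fm),
    k * (hsz H + sz X) ≤ M → X ∈ π → Can F b M π (k * H.length) (imps H X) := by
  obtain ⟨k, hk⟩ := exists_rule' hF [vv 1] (imp (vv 0) (vv 1)) (by
    intro v hv; simp [Fm.Eval, vv] at hv ⊢; tauto)
  refine ⟨k * 2, ?_⟩
  intro b M π H X hM hX
  induction H with
  | nil => exact can_mem hX
  | cons h H ih =>
    have h1 : k * 2 * (hsz H + sz X) ≤ M := by
      refine le_trans (Nat.mul_le_mul_left _ ?_) hM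
      simp
    have h2 := ih h1
    have h3 : Can F b M (imps H X :: π) k (imp h (imps H X)) := by
      refine hk b M _ [h, imps H X] ?_ ?_
      · refine bud (c := 2) hM le_rfl ?_
        simp [sz_imps]
        have := sz_pos h
        omega
      · intro P hP
        simp only [List.mem_singleton] at hP
        subst hP
        exact List.mem_cons_self
    refine (h2.cut h3).le ?_
    simp only [List.length_cons]
    nlinarith

theorem dist (hF : IsFrege F) : ∃ k : ℕ, ∀ (b : Bool) (M : ℕ) (π : List Fm) (H : List Fm)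
    (P X : Fm), k * (hsz H + sz P + sz X) ≤ M →
    Can F b M π (k * (H.length + 1)) (imp (imps H (imp P X)) (imp (imps H P) (imps H X))) := by
  obtain ⟨k, hk⟩ := exists_rule' hF [] (imp (vv 0) (vv 0)) (by
    intro v hv; simp [Fm.Eval, vv] at hv ⊢)
  obtain ⟨k', hk'⟩ := exists_rule' hF [imp (vv 0) (imp (vv 1) (vv 2))]
    (imp (imp (vv 3) (vv 0)) (imp (imp (vv 3) (vv 1)) (imp (vv 3) (vv 2)))) (by
    intro v hv; simp [Fm.Eval, vv] at hv ⊢; tauto)
  refine ⟨k * 2 + k' * 4, ?_⟩
  intro b M π H P X hM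
  have hX := sz_pos X
  have hP := sz_pos P
  induction H with
  | nil =>
    have h1 : Can F b M π k (imp (imp P X) (imp P X)) := by
      refine hk b M _ [imp P X] ?_ (by simp)
      refine bud (c := 2) hM (by omega) ?_
      simp [sz]; omega
    refine h1.le ?_
    simp; omega
  | cons h H ih =>
    have h1 : (k * 2 + k' * 4) * (hsz H + sz P + sz X) ≤ M := by
      refine le_trans (Nat.mul_le_mul_left _ ?_) hM
      simp
    have h2 := ih h1
    have h3 : Can F b M (imp (imps H (imp P X)) (imp (imps H P) (imps H X)) :: π) k'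
        (imp (imps (h :: H) (imp P X)) (imp (imps (h :: H) P) (imps (h :: H) X))) := by
      refine hk' b M _ [imps H (imp P X), imps H P, imps H X, h] ?_ ?_
      · refine bud (c := 4) hM (by omega) ?_
        simp [sz_imps, sz]
        omega
      · intro Q hQ
        simp only [List.mem_singleton] at hQ
        subst hQ
        exact List.mem_cons_self
    refine (h2.cut h3).le ?_
    simp only [List.length_cons]
    nlinarith

theorem mp (hF : IsFrege F) : ∃ k : ℕ, ∀ (b : Bool) (M : ℕ) (π : List Fm) (P X : Fm),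
    k * (sz P + sz X) ≤ M → imp P X ∈ π → P ∈ π → Can F b M π k X := by
  obtain ⟨k, hk⟩ := exists_rule' hF [imp (vv 0) (vv 1), vv 0] (vv 1) (by
    intro v hv; simp [Fm.Eval, vv] at hv ⊢; tauto)
  refine ⟨k * 2, ?_⟩
  intro b M π P X hM h1 h2
  have hX := sz_pos X
  have hP := sz_pos P
  have : Can F b M π k X := by
    refine hk b M _ [P, X] ?_ ?_
    · refine bud (c := 2) hM le_rfl ?_
      simp; omega
    · intro Q hQ
      simp only [List.mem_cons, List.not_mem_nil, or_false] at hQ
      rcases hQ with rfl | rfl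
      · exact h1
      · exact h2
  exact this.le (by omega)

theorem ctx_mp (hF : IsFrege F) : ∃ k : ℕ, ∀ (b : Bool) (M : ℕ) (π : List Fm) (H : List Fm)
    (P X : Fm), k * (hsz H + sz P + sz X) ≤ M → imps H (imp P X) ∈ π → imps H P ∈ π →
    Can F b M π (k * (H.length + 1)) (imps H X) := by
  obtain ⟨k1, hk1⟩ := dist hF
  obtain ⟨k2, hk2⟩ := mp hF
  refine ⟨k1 + k2 * 6, ?_⟩
  intro b M π H P X hM h1 h2
  have hX := sz_pos X
  have hP := sz_pos P
  have c1 : Can F b M π (k1 * (H.length + 1))
      (imp (imps H (imp P X)) (imp (imps H P) (imps H X))) :=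
    hk1 b M π H P X (bud (c := 1) hM (by omega) (by omega))
  have c2 : Can F b M (imp (imps H (imp P X)) (imp (imps H P) (imps H X)) :: π) k2
      (imp (imps H P) (imps H X)) := by
    refine hk2 b M _ (imps H (imp P X)) _ ?_ List.mem_cons_self (List.mem_cons_of_mem _ h1)
    refine bud (c := 6) hM (by omega) ?_
    simp [sz_imps, sz]; omega
  have c3 : Can F b M (imp (imps H P) (imps H X) :: π) k2 (imps H X) := by
    refine hk2 b M _ (imps H P) _ ?_ List.mem_cons_self (List.mem_cons_of_mem _ h2)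
    refine bud (c := 6) hM (by omega) ?_
    simp [sz_imps]; omega
  refine ((c1.cut c2).cut c3).le ?_
  nlinarith

/-- Several applications of modus ponens in a context. -/
theorem ctx_mps (hF : IsFrege F) : ∃ k : ℕ, ∀ (b : Bool) (M : ℕ) (H L : List Fm) (X : Fm)
    (π : List Fm), k * (hsz H + hsz L + sz X) ≤ M → imps H (imps L X) ∈ π →
    (∀ P ∈ L, imps H P ∈ π) → Can F b M π (k * L.length * (H.length + 1)) (imps H X) := by
  obtain ⟨k, hk⟩ := ctx_mp hF
  refine ⟨k, ?_⟩
  intro b M H L X
  induction L with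
  | nil => intro π _ h2 _; exact can_mem h2
  | cons P L ih =>
    intro π hM h2 h1
    have hP := sz_pos P
    have c1 : Can F b M π (k * (H.length + 1)) (imps H (imps L X)) := by
      refine hk b M π H P _ ?_ h2 (h1 P (by simp))
      refine le_trans (Nat.mul_le_mul_left _ ?_) hM
      simp [sz_imps]
      omega
    have c2 := ih (imps H (imps L X) :: π) (by
      refine le_trans (Nat.mul_le_mul_left _ ?_) hM
      simp)
      List.mem_cons_self (fun Q hQ => List.mem_cons_of_mem _ (h1 Q (List.mem_cons_of_mem _ hQ)))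
    refine (c1.cut c2).le ?_
    rw [List.length_cons]
    nlinarith

/-- A fixed sound inference inside a context. -/
theorem ctx_rule_gen (hF : IsFrege F) (Γ : List Fm) (B : Fm)
    (h : ∀ v : Nm → Prop, (∀ P ∈ Γ, P.Eval v) → B.Eval v) :
    ∃ k : ℕ, ∀ (b : Bool) (M : ℕ) (π : List Fm) (H : List Fm) (s : Nm → Fm) (m : ℕ),
      (∀ x, sz (s x) ≤ m) → k * (hsz H + m) ≤ M → (∀ P ∈ Γ, imps H (P.subst s) ∈ π) →
      Can F b M π (k * (H.length + 1)) (imps H (B.subst s)) := by
  obtain ⟨k1, hk1⟩ := exists_rule hF [] (imps Γ B) (by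
    intro v _; rw [eval_imps]; exact h v)
  obtain ⟨k2, hk2⟩ := nec hF
  obtain ⟨k3, hk3⟩ := ctx_mps hF
  refine ⟨k1 + (k2 + k3) * (hsz Γ + sz B) + k3 * Γ.length + k2, ?_⟩
  intro b M π H s m hs hM hΓ
  have hB := sz_pos B
  have hm : 1 ≤ m := (sz_pos _).trans (hs [])
  have e0 : sz ((imps Γ B).subst s) ≤ (hsz Γ + sz B) * m := by
    rw [← sz_imps]
    exact sz_subst hm (fun x _ => hs x)
  have e1 : hsz (Γ.map (fun h => h.subst s)) + sz (B.subst s) ≤ (hsz Γ + sz B) * m := by
    rw [← sz_imps, ← subst_imps]; exact e0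
  have e2 : (hsz Γ + sz B) * m + hsz H ≤ (hsz Γ + sz B) * (hsz H + m) := by
    have : 1 ≤ hsz Γ + sz B := by omega
    nlinarith
  have c1 : Can F b M π k1 ((imps Γ B).subst s) :=
    hk1 b M π s m hs (bud (c := 1) hM (by nlinarith) (by omega)) (by simp)
  have c2 : Can F b M ((imps Γ B).subst s :: π) (k2 * H.length)
      (imps H ((imps Γ B).subst s)) := by
    refine hk2 b M _ H _ ?_ List.mem_cons_self
    refine bud (c := hsz Γ + sz B) hM (by nlinarith) ?_
    omega
  rw [subst_imps] at c1 c2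
  have c3 : Can F b M (imps H (imps (Γ.map (fun h => h.subst s)) (B.subst s)) :: π)
      (k3 * (Γ.map (fun h => h.subst s)).length * (H.length + 1)) (imps H (B.subst s)) := by
    refine hk3 b M H _ _ _ ?_ List.mem_cons_self ?_
    · refine bud (c := hsz Γ + sz B) hM (by nlinarith) ?_
      omega
    · intro P hP
      obtain ⟨Q, hQ, rfl⟩ := List.mem_map.1 hP
      exact List.mem_cons_of_mem _ (hΓ Q hQ)
  refine ((c1.cut c2).cut c3).le ?_
  rw [List.length_map]
  have hg : k1 + k2 + k3 * Γ.length ≤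
      k1 + (k2 + k3) * (hsz Γ + sz B) + k3 * Γ.length + k2 := by
    have := Nat.zero_le ((k2 + k3) * (hsz Γ + sz B))
    omega
  calc k1 + k2 * H.length + k3 * Γ.length * (H.length + 1)
      ≤ (k1 + k2 + k3 * Γ.length) * (H.length + 1) := by nlinarith
    _ ≤ _ := Nat.mul_le_mul_right _ hg

/-- A fixed sound inference inside a context, metavariables given by a list. -/
theorem ctx_rule (hF : IsFrege F) (Γ : List Fm) (B : Fm)
    (h : ∀ v : Nm → Prop, (∀ P ∈ Γ, P.Eval v) → B.Eval v) :
    ∃ k : ℕ, ∀ (b : Bool) (M : ℕ) (π : List Fm) (H : List Fm) (l : List Fm),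
      k * (hsz H + (l.map sz).sum + 1) ≤ M → (∀ P ∈ Γ, imps H (P.subst (sl l)) ∈ π) →
      Can F b M π (k * (H.length + 1)) (imps H (B.subst (sl l))) := by
  obtain ⟨k, hk⟩ := ctx_rule_gen hF Γ B h
  refine ⟨k, fun b M π H l hM hΓ => hk b M π H (sl l) _ (sz_sl l) ?_ hΓ⟩
  rw [← Nat.add_assoc]; exact hM

end Pool.Agent.H.MP_0447ec_lc.SE
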