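import Pool.Agent.H.MP_0447ec_lc.SE.Group

/-!
# Elimination of all extension axioms, group after group
-/

namespace Pool.Agent.H.MP_0447ec_lc.SE

open Pool.Agent.H.MP_0447ec_lc.PS Pool.Agent.H.MP_0447ec_lc.PS.Fm

variable {F : List Rule}

/-! ### Variables of formulas -/

theorem vars_subst {A : Fm} {s : Nm → Fm} {x : Nm} (h : x ∈ (A.subst s).vars) :
    ∃ y ∈ A.vars, x ∈ (s y).vars := by
  induction A with
  | var w => exact ⟨w, rfl, h⟩
  | neg A ih => exact ih h
  | and A B ih1 ih2 =>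
    rcases h with h | h
    · obtain ⟨y, hy, hx⟩ := ih1 h; exact ⟨y, Or.inl hy, hx⟩
    · obtain ⟨y, hy, hx⟩ := ih2 h; exact ⟨y, Or.inr hy, hx⟩
  | or A B ih1 ih2 =>
    rcases h with h | h
    · obtain ⟨y, hy, hx⟩ := ih1 h; exact ⟨y, Or.inl hy, hx⟩
    · obtain ⟨y, hy, hx⟩ := ih2 h; exact ⟨y, Or.inr hy, hx⟩
  | imp A B ih1 ih2 =>
    rcases h with h | h
    · obtain ⟨y, hy, hx⟩ := ih1 h; exact ⟨y, Or.inl hy, hx⟩
    · obtain ⟨y, hy, hx⟩ := ih2 h; exact ⟨y, Or.inr hy, hx⟩

theorem vars_imps {H : List Fm} {X : Fm} {x : Nm} (h : x ∈ (imps H X).vars) :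
    (∃ a ∈ H, x ∈ a.vars) ∨ x ∈ X.vars := by
  induction H with
  | nil => exact Or.inr h
  | cons a H ih =>
    rcases h with h | h
    · exact Or.inl ⟨a, List.mem_cons_self, h⟩
    · rcases ih h with ⟨a', h1, h2⟩ | h
      · exact Or.inl ⟨a', List.mem_cons_of_mem _ h1, h2⟩
      · exact Or.inr h

theorem vars_lit {β : Bool} {x y : Nm} (h : x ∈ (lit β y).vars) : x = y := by
  cases β <;> exact h

theorem vars_cst {t : Nm} {b : Bool} {x : Nm} (h : x ∈ (cst t b).vars) : x = t := by
  cases b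
  · rcases h with h | h <;> exact h
  · rcases h with h | h <;> exact h

theorem vars_disj {t : Nm} {L : List Fm} {x : Nm} (h : x ∈ (disj t L).vars) :
    x = t ∨ ∃ a ∈ L, x ∈ a.vars := by
  induction L with
  | nil => exact Or.inl (vars_cst (b := false) h)
  | cons a L ih =>
    rw [disj_cons] at h
    rcases h with h | h
    · exact Or.inr ⟨a, List.mem_cons_self, h⟩
    · rcases ih h with h | ⟨a', h1, h2⟩
      · exact Or.inl h
      · exact Or.inr ⟨a', List.mem_cons_of_mem _ h1, h2⟩

theorem vars_qh {t : Nm} {β : Bool} {V : ℕ} {z : ℕ → Nm} {bt : ℕ → Bool} {x : Nm}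
    (h : x ∈ (qh t β V z bt).vars) : x = t ∨ ∃ a < V, x = z a := by
  rcases vars_disj h with h | ⟨a, ha, hx⟩
  · exact Or.inl h
  · obtain ⟨n, hn, rfl⟩ := List.mem_map.1 ha
    rw [List.mem_filter, List.mem_range] at hn
    exact Or.inr ⟨n, hn.1, vars_lit hx⟩

theorem vars_iff {A B : Fm} {x : Nm} (h : x ∈ (Fm.iff A B).vars) : x ∈ A.vars ∨ x ∈ B.vars := by
  simp only [Fm.iff, Fm.vars, Set.mem_union] at h
  tauto

theorem vars_ZZ {β : Bool} {z : ℕ → Nm} {V : ℕ} {y x : Nm} {h : Fm} (hh : h ∈ ZZ β z V y)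
    (hx : x ∈ h.vars) : x = y ∨ ∃ a, a + 1 < V ∧ x = z (a + 1) := by
  rcases List.mem_cons.1 hh with rfl | hh
  · exact Or.inl (vars_lit hx)
  · obtain ⟨a, ha, rfl⟩ := List.mem_map.1 hh
    rw [List.mem_range] at ha
    exact Or.inr ⟨a, by omega, vars_lit hx⟩

/-! ### Order of the extension axioms -/

theorem ord_get : ∀ {E : List (Nm × Fm)}, OrdG E → ∀ (i j : ℕ) (hi : i < E.length)
    (hj : j < E.length), j ≤ i → (E[i]).1 ∉ (E[j]).2.vars ∧ (j < i → (E[i]).1 ≠ (E[j]).1) := by
  intro E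
  induction E with
  | nil => intro _ i j hi; simp at hi
  | cons e E ih =>
    intro h i j hi hj hij
    cases j with
    | zero =>
      cases i with
      | zero => exact ⟨h.1, fun h => absurd h (lt_irrefl _)⟩
      | succ i =>
        have := h.2.1 (E[i]'(by simpa using hi)) (List.getElem_mem _)
        simp only [List.getElem_cons_succ, List.getElem_cons_zero]
        exact ⟨this.2, fun _ => this.1⟩
    | succ j =>
      cases i with
      | zero => omega
      | succ i =>
        simp only [List.getElem_cons_succ]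
        have := ih h.2.2 i j (by simpa using hi) (by simpa using hj) (by omega)
        exact ⟨this.1, fun h => this.2 (by omega)⟩

theorem ord_nodup : ∀ {E : List (Nm × Fm)}, OrdG E → (E.map Prod.fst).Nodup := by
  intro E
  induction E with
  | nil => intro _; simp
  | cons e E ih =>
    intro h
    rw [List.map_cons, List.nodup_cons]
    refine ⟨?_, ih h.2.2⟩
    intro hm
    obtain ⟨e', he', h1⟩ := List.mem_map.1 hm
    exact (h.2.1 e' he').1 h1

theorem ord_sublist : ∀ {E E' : List (Nm × Fm)}, E'.Sublist E → OrdG E → OrdG E' := by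
  intro E E' h
  induction h with
  | slnil => intro _; trivial
  | cons a _ ih => intro h; exact ih h.2.2
  | cons_cons a hs ih =>
    intro h
    exact ⟨h.1, fun e' he' => h.2.1 e' (hs.subset he'), ih h.2.2⟩

/-- The position of a name. -/
def idx (E : List (Nm × Fm)) (x : Nm) : ℕ := (E.map Prod.fst).idxOf x

theorem idx_get {E : List (Nm × Fm)} (h : OrdG E) (i : ℕ) (hi : i < E.length) :
    idx E (E[i]).1 = i := by
  unfold idx
  have := (ord_nodup h).idxOf_getElem i (by simpa using hi)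
  simpa using this

theorem idx_dep {E : List (Nm × Fm)} (h : OrdG E) {e : Nm × Fm} (he : e ∈ E) {y : Nm}
    (hy : y ∈ e.2.vars) (hyE : y ∈ E.map Prod.fst) : idx E y < idx E e.1 := by
  obtain ⟨j, hj, rfl⟩ := List.getElem_of_mem he
  obtain ⟨e', he', rfl⟩ := List.mem_map.1 hyE
  obtain ⟨i, hi, rfl⟩ := List.getElem_of_mem he'
  rw [idx_get h, idx_get h]
  by_contra hcon
  exact (ord_get h i j hi hj (by omega)).1 hy

theorem mem_take_idx {E : List (Nm × Fm)} (h : OrdG E) {n : ℕ} {e : Nm × Fm}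
    (he : e ∈ E.take n) : idx E e.1 < n := by
  rw [List.mem_take_iff_getElem] at he
  obtain ⟨j, hj, rfl⟩ := he
  rw [idx_get h]; omega

theorem mem_grp_idx {E : List (Nm × Fm)} (h : OrdG E) {n c : ℕ} {e : Nm × Fm}
    (he : e ∈ (E.drop n).take c) : n ≤ idx E e.1 ∧ idx E e.1 < n + c := by
  rw [List.mem_take_iff_getElem] at he
  obtain ⟨j, hj, rfl⟩ := he
  rw [List.getElem_drop, idx_get h]; omega

theorem idx_mem_grp {E : List (Nm × Fm)} (h : OrdG E) {n c : ℕ} {y : Nm}
    (hy : y ∈ E.map Prod.fst) (h1 : n ≤ idx E y) (h2 : idx E y < n + c) :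
    y ∈ ((E.drop n).take c).map Prod.fst := by
  obtain ⟨e', he', rfl⟩ := List.mem_map.1 hy
  obtain ⟨i, hi, rfl⟩ := List.getElem_of_mem he'
  rw [idx_get h] at h1 h2
  rw [List.mem_map]
  refine ⟨E[i], ?_, rfl⟩
  rw [List.mem_take_iff_getElem]
  refine ⟨i - n, ?_, ?_⟩
  · rw [List.length_drop]; omega
  · rw [List.getElem_drop]
    congr 1
    omega

/-- Every pattern of `c` bits is the pattern of a number below `2 ^ c`. -/
theorem exists_bits (c : ℕ) : ∀ f : ℕ → Bool, ∃ v < 2 ^ c, ∀ j < c, v.testBit j = f j := by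
  intro f
  refine ⟨Nat.ofBits (fun i : Fin c => f i), Nat.ofBits_lt_two_pow _, ?_⟩
  intro j hj
  rw [Nat.testBit_ofBits_lt _ _ hj]

/-! ### The substitution -/

/-- The coded bit of a name. -/
def btc (E : List (Nm × Fm)) (c : ℕ) (q : Nm) (a : ℕ) : Bool := a.testBit (idx E q % c)

/-- The substitution of the coding formulas for the extension variables. -/
def TH (E : List (Nm × Fm)) (J : List Nm) (t : Nm) (β : Bool) (c : ℕ) (z : ℕ → ℕ → Nm) :
    Nm → Fm := fun x =>
  if x ∈ J then cst t β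
  else if x ∈ E.map Prod.fst then qh t β (2 ^ c) (z (idx E x / c)) (btc E c x)
  else var x

theorem sz_TH (E : List (Nm × Fm)) (J : List Nm) (t : Nm) (β : Bool) (c : ℕ) (z : ℕ → ℕ → Nm)
    (x : Nm) : sz (TH E J t β c z x) ≤ 3 * 2 ^ c + 4 := by
  unfold TH
  split_ifs
  · have := sz_cst t β; omega
  · exact sz_qh _ _ _ _ _
  · simp only [sz]; omega

theorem vars_TH {E : List (Nm × Fm)} {J : List Nm} {t : Nm} {β : Bool} {c : ℕ}
    {z : ℕ → ℕ → Nm} {x y : Nm} (h : x ∈ (TH E J t β c z y).vars) :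
    x = t ∨ (y ∈ E.map Prod.fst ∧ ∃ a < 2 ^ c, x = z (idx E y / c) a) ∨
      (x = y ∧ y ∉ J ∧ y ∉ E.map Prod.fst) := by
  unfold TH at h
  split_ifs at h with h1 h2
  · exact Or.inl (vars_cst h)
  · rcases vars_qh h with h | h
    · exact Or.inl h
    · exact Or.inr (Or.inl ⟨h2, h⟩)
  · exact Or.inr (Or.inr ⟨h, h1, h2⟩)

/-- The assumptions on names. -/
structure Setup (E : List (Nm × Fm)) (A : Fm) (J : List Nm) (L : ℕ) (t : Nm)
    (z : ℕ → ℕ → Nm) : Prop where
  ord : OrdG E
  EA : ∀ e ∈ E, e.1 ∉ A.vars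
  JA : ∀ x ∈ J, x ∈ A.vars
  LA : ∀ x ∈ A.vars, x.length < L
  LE : ∀ e ∈ E, ∀ x ∈ e.2.vars, x.length < L
  Lt : t.length = L
  Lz : ∀ i a, L < (z i a).length
  zinj : ∀ i a i' a', z i a = z i' a' → i = i' ∧ a = a'

theorem zs_ne {E : List (Nm × Fm)} {A : Fm} {J : List Nm} {L : ℕ} {t : Nm} {z : ℕ → ℕ → Nm}
    (hS : Setup E A J L t z) {i a : ℕ} {y : Nm} (hy : y.length ≤ L) : z i a ≠ y := by
  intro h
  have := hS.Lz i a
  rw [h] at this
  omega

/-- All groups from `i` on. -/
def ZZr (β : Bool) (z : ℕ → ℕ → Nm) (V : ℕ) (x : ℕ → Nm) (i k : ℕ) : List Fm :=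
  (List.range' i k).flatMap (fun j => ZZ β (z j) V (x j))

theorem ZZr_succ (β : Bool) (z : ℕ → ℕ → Nm) (V : ℕ) (x : ℕ → Nm) (i k : ℕ) :
    ZZr β z V x i (k + 1) = ZZ β (z i) V (x i) ++ ZZr β z V x (i + 1) k := by
  simp [ZZr, List.range'_succ]

theorem hsz_ZZr (β : Bool) (z : ℕ → ℕ → Nm) (V : ℕ) (x : ℕ → Nm) (i k : ℕ) :
    hsz (ZZr β z V x i k) ≤ k * (3 * V + 3) := by
  induction k generalizing i with
  | zero => simp [ZZr]
  | succ k ih =>
    rw [ZZr_succ, hsz_append]
    have h1 := hsz_ZZ β (z i) V (x i)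
    have h2 := ih (i + 1)
    have : (k + 1) * (3 * V + 3) = k * (3 * V + 3) + (3 * V + 3) := by ring
    omega

theorem mem_ZZr {β : Bool} {z : ℕ → ℕ → Nm} {V : ℕ} {x : ℕ → Nm} {i k : ℕ} {h : Fm}
    (hh : h ∈ ZZr β z V x i k) : ∃ j, i ≤ j ∧ j < i + k ∧ h ∈ ZZ β (z j) V (x j) := by
  simp only [ZZr, List.mem_flatMap, List.mem_range'_1] at hh
  obtain ⟨j, hj, h⟩ := hh
  exact ⟨j, hj.1, hj.2, h⟩

section Names

variable {E : List (Nm × Fm)} {A : Fm} {J : List Nm} {L : ℕ} {t : Nm} {z : ℕ → ℕ → Nm}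
  {β : Bool} {c : ℕ}

/-- Variables of the substituted formula. -/
theorem vars_A0 (hS : Setup E A J L t z) {x : Nm} (h : x ∈ (A.subst (TH E J t β c z)).vars) :
    x = t ∨ (x ∈ A.vars ∧ x ∉ J) := by
  obtain ⟨y, hy, hx⟩ := vars_subst h
  rcases vars_TH hx with h | ⟨h, -⟩ | ⟨h, h1, h2⟩
  · exact Or.inl h
  · obtain ⟨e, he, rfl⟩ := List.mem_map.1 h
    exact absurd hy (hS.EA e he)
  · right
    rw [h]
    exact ⟨hy, h1⟩

/-- Variables of the substituted extension axioms. -/
theorem vars_axs (hS : Setup E A J L t z) (hc : 0 < c) {i : ℕ} {x : Nm} {h : Fm}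
    (hh : h ∈ axs (TH E J t β c z) (E.take (i * c))) (hx : x ∈ h.vars) :
    x = t ∨ (∃ j < i, ∃ a, x = z j a) ∨ (x.length < L ∧ x ∉ J) := by
  obtain ⟨e, he, rfl⟩ := List.mem_map.1 hh
  have heE : e ∈ E := List.mem_of_mem_take he
  have hidx := mem_take_idx hS.ord he
  rcases vars_iff hx with hx | hx
  · rcases vars_TH hx with h | ⟨h, a, -, ha⟩ | ⟨h, h1, h2⟩
    · exact Or.inl h
    · right; left
      exact ⟨_, Nat.div_lt_of_lt_mul (by rw [mul_comm]; exact hidx), a, ha⟩
    · exact absurd (List.mem_map_of_mem heE) h2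
  · obtain ⟨y, hy, hx⟩ := vars_subst hx
    rcases vars_TH hx with h | ⟨h, a, -, ha⟩ | ⟨h, h1, h2⟩
    · exact Or.inl h
    · right; left
      have := idx_dep hS.ord heE hy h
      exact ⟨_, Nat.div_lt_of_lt_mul (by rw [mul_comm]; omega), a, ha⟩
    · right; right
      rw [h]
      exact ⟨hS.LE e heE y hy, h1⟩

theorem grp_ok (hS : Setup E A J L t z) (hc : 0 < c) (w : ℕ) (hJ : J.length = w) (i k : ℕ)
    (hik : i + 1 + k = w) :
    GrpOk t β (2 ^ c) (z i) (btc E c) (TH E J t β c z) (3 * 2 ^ c + 4)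
      (axs (TH E J t β c z) (E.take (i * c))) ((E.drop (i * c)).take c)
      (imps (ZZr β z (2 ^ c) (fun j => J.getD j []) (i + 1) k) (A.subst (TH E J t β c z))) where
  m4 := by omega
  szθ := sz_TH _ _ _ _ _ _
  V0 := by positivity
  zinj := fun a a' _ _ h => (hS.zinj _ _ _ _ h).2
  zt := fun a _ => zs_ne hS (by rw [hS.Lt])
  zP := by
    intro a _ h hh hx
    rcases vars_axs hS hc hh hx with h | ⟨j, hj, a', h⟩ | ⟨h, -⟩
    · exact zs_ne hS (by rw [hS.Lt]) h
    · have := (hS.zinj _ _ _ _ h).1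
      omega
    · have := hS.Lz i a
      omega
  zC := by
    intro a _ hx
    rcases vars_imps hx with ⟨h, hh, hx⟩ | hx
    · obtain ⟨j, hj1, hj2, hh⟩ := mem_ZZr hh
      rcases vars_ZZ hh hx with h | ⟨a', -, h⟩
      · have hJj : J.getD j [] ∈ J := by
          rw [List.getD_eq_getElem _ _ (by omega)]
          exact List.getElem_mem _
        have h1 := hS.LA _ (hS.JA _ hJj)
        have h2 := hS.Lz i a
        rw [h] at h2
        omega
      · have := (hS.zinj _ _ _ _ h).1
        omega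
    · rcases vars_A0 hS hx with h | ⟨h, -⟩
      · exact zs_ne hS (by rw [hS.Lt]) h
      · have h1 := hS.LA _ h
        have h2 := hS.Lz i a
        omega
  ord := ord_sublist ((List.take_sublist _ _).trans (List.drop_sublist _ _)) hS.ord
  qval := by
    intro e he
    have heE : e ∈ E := List.mem_of_mem_drop (List.mem_of_mem_take he)
    have hidx := mem_grp_idx hS.ord he
    have h1 : e.1 ∉ J := fun h => hS.EA e heE (hS.JA _ h)
    have h2 : e.1 ∈ E.map Prod.fst := List.mem_map_of_mem heE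
    have h3 : idx E e.1 / c = i := by
      rw [Nat.div_eq_iff hc]
      constructor
      · exact hidx.1
      · have := hidx.2
        omega
    unfold TH
    rw [if_neg h1, if_pos h2, h3]
  fresh := by
    intro e he y hy hyg a _ hx
    have heE : e ∈ E := List.mem_of_mem_drop (List.mem_of_mem_take he)
    have hidx := mem_grp_idx hS.ord he
    rcases vars_TH hx with h | ⟨h, a', -, ha⟩ | ⟨h, h1, h2⟩
    · exact zs_ne hS (by rw [hS.Lt]) h
    · have h1 := idx_dep hS.ord heE hy h
      have h2 : idx E y < i * c := by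
        by_contra hcon
        exact hyg (idx_mem_grp hS.ord h (by omega) (by omega))
      have h3 := (hS.zinj _ _ _ _ ha).1
      have h4 : idx E y / c < i := Nat.div_lt_of_lt_mul (by rw [mul_comm]; exact h2)
      omega
    · have h3 := hS.LE e heE y hy
      have h4 := hS.Lz i a
      rw [h] at h4
      omega

end Names

theorem chain (hF : IsFrege F) : ∃ k : ℕ, ∀ (M N : ℕ) (E : List (Nm × Fm)) (A : Fm)
    (J : List Nm) (L : ℕ) (t : Nm) (z : ℕ → ℕ → Nm) (β : Bool) (c w : ℕ) (π : List Fm),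
    Setup E A J L t z → 0 < c → J.Nodup → J.length = w → E.length ≤ w * c → k * N ≤ M →
    20 * (3 * 2 ^ c + 4) * gsz E + 6 * 2 ^ c + 7 + w * (3 * 2 ^ c + 3) +
      sz A * (3 * 2 ^ c + 4) ≤ N →
    imps (axs (TH E J t β c z) E) (A.subst (TH E J t β c z)) ∈ π →
    Can F true M π (w * (2 ^ c * (k * (N + 1) ^ 4)))
      (imps (ZZr β z (2 ^ c) (fun j => J.getD j []) 0 w) (A.subst (TH E J t β c z))) := by
  obtain ⟨k0, hk0⟩ := elim_group hF
  refine ⟨k0, ?_⟩
  intro M N E A J L t z β c w π hS hc hJn hJ hE hM hN hπ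
  set θ := TH E J t β c z with hθ
  set x : ℕ → Nm := fun j => J.getD j [] with hx
  have hxJ : ∀ j < w, x j ∈ J := by
    intro j hj
    rw [hx]
    simp only
    rw [List.getD_eq_getElem _ _ (by omega)]
    exact List.getElem_mem _
  have hxinj : ∀ i j, i < w → j < w → x i = x j → i = j := by
    intro i j hi hj h
    rw [hx] at h
    simp only at h
    rw [List.getD_eq_getElem _ _ (by omega), List.getD_eq_getElem _ _ (by omega)] at h
    exact (hJn.getElem_inj_iff).1 h
  have key : ∀ k i, i + k = w → Can F true M π (k * (2 ^ c * (k0 * (N + 1) ^ 4)))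
      (imps (axs θ (E.take (i * c))) (imps (ZZr β z (2 ^ c) x i k) (A.subst θ))) := by
    intro k
    induction k with
    | zero =>
      intro i hi
      have h1 : E.take (i * c) = E := by
        apply List.take_of_length_le
        have : i = w := by omega
        rw [this]; exact hE
      rw [h1]
      apply can_mem
      simpa [ZZr] using hπ
    | succ k ih =>
      intro i hi
      have h1 := ih (i + 1) (by omega)
      have h2 : E.take ((i + 1) * c) = E.take (i * c) ++ (E.drop (i * c)).take c := by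
        rw [add_mul, one_mul, List.take_add]
      have h3 : axs θ (E.take ((i + 1) * c)) = axs θ (E.take (i * c)) ++
          axs θ ((E.drop (i * c)).take c) := by
        rw [h2]; simp [axs]
      rw [h3] at h1
      have hG := grp_ok (β := β) hS hc w hJ i k (by omega)
      have hg1 : gsz (E.take (i * c)) + gsz ((E.drop (i * c)).take c) ≤ gsz E := by
        have e1 : gsz E = gsz (E.take (i * c)) + gsz (E.drop (i * c)) := by
          rw [← gsz_append, List.take_append_drop]
        have e2 : gsz (E.drop (i * c)) = gsz ((E.drop (i * c)).take c) +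
            gsz ((E.drop (i * c)).drop c) := by
          rw [← gsz_append, List.take_append_drop]
        omega
      have hP := hsz_axs (θ := θ) (m := 3 * 2 ^ c + 4) (by omega) (sz_TH _ _ _ _ _ _)
        (E.take (i * c))
      have hA : sz (A.subst θ) ≤ sz A * (3 * 2 ^ c + 4) :=
        sz_subst (by omega) (fun x _ => sz_TH _ _ _ _ _ _ x)
      have hZ := hsz_ZZr β z (2 ^ c) x (i + 1) k
      have c1 := hk0 M N t β (2 ^ c) (z i) (btc E c) θ (3 * 2 ^ c + 4)
        (axs θ (E.take (i * c))) ((E.drop (i * c)).take c)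
        (imps (ZZr β z (2 ^ c) x (i + 1) k) (A.subst θ)) (x i)
        (imps (axs θ (E.take (i * c)) ++ axs θ ((E.drop (i * c)).take c))
          (imps (ZZr β z (2 ^ c) x (i + 1) k) (A.subst θ)) :: π) hG hM ?_ ?_ ?_ ?_ ?_
        List.mem_cons_self
      · have e4 : imps (axs θ (E.take (i * c))) (imps (ZZ β (z i) (2 ^ c) (x i))
            (imps (ZZr β z (2 ^ c) x (i + 1) k) (A.subst θ))) =
            imps (axs θ (E.take (i * c))) (imps (ZZr β z (2 ^ c) x i (k + 1)) (A.subst θ)) := by
          rw [ZZr_succ, imps_append]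
        rw [e4] at c1
        refine (h1.cut c1).le ?_
        have hgl : ((E.drop (i * c)).take c).length ≤ c := by
          rw [List.length_take]; omega
        have hp : 2 ^ ((E.drop (i * c)).take c).length ≤ 2 ^ c :=
          Nat.pow_le_pow_right (by omega) hgl
        have := Nat.mul_le_mul_right (k0 * (N + 1) ^ 4) hp
        have e : (k + 1) * (2 ^ c * (k0 * (N + 1) ^ 4)) =
          k * (2 ^ c * (k0 * (N + 1) ^ 4)) + 2 ^ c * (k0 * (N + 1) ^ 4) := by ring
        omega
      · rw [sz_imps]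
        have e1 : k * (3 * 2 ^ c + 3) ≤ w * (3 * 2 ^ c + 3) := Nat.mul_le_mul_right _ (by omega)
        have e2 : 3 * (3 * 2 ^ c + 4) * gsz (E.take (i * c)) +
            17 * (3 * 2 ^ c + 4) * gsz ((E.drop (i * c)).take c) ≤
            20 * (3 * 2 ^ c + 4) * gsz E := by
          calc _ ≤ 20 * (3 * 2 ^ c + 4) * gsz (E.take (i * c)) +
                20 * (3 * 2 ^ c + 4) * gsz ((E.drop (i * c)).take c) := by
                gcongr <;> omega
            _ = 20 * (3 * 2 ^ c + 4) * (gsz (E.take (i * c)) +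
                  gsz ((E.drop (i * c)).take c)) := by ring
            _ ≤ _ := Nat.mul_le_mul_left _ hg1
        omega
      · intro f
        obtain ⟨v, hv, hvf⟩ := exists_bits c (fun j => f ((E.map Prod.fst).getD (i * c + j) []))
        refine ⟨v, hv, ?_⟩
        intro e he
        have heE : e ∈ E := List.mem_of_mem_drop (List.mem_of_mem_take he)
        have hidx := mem_grp_idx hS.ord he
        obtain ⟨j, hj⟩ : ∃ j, idx E e.1 = i * c + j := ⟨idx E e.1 - i * c, by omega⟩
        have hjc : j < c := by omega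
        have hmod : idx E e.1 % c = j := by
          rw [hj, mul_comm, Nat.mul_add_mod, Nat.mod_eq_of_lt hjc]
        unfold btc
        rw [hmod, hvf j hjc, ← hj]
        congr 1
        obtain ⟨q, hq, rfl⟩ := List.getElem_of_mem heE
        rw [idx_get hS.ord, List.getD_eq_getElem _ _ (by simpa using hq), List.getElem_map]
      · intro a _
        exact zs_ne hS (le_of_lt (hS.LA _ (hS.JA _ (hxJ i (by omega)))))
      · intro h hh hxi
        have hl := hS.LA _ (hS.JA _ (hxJ i (by omega)))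
        rcases vars_axs hS hc hh hxi with h | ⟨j, -, a', h⟩ | ⟨-, h⟩
        · rw [h, hS.Lt] at hl; omega
        · have := hS.Lz j a'
          rw [← h] at this
          omega
        · exact h (hxJ i (by omega))
      · intro hxi
        have hl := hS.LA _ (hS.JA _ (hxJ i (by omega)))
        rcases vars_imps hxi with ⟨h, hh, hxi⟩ | hxi
        · obtain ⟨j, hj1, hj2, hh⟩ := mem_ZZr hh
          rcases vars_ZZ hh hxi with h | ⟨a', -, h⟩
          · have := hxinj i j (by omega) (by omega) h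
            omega
          · have := hS.Lz j (a' + 1)
            rw [← h] at this
            omega
        · rcases vars_A0 hS hxi with h | ⟨-, h⟩
          · rw [h, hS.Lt] at hl; omega
          · exact h (hxJ i (by omega))
  have := key w 0 (by omega)
  simpa [axs] using this

end Pool.Agent.H.MP_0447ec_lc.SE
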