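import Pool.Agent.H.MP_0447ec_lc.SE.DT

/-!
# Removing the background
-/

namespace Pool.Agent.H.MP_0447ec_lc.SE

open Pool.Agent.H.MP_0447ec_lc.PS Pool.Agent.H.MP_0447ec_lc.PS.Fm

variable {F : List Rule}

theorem elimU (hF : IsFrege F) : ∃ k : ℕ, ∀ (b : Bool) (M N : ℕ) (X : Fm), k * N ≤ M →
    ∀ (U : List Nm) (π : List Fm), 3 * U.length + sz X + 2 ≤ N →
    (∀ u ∈ U, imp (neg (var u)) X ∈ π) → imps (U.map (lit true)) X ∈ π →
    Can F b M π (U.length * (k * (N + 1))) X := by
  obtain ⟨k1, hk1⟩ := intro_chain hF
  obtain ⟨k2, hk2⟩ := exists_rule' hF [imp (vv 0) (vv 1), imp (neg (vv 0)) (vv 2),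
    imp (vv 2) (vv 1)] (vv 1) (by
    intro v hv; simp [Fm.Eval, vv] at hv ⊢; tauto)
  refine ⟨k1 + k2 * 2, ?_⟩
  intro b M N X hM U
  have hX := sz_pos X
  induction U with
  | nil => intro π _ _ h; exact can_mem h
  | cons u U ih =>
    intro π hN h1 h2
    rw [List.length_cons] at hN
    have hl := hsz_lit_map true U
    set Y := imps (U.map (lit true)) X with hY
    have hYs : sz Y ≤ 3 * U.length + sz X := by rw [hY, sz_imps]; omega
    have c1 : Can F b M π (k1 * ((U.map (lit true)).length + 1)) (imp X Y) :=
      hk1 b M π (U.map (lit true)) X (bud (c := 1) hM (by omega) (by omega))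
    have c2 : Can F b M (imp X Y :: π) k2 Y := by
      refine hk2 b M _ [var u, Y, X] (bud (c := 2) hM (by omega) ?_) ?_
      · simp only [List.map_cons, List.map_nil, List.sum_cons, List.sum_nil, sz]
        omega
      · intro P hP
        simp only [List.mem_cons, List.not_mem_nil, or_false] at hP
        rcases hP with rfl | rfl | rfl
        · exact List.mem_cons_of_mem _ h2
        · exact List.mem_cons_of_mem _ (h1 u List.mem_cons_self)
        · exact List.mem_cons_self
    have c3 := ih (Y :: π) (by omega)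
      (fun v hv => List.mem_cons_of_mem _ (h1 v (List.mem_cons_of_mem _ hv))) List.mem_cons_self
    refine ((c1.cut c2).cut c3).le ?_
    rw [List.length_map, List.length_cons]
    have e1 : k1 * (U.length + 1) ≤ k1 * (N + 1) := Nat.mul_le_mul_left _ (by omega)
    have e2 : k2 ≤ k2 * (N + 1) := Nat.le_mul_of_pos_right _ (by omega)
    have e3 : (U.length + 1) * ((k1 + k2 * 2) * (N + 1)) =
      U.length * ((k1 + k2 * 2) * (N + 1)) + (k1 * (N + 1) + k2 * (N + 1) + k2 * (N + 1)) := by
      ring
    omega

theorem comb (hF : IsFrege F) : ∃ k : ℕ, ∀ (M N : ℕ) (A : Fm) (U : List Nm), k * N ≤ M →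
    (∀ u ∈ U, u ∉ A.vars) →
    ∀ (Z : List Nm) (π : List Fm), Z.Nodup → (∀ z ∈ Z, z ∉ A.vars ∧ z ∉ U) →
    6 * U.length + 3 * Z.length + sz A + 7 ≤ N →
    imps (Z.map (lit false)) A ∈ π → imps (U.map (lit true)) A ∈ π →
    Can F true M π (Z.length * (k * (N + 1) ^ 2)) A := by
  obtain ⟨k1, hk1⟩ := rename hF
  obtain ⟨k2, hk2⟩ := weaken hF
  obtain ⟨k3, hk3⟩ := elimU hF
  refine ⟨k1 * 3 + k2 * 2 + k3, ?_⟩
  intro M N A U hM hU Z
  have hA := sz_pos A
  induction Z with
  | nil => intro π _ _ _ h _; exact can_mem h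
  | cons z Z ih =>
    intro π hn hz hN h1 h2
    rw [List.length_cons] at hN
    rw [List.nodup_cons] at hn
    have hlZ := hsz_lit_map false Z
    have hlU := hsz_lit_map true U
    set X := imps (Z.map (lit false)) A with hX
    have hXs : sz X ≤ 3 * Z.length + sz A := by rw [hX, sz_imps]; omega
    have hXv : ∀ y ∈ X.vars, y ∈ Z ∨ y ∈ A.vars := by
      intro y hy
      rcases vars_imps hy with ⟨a, ha, hy⟩ | hy
      · obtain ⟨z', hz', rfl⟩ := List.mem_map.1 ha
        rw [vars_lit hy]
        exact Or.inl hz'
      · exact Or.inr hy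
    have hzX : z ∉ X.vars := by
      intro h
      rcases hXv z h with h | h
      · exact hn.1 h
      · exact (hz z List.mem_cons_self).1 h
    have hline : imp (neg (var z)) X ∈ π := h1
    have c1 : ∀ B ∈ U.map (fun u => imp (neg (var u)) X), Can F true M π (k1 * 3) B := by
      intro B hB
      obtain ⟨u, hu, rfl⟩ := List.mem_map.1 hB
      have huX : u ∉ X.vars := by
        intro h
        rcases hXv u h with h | h
        · exact (hz u (List.mem_cons_of_mem _ h)).2 hu
        · exact hU u hu h
      have h3 := hk1 M π [z, u] (imp (neg (var z)) X) (Equiv.swap z u) (by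
        refine bud (c := 1) hM (by omega) ?_
        simp only [sz, List.length_cons, List.length_nil]
        omega) (by
        intro y hy
        left
        by_contra hcon
        simp only [List.mem_cons, List.not_mem_nil, or_false, not_or] at hcon
        exact hy (Equiv.swap_apply_of_ne_of_ne hcon.1 hcon.2)) hline
      have h4 : (imp (neg (var z)) X).subst (fun w => var (Equiv.swap z u w)) =
          imp (neg (var u)) X := by
        have h5 : X.subst (fun w => var (Equiv.swap z u w)) = X := rn_fresh hzX huX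
        simp only [Fm.subst, h5, Equiv.swap_apply_left]
      rw [h4] at h3
      exact h3
    have c2 : Can F true M (U.map (fun u => imp (neg (var u)) X) ++ π)
        (k2 * ((U.map (lit true) ++ Z.map (lit false)).length + 1) *
          ((U.map (lit true)).length + 1)) (imps (U.map (lit true)) X) := by
      have := hk2 true M (U.map (fun u => imp (neg (var u)) X) ++ π)
        (U.map (lit true) ++ Z.map (lit false)) (U.map (lit true)) A
        (bud (c := 1) hM (by omega) (by rw [hsz_append]; omega))
        (fun h hh => List.mem_append_left _ hh) (List.mem_append_right _ h2)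
      rw [imps_append] at this
      exact this
    have c3 : Can F true M (imps (U.map (lit true)) X ::
        (U.map (fun u => imp (neg (var u)) X) ++ π)) (U.length * (k3 * (N + 1))) X := by
      refine hk3 true M N X (le_trans (Nat.mul_le_mul_right _ (by omega)) hM) U _ (by omega) ?_
        List.mem_cons_self
      intro u hu
      exact List.mem_cons_of_mem _ (List.mem_append_left _
        (List.mem_map_of_mem (f := fun u => imp (neg (var u)) X) hu))
    have c4 := can_cuts _ c1 (c2.cut c3)
    have c5 := ih (X :: π) hn.2 (fun z' hz' => hz z' (List.mem_cons_of_mem _ hz')) (by omega)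
      List.mem_cons_self (List.mem_cons_of_mem _ h2)
    refine (c4.cut c5).le ?_
    simp only [List.length_map, List.length_append, List.length_cons]
    set n := N + 1 with hnn
    have e1 : U.length * (k1 * 3) ≤ k1 * 3 * n ^ 2 := by
      calc U.length * (k1 * 3) ≤ n * (k1 * 3) := Nat.mul_le_mul_right _ (by omega)
        _ = k1 * 3 * n ^ 1 := by ring
        _ ≤ k1 * 3 * n ^ 2 := by gcongr <;> omega
    have e2 : k2 * (U.length + Z.length + 1) * (U.length + 1) ≤ k2 * n ^ 2 := by
      calc _ ≤ k2 * n * n := by gcongr <;> omega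
        _ = k2 * n ^ 2 := by ring
    have e3 : U.length * (k3 * n) ≤ k3 * n ^ 2 := by
      calc U.length * (k3 * n) ≤ n * (k3 * n) := Nat.mul_le_mul_right _ (by omega)
        _ = k3 * n ^ 2 := by ring
    have e4 : (Z.length + 1) * ((k1 * 3 + k2 * 2 + k3) * n ^ 2) =
        (k1 * 3 * n ^ 2 + k2 * n ^ 2 + k2 * n ^ 2 + k3 * n ^ 2) +
          Z.length * ((k1 * 3 + k2 * 2 + k3) * n ^ 2) := by ring
    omega

end Pool.Agent.H.MP_0447ec_lc.SE
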