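import Pool.Agent.H.MP_0447ec_lc.SE.Calc

/-!
# Contexts, renaming, replacement
-/

namespace Pool.Agent.H.MP_0447ec_lc.SE

open Pool.Agent.H.MP_0447ec_lc.PS Pool.Agent.H.MP_0447ec_lc.PS.Fm

variable {F : List Rule}

theorem intro_chain (hF : IsFrege F) : ∃ k : ℕ, ∀ (b : Bool) (M : ℕ) (π : List Fm) (H : List Fm)
    (X : Fm), k * (hsz H + sz X) ≤ M → Can F b M π (k * (H.length + 1)) (imp X (imps H X)) := by
  obtain ⟨k, hk⟩ := exists_rule' hF [] (imp (vv 0) (vv 0)) (by
    intro v hv; simp [Fm.Eval, vv] at hv ⊢)
  obtain ⟨k', hk'⟩ := exists_rule' hF [imp (vv 0) (vv 1)] (imp (vv 0) (imp (vv 2) (vv 1))) (by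
    intro v hv; simp [Fm.Eval, vv] at hv ⊢; tauto)
  refine ⟨k * 2 + k' * 4, ?_⟩
  intro b M π H X hM
  have hX := sz_pos X
  induction H with
  | nil =>
    have h1 : Can F b M π k (imp X X) := by
      refine hk b M _ [X] ?_ (by simp)
      refine bud (c := 2) hM (by omega) ?_
      simp; omega
    refine h1.le ?_
    simp; omega
  | cons h H ih =>
    have h1 : (k * 2 + k' * 4) * (hsz H + sz X) ≤ M := by
      refine le_trans (Nat.mul_le_mul_left _ ?_) hM
      simp
    have h2 := ih h1
    have h3 : Can F b M (imp X (imps H X) :: π) k' (imp X (imps (h :: H) X)) := by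
      refine hk' b M _ [X, imps H X, h] ?_ ?_
      · refine bud (c := 4) hM (by omega) ?_
        simp [sz_imps]
        omega
      · intro Q hQ
        simp only [List.mem_singleton] at hQ
        subst hQ
        exact List.mem_cons_self
    refine (h2.cut h3).le ?_
    simp only [List.length_cons]
    nlinarith

theorem hypo (hF : IsFrege F) : ∃ k : ℕ, ∀ (b : Bool) (M : ℕ) (π : List Fm) (H : List Fm)
    (h : Fm), k * hsz H ≤ M → h ∈ H → Can F b M π (k * (H.length + 1)) (imps H h) := by
  obtain ⟨k, hk⟩ := intro_chain hF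
  obtain ⟨k', hk'⟩ := exists_rule' hF [vv 1] (imp (vv 0) (vv 1)) (by
    intro v hv; simp [Fm.Eval, vv] at hv ⊢; tauto)
  refine ⟨k + k' * 3, ?_⟩
  intro b M π H h hM hh
  induction H with
  | nil => simp at hh
  | cons a H ih =>
    rcases List.mem_cons.1 hh with rfl | hh
    · refine (hk b M π H h ?_).le ?_
      · refine bud (c := 1) hM (by omega) ?_
        simp; omega
      · simp only [List.length_cons]; nlinarith
    · have h1 : (k + k' * 3) * hsz H ≤ M := by
        refine le_trans (Nat.mul_le_mul_left _ ?_) hM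
        simp
      have h2 := ih h1 hh
      have h3 : Can F b M (imps H h :: π) k' (imp a (imps H h)) := by
        refine hk' b M _ [a, imps H h] ?_ ?_
        · refine bud (c := 3) hM (by omega) ?_
          have := sz_le_hsz hh
          simp [sz_imps]
          omega
        · intro Q hQ
          simp only [List.mem_singleton] at hQ
          subst hQ
          exact List.mem_cons_self
      refine (h2.cut h3).le ?_
      simp only [List.length_cons]
      nlinarith

theorem weaken (hF : IsFrege F) : ∃ k : ℕ, ∀ (b : Bool) (M : ℕ) (π : List Fm) (H H' : List Fm)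
    (X : Fm), k * (hsz H + hsz H' + sz X) ≤ M → (∀ h ∈ H', h ∈ H) → imps H' X ∈ π →
    Can F b M π (k * (H.length + 1) * (H'.length + 1)) (imps H X) := by
  obtain ⟨k1, hk1⟩ := nec hF
  obtain ⟨k2, hk2⟩ := hypo hF
  obtain ⟨k3, hk3⟩ := ctx_mps hF
  refine ⟨k1 + k2 + k3, ?_⟩
  intro b M π H H' X hM hH h
  have c1 : Can F b M π (k1 * H.length) (imps H (imps H' X)) := by
    refine hk1 b M π H _ ?_ h
    refine bud (c := 1) hM (by omega) ?_
    rw [sz_imps]; omega
  have c2 : Can F b M (imps H (imps H' X) :: π)
      ((H'.map (imps H)).length * (k2 * (H.length + 1)) + k3 * H'.length * (H.length + 1))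
      (imps H X) := by
    apply can_cuts
    · intro B hB
      obtain ⟨a, ha, rfl⟩ := List.mem_map.1 hB
      exact hk2 b M _ H a (bud (c := 1) hM (by omega) (by omega)) (hH a ha)
    · refine hk3 b M H H' X _ (bud (c := 1) hM (by omega) (by omega)) (by simp) ?_
      intro P hP
      exact List.mem_append_left _ (List.mem_map_of_mem hP)
  refine (c1.cut c2).le ?_
  rw [List.length_map]
  have : k1 * H.length ≤ k1 * (H.length + 1) * (H'.length + 1) := by
    calc k1 * H.length ≤ k1 * (H.length + 1) := Nat.mul_le_mul_left _ (by omega)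
      _ ≤ k1 * (H.length + 1) * (H'.length + 1) := Nat.le_mul_of_pos_right _ (by omega)
  nlinarith

/-! ### Renaming -/

/-- Add trivial conjuncts that mention the variables of `S`. -/
def pad (S : List Nm) (B : Fm) : Fm := S.foldr (fun x C => and C (imp (var x) (var x))) B

theorem pad_cons (x : Nm) (S : List Nm) (B : Fm) :
    pad (x :: S) B = and (pad S B) (imp (var x) (var x)) := rfl

theorem sz_pad (S : List Nm) (B : Fm) : sz (pad S B) = sz B + 4 * S.length := by
  induction S with
  | nil => simp [pad]
  | cons x S ih => rw [pad_cons]; simp [sz, ih]; omega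

theorem pad_vars (S : List Nm) (B : Fm) (x : Nm) (h : x ∈ S ∨ x ∈ B.vars) :
    x ∈ (pad S B).vars := by
  induction S with
  | nil => simpa [pad] using h
  | cons y S ih =>
    rw [pad_cons]
    simp only [Fm.vars, Set.mem_union, Set.mem_singleton_iff]
    simp only [List.mem_cons] at h
    rcases h with (h | h) | h
    · right; left; exact h
    · left; exact ih (Or.inl h)
    · left; exact ih (Or.inr h)

theorem pad_subst (S : List Nm) (B : Fm) (ρ : Nm → Nm) :
    (pad S B).subst (fun w => var (ρ w)) = pad (S.map ρ) (B.subst (fun w => var (ρ w))) := by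
  induction S with
  | nil => rfl
  | cons x S ih => rw [pad_cons, List.map_cons, pad_cons]; simp only [Fm.subst, ih]

theorem rename (hF : IsFrege F) : ∃ k : ℕ, ∀ (M : ℕ) (π : List Fm) (S : List Nm) (B : Fm)
    (ρ : Equiv.Perm Nm), k * (sz B + S.length) ≤ M → (∀ x, ρ x ≠ x → x ∈ S ∨ x ∈ B.vars) → B ∈ π →
    Can F true M π (k * (S.length + 1)) (B.subst (fun w => var (ρ w))) := by
  obtain ⟨k1, hk1⟩ := exists_rule' hF [vv 0] (and (vv 0) (imp (vv 1) (vv 1))) (by
    intro v hv; simp [Fm.Eval, vv] at hv ⊢; tauto)
  obtain ⟨k2, hk2⟩ := exists_rule' hF [and (vv 0) (vv 1)] (vv 0) (by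
    intro v hv; simp [Fm.Eval, vv] at hv ⊢; tauto)
  refine ⟨k1 * 5 + k2 * 8 + 5, ?_⟩
  intro M π S B ρ hM hS hB
  have hB1 := sz_pos B
  have c1 : Can F true M π (k1 * S.length) (pad S B) := by
    have key : ∀ S' : List Nm, (k1 * 5 + k2 * 8 + 5) * (sz B + S'.length) ≤ M →
        Can F true M π (k1 * S'.length) (pad S' B) := by
      intro S'
      induction S' with
      | nil => intro _; exact can_mem hB
      | cons x S' ih =>
        intro hM
        have h1 := ih (by
          refine le_trans (Nat.mul_le_mul_left _ ?_) hM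
          simp)
        have h2 : Can F true M (pad S' B :: π) k1 (pad (x :: S') B) := by
          refine hk1 true M _ [pad S' B, var x] ?_ ?_
          · refine bud (c := 5) hM (by omega) ?_
            simp [sz_pad, sz]
            omega
          · intro Q hQ
            simp only [List.mem_singleton] at hQ
            subst hQ
            exact List.mem_cons_self
        refine (h1.cut h2).le ?_
        simp only [List.length_cons]
        nlinarith
    exact key S hM
  have c2 : Can F true M (pad S B :: π) 1 ((pad S B).subst (fun w => var (ρ w))) := by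
    refine ⟨[(pad S B).subst (fun w => var (ρ w))], ⟨Or.inr ?_, trivial⟩, ?_, by simp, ?_⟩
    · right
      refine ⟨pad S B, List.mem_cons_self, ρ, ?_, rfl⟩
      intro x hx
      by_contra h
      exact hx (pad_vars _ _ _ (hS x h))
    · simp
    · intro C hC
      simp only [List.mem_singleton] at hC
      subst hC
      have h1 : sz ((pad S B).subst (fun w => var (ρ w))) ≤ sz (pad S B) * 1 :=
        sz_subst le_rfl (fun x _ => by simp [sz])
      rw [sz_pad] at h1
      have h2 : 1 * (sz B + 4 * S.length) ≤ M := bud (c := 4) hM (by omega) (by omega)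
      omega
  rw [pad_subst] at c2
  have c3 : ∀ (T : List Nm) (B' : Fm) (π' : List Fm),
      (k1 * 5 + k2 * 8 + 5) * (sz B' + T.length) ≤ M → pad T B' ∈ π' →
      Can F true M π' (k2 * T.length) B' := by
    intro T B'
    have hB1 := sz_pos B'
    induction T with
    | nil => intro π' _ h; exact can_mem h
    | cons x T ih =>
      intro π' hM h
      have h1 : Can F true M π' k2 (pad T B') := by
        refine hk2 true M _ [pad T B', imp (var x) (var x)] ?_ ?_
        · refine bud (c := 8) hM (by omega) ?_
          simp [sz_pad, sz]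
          omega
        · intro Q hQ
          simp only [List.mem_singleton] at hQ
          subst hQ
          exact h
      have h2 := ih (pad T B' :: π') (by
          refine le_trans (Nat.mul_le_mul_left _ ?_) hM
          simp) List.mem_cons_self
      refine (h1.cut h2).le ?_
      simp only [List.length_cons]
      nlinarith
  have hsB : sz (B.subst (fun w => var (ρ w))) ≤ sz B * 1 :=
        sz_subst le_rfl (fun x _ => by simp [sz])
  have c4 := c3 (S.map ρ) (B.subst (fun w => var (ρ w)))
    (pad (S.map ρ) (B.subst (fun w => var (ρ w))) :: π) (by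
      refine le_trans (Nat.mul_le_mul_left _ ?_) hM
      rw [List.length_map]; omega) List.mem_cons_self
  rw [List.length_map] at c4
  refine ((c1.cut c2).cut c4).le ?_
  nlinarith

/-! ### Replacement -/

theorem repl (hF : IsFrege F) : ∃ k : ℕ, ∀ (b : Bool) (M N : ℕ) (H : List Fm) (s t : Nm → Fm),
    k * N ≤ M → ∀ (φ : Fm) (π : List Fm), hsz H + sz (φ.subst s) + sz (φ.subst t) ≤ N →
    (∀ x ∈ φ.vars, imps H (Fm.iff (s x) (t x)) ∈ π) →
    Can F b M π (k * sz φ * (H.length + 1)) (imps H (Fm.iff (φ.subst s) (φ.subst t))) := by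
  obtain ⟨k1, hk1⟩ := ctx_rule hF [Fm.iff (vv 0) (vv 1)] (Fm.iff (neg (vv 0)) (neg (vv 1))) (by
    intro v hv; simp [Fm.Eval, Fm.iff, vv] at hv ⊢; tauto)
  obtain ⟨k2, hk2⟩ := ctx_rule hF [Fm.iff (vv 0) (vv 1), Fm.iff (vv 2) (vv 3)]
    (Fm.iff (and (vv 0) (vv 2)) (and (vv 1) (vv 3))) (by
    intro v hv; simp [Fm.Eval, Fm.iff, vv] at hv ⊢; tauto)
  obtain ⟨k3, hk3⟩ := ctx_rule hF [Fm.iff (vv 0) (vv 1), Fm.iff (vv 2) (vv 3)]
    (Fm.iff (or (vv 0) (vv 2)) (or (vv 1) (vv 3))) (by
    intro v hv; simp [Fm.Eval, Fm.iff, vv] at hv ⊢; tauto)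
  obtain ⟨k4, hk4⟩ := ctx_rule hF [Fm.iff (vv 0) (vv 1), Fm.iff (vv 2) (vv 3)]
    (Fm.iff (imp (vv 0) (vv 2)) (imp (vv 1) (vv 3))) (by
    intro v hv; simp [Fm.Eval, Fm.iff, vv] at hv ⊢; tauto)
  refine ⟨(k1 + k2 + k3 + k4) * 2, ?_⟩
  intro b M N H s t hM φ
  induction φ with
  | var x => intro π _ h; exact can_mem (h x rfl)
  | neg A ih =>
    intro π hN h
    simp only [Fm.subst, sz] at hN
    have c1 := ih π (by omega) h
    have c2 : Can F b M (imps H (Fm.iff (A.subst s) (A.subst t)) :: π) (k1 * (H.length + 1))
        (imps H (Fm.iff ((neg A).subst s) ((neg A).subst t))) := by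
      refine hk1 b M _ H [A.subst s, A.subst t] ?_ ?_
      · refine bud (c := 2) hM (by omega) ?_
        simp
        omega
      · intro Q hQ
        simp only [List.mem_singleton] at hQ
        subst hQ
        exact List.mem_cons_self
    refine (c1.cut c2).le ?_
    simp only [sz]
    have : k1 * (H.length + 1) ≤ (k1 + k2 + k3 + k4) * 2 * (H.length + 1) :=
      Nat.mul_le_mul_right _ (by omega)
    nlinarith
  | and A B ih1 ih2 =>
    intro π hN h
    simp only [Fm.subst, sz] at hN
    have c1 := ih1 π (by omega) (fun x hx => h x (Or.inl hx))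
    have c2 := ih2 (imps H (Fm.iff (A.subst s) (A.subst t)) :: π) (by omega)
      (fun x hx => List.mem_cons_of_mem _ (h x (Or.inr hx)))
    have c3 : Can F b M (imps H (Fm.iff (B.subst s) (B.subst t)) ::
        imps H (Fm.iff (A.subst s) (A.subst t)) :: π) (k2 * (H.length + 1))
        (imps H (Fm.iff ((and A B).subst s) ((and A B).subst t))) := by
      refine hk2 b M _ H [A.subst s, A.subst t, B.subst s, B.subst t] ?_ ?_
      · refine bud (c := 2) hM (by omega) ?_
        simp
        omega
      · intro Q hQ
        simp only [List.mem_cons, List.not_mem_nil, or_false] at hQ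
        rcases hQ with rfl | rfl
        · exact List.mem_cons_of_mem _ List.mem_cons_self
        · exact List.mem_cons_self
    refine (c1.cut (c2.cut c3)).le ?_
    simp only [sz]
    have : k2 * (H.length + 1) ≤ (k1 + k2 + k3 + k4) * 2 * (H.length + 1) :=
      Nat.mul_le_mul_right _ (by omega)
    nlinarith
  | or A B ih1 ih2 =>
    intro π hN h
    simp only [Fm.subst, sz] at hN
    have c1 := ih1 π (by omega) (fun x hx => h x (Or.inl hx))
    have c2 := ih2 (imps H (Fm.iff (A.subst s) (A.subst t)) :: π) (by omega)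
      (fun x hx => List.mem_cons_of_mem _ (h x (Or.inr hx)))
    have c3 : Can F b M (imps H (Fm.iff (B.subst s) (B.subst t)) ::
        imps H (Fm.iff (A.subst s) (A.subst t)) :: π) (k3 * (H.length + 1))
        (imps H (Fm.iff ((or A B).subst s) ((or A B).subst t))) := by
      refine hk3 b M _ H [A.subst s, A.subst t, B.subst s, B.subst t] ?_ ?_
      · refine bud (c := 2) hM (by omega) ?_
        simp
        omega
      · intro Q hQ
        simp only [List.mem_cons, List.not_mem_nil, or_false] at hQ
        rcases hQ with rfl | rfl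
        · exact List.mem_cons_of_mem _ List.mem_cons_self
        · exact List.mem_cons_self
    refine (c1.cut (c2.cut c3)).le ?_
    simp only [sz]
    have : k3 * (H.length + 1) ≤ (k1 + k2 + k3 + k4) * 2 * (H.length + 1) :=
      Nat.mul_le_mul_right _ (by omega)
    nlinarith
  | imp A B ih1 ih2 =>
    intro π hN h
    simp only [Fm.subst, sz] at hN
    have c1 := ih1 π (by omega) (fun x hx => h x (Or.inl hx))
    have c2 := ih2 (imps H (Fm.iff (A.subst s) (A.subst t)) :: π) (by omega)
      (fun x hx => List.mem_cons_of_mem _ (h x (Or.inr hx)))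
    have c3 : Can F b M (imps H (Fm.iff (B.subst s) (B.subst t)) ::
        imps H (Fm.iff (A.subst s) (A.subst t)) :: π) (k4 * (H.length + 1))
        (imps H (Fm.iff ((imp A B).subst s) ((imp A B).subst t))) := by
      refine hk4 b M _ H [A.subst s, A.subst t, B.subst s, B.subst t] ?_ ?_
      · refine bud (c := 2) hM (by omega) ?_
        simp
        omega
      · intro Q hQ
        simp only [List.mem_cons, List.not_mem_nil, or_false] at hQ
        rcases hQ with rfl | rfl
        · exact List.mem_cons_of_mem _ List.mem_cons_self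
        · exact List.mem_cons_self
    refine (c1.cut (c2.cut c3)).le ?_
    simp only [sz]
    have : k4 * (H.length + 1) ≤ (k1 + k2 + k3 + k4) * 2 * (H.length + 1) :=
      Nat.mul_le_mul_right _ (by omega)
    nlinarith

end Pool.Agent.H.MP_0447ec_lc.SE
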