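import Pool.Agent.H.MP_0447ec_lc.SE.JLine

/-!
# Evaluation under a total assignment; the decision tree
-/

namespace Pool.Agent.H.MP_0447ec_lc.SE

open Pool.Agent.H.MP_0447ec_lc.PS Pool.Agent.H.MP_0447ec_lc.PS.Fm

variable {F : List Rule}

/-- Boolean evaluation. -/
def ev (a : Nm → Bool) : Fm → Bool
  | .var w => a w
  | .neg A => !(ev a A)
  | .and A B => ev a A && ev a B
  | .or A B => ev a A || ev a B
  | .imp A B => !(ev a A) || ev a B

theorem ev_iff (a : Nm → Bool) (A : Fm) : A.Eval (fun x => a x = true) ↔ ev a A = true := by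
  induction A with
  | var w => rfl
  | neg A ih => simp [Fm.Eval, ev, ih]
  | and A B ih1 ih2 => simp [Fm.Eval, ev, ih1, ih2]
  | or A B ih1 ih2 => simp [Fm.Eval, ev, ih1, ih2]
  | imp A B ih1 ih2 =>
    simp only [Fm.Eval, ev, ih1, ih2, Bool.or_eq_true, Bool.not_eq_true']
    cases ev a A <;> cases ev a B <;> simp

/-- A formula with a sign. -/
def sg (A : Fm) : Bool → Fm
  | true => A
  | false => neg A

theorem sz_sg (A : Fm) (b : Bool) : sz (sg A b) ≤ sz A + 1 := by cases b <;> simp [sg, sz]

theorem kal_bin (hF : IsFrege F) (op : Fm → Fm → Fm) (bop : Bool → Bool → Bool)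
    (h : ∀ (v : Nm → Prop) (A B : Fm) (p q : Bool), (sg A p).Eval v → (sg B q).Eval v →
      (sg (op A B) (bop p q)).Eval v)
    (hs : ∀ (A B : Fm) (s : Nm → Fm), (op A B).subst s = op (A.subst s) (B.subst s)) :
    ∃ k : ℕ, ∀ (b : Bool) (M : ℕ) (π : List Fm) (H : List Fm) (A B : Fm) (p q : Bool),
      k * (hsz H + sz A + sz B + 1) ≤ M → imps H (sg A p) ∈ π → imps H (sg B q) ∈ π →
      Can F b M π (k * (H.length + 1)) (imps H (sg (op A B) (bop p q))) := by
  have hsg : ∀ (A : Fm) (p : Bool) (s : Nm → Fm), (sg A p).subst s = sg (A.subst s) p := by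
    intro A p s; cases p <;> rfl
  have key : ∀ p : Bool × Bool, ∃ k : ℕ, ∀ (b : Bool) (M : ℕ) (π : List Fm) (H : List Fm)
      (l : List Fm), k * (hsz H + (l.map sz).sum + 1) ≤ M →
      (∀ P ∈ [sg (vv 0) p.1, sg (vv 1) p.2], imps H (P.subst (sl l)) ∈ π) →
      Can F b M π (k * (H.length + 1))
        (imps H ((sg (op (vv 0) (vv 1)) (bop p.1 p.2)).subst (sl l))) := by
    intro p
    apply ctx_rule hF
    intro v hv
    exact h v _ _ _ _ (hv _ (by simp)) (hv _ (by simp))
  choose kf hkf using key
  refine ⟨kf (true, true) + kf (true, false) + kf (false, true) + kf (false, false), ?_⟩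
  intro b M π H A B p q hM hA hB
  have hle : kf (p, q) ≤ kf (true, true) + kf (true, false) + kf (false, true) +
      kf (false, false) := by
    cases p <;> cases q <;> omega
  have h1 := hkf (p, q) b M π H [A, B] (bud (c := 1) hM (by omega) (by
      simp only [List.map_cons, List.map_nil, List.sum_cons, List.sum_nil]; omega)) (by
    intro P hP
    simp only [List.mem_cons, List.not_mem_nil, or_false] at hP
    rcases hP with rfl | rfl
    · rw [hsg]; exact hA
    · rw [hsg]; exact hB)
  rw [hsg, hs] at h1
  exact h1.le (Nat.mul_le_mul_right _ hle)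

theorem kal_neg (hF : IsFrege F) : ∃ k : ℕ, ∀ (b : Bool) (M : ℕ) (π : List Fm) (H : List Fm)
    (A : Fm) (p : Bool), k * (hsz H + sz A + 1) ≤ M → imps H (sg A p) ∈ π →
      Can F b M π (k * (H.length + 1)) (imps H (sg (neg A) (!p))) := by
  obtain ⟨k1, hk1⟩ := ctx_rule hF [vv 0] (neg (neg (vv 0))) (by
    intro v hv; simp [Fm.Eval, vv] at hv ⊢; tauto)
  refine ⟨k1, ?_⟩
  intro b M π H A p hM hA
  cases p with
  | true =>
    refine hk1 b M π H [A] (bud (c := 1) hM (by omega) (by
      simp only [List.map_cons, List.map_nil, List.sum_cons, List.sum_nil]; omega)) ?_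
    intro P hP
    rw [List.mem_singleton] at hP
    subst hP
    exact hA
  | false => exact can_mem hA

theorem kalmar (hF : IsFrege F) : ∃ k : ℕ, ∀ (b : Bool) (M N : ℕ) (H : List Fm)
    (a : Nm → Bool) (π : List Fm), k * N ≤ M → ∀ φ : Fm, hsz H + sz φ + 1 ≤ N →
    (∀ x ∈ φ.vars, lit (a x) x ∈ H) →
    Can F b M π (k * sz φ * (H.length + 1)) (imps H (sg φ (ev a φ))) := by
  obtain ⟨k1, hk1⟩ := hypo hF
  obtain ⟨k2, hk2⟩ := kal_neg hF
  obtain ⟨k3, hk3⟩ := kal_bin hF Fm.and (fun p q => p && q) (by
    intro v A B p q h1 h2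
    cases p <;> cases q <;> simp only [sg, Fm.Eval, Bool.and_true, Bool.and_false] at h1 h2 ⊢ <;>
      tauto) (fun _ _ _ => rfl)
  obtain ⟨k4, hk4⟩ := kal_bin hF Fm.or (fun p q => p || q) (by
    intro v A B p q h1 h2
    cases p <;> cases q <;> simp only [sg, Fm.Eval, Bool.or_true, Bool.or_false] at h1 h2 ⊢ <;>
      tauto) (fun _ _ _ => rfl)
  obtain ⟨k5, hk5⟩ := kal_bin hF Fm.imp (fun p q => !p || q) (by
    intro v A B p q h1 h2
    cases p <;> cases q <;> simp only [sg, Fm.Eval, Bool.not_true, Bool.not_false, Bool.or_true,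
      Bool.or_false] at h1 h2 ⊢ <;>
      tauto) (fun _ _ _ => rfl)
  refine ⟨k1 + k2 + k3 + k4 + k5, ?_⟩
  intro b M N H a π hM φ
  induction φ with
  | var x =>
    intro hN h
    have h1 := hk1 b M π H (lit (a x) x) (bud (c := 1) hM (by omega) (by omega)) (h x rfl)
    have e : sg (var x) (ev a (var x)) = lit (a x) x := by
      unfold ev
      cases a x <;> rfl
    rw [e]
    refine h1.le (Nat.mul_le_mul_right _ ?_)
    simp [sz]; omega
  | neg A ih =>
    intro hN h
    simp only [sz] at hN
    have c1 := ih (by omega) h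
    have c2 := hk2 b M (imps H (sg A (ev a A)) :: π) H A (ev a A)
      (bud (c := 1) hM (by omega) (by omega)) List.mem_cons_self
    refine (c1.cut c2).le ?_
    simp only [sz]
    have : k2 * (H.length + 1) ≤ (k1 + k2 + k3 + k4 + k5) * (H.length + 1) :=
      Nat.mul_le_mul_right _ (by omega)
    nlinarith
  | and A B ih1 ih2 =>
    intro hN h
    simp only [sz] at hN
    have c1 := ih1 (by omega) (fun x hx => h x (Or.inl hx))
    have c2 := (ih2 (by omega) (fun x hx => h x (Or.inr hx))).wk (C := imps H (sg A (ev a A)))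
    have c3 := hk3 b M (imps H (sg B (ev a B)) :: imps H (sg A (ev a A)) :: π) H A B (ev a A)
      (ev a B) (bud (c := 1) hM (by omega) (by omega))
      (List.mem_cons_of_mem _ List.mem_cons_self) List.mem_cons_self
    refine (c1.cut (c2.cut c3)).le ?_
    simp only [sz]
    have : k3 * (H.length + 1) ≤ (k1 + k2 + k3 + k4 + k5) * (H.length + 1) :=
      Nat.mul_le_mul_right _ (by omega)
    nlinarith
  | or A B ih1 ih2 =>
    intro hN h
    simp only [sz] at hN
    have c1 := ih1 (by omega) (fun x hx => h x (Or.inl hx))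
    have c2 := (ih2 (by omega) (fun x hx => h x (Or.inr hx))).wk (C := imps H (sg A (ev a A)))
    have c3 := hk4 b M (imps H (sg B (ev a B)) :: imps H (sg A (ev a A)) :: π) H A B (ev a A)
      (ev a B) (bud (c := 1) hM (by omega) (by omega))
      (List.mem_cons_of_mem _ List.mem_cons_self) List.mem_cons_self
    refine (c1.cut (c2.cut c3)).le ?_
    simp only [sz]
    have : k4 * (H.length + 1) ≤ (k1 + k2 + k3 + k4 + k5) * (H.length + 1) :=
      Nat.mul_le_mul_right _ (by omega)
    nlinarith
  | imp A B ih1 ih2 =>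
    intro hN h
    simp only [sz] at hN
    have c1 := ih1 (by omega) (fun x hx => h x (Or.inl hx))
    have c2 := (ih2 (by omega) (fun x hx => h x (Or.inr hx))).wk (C := imps H (sg A (ev a A)))
    have c3 := hk5 b M (imps H (sg B (ev a B)) :: imps H (sg A (ev a A)) :: π) H A B (ev a A)
      (ev a B) (bud (c := 1) hM (by omega) (by omega))
      (List.mem_cons_of_mem _ List.mem_cons_self) List.mem_cons_self
    refine (c1.cut (c2.cut c3)).le ?_
    simp only [sz]
    have : k5 * (H.length + 1) ≤ (k1 + k2 + k3 + k4 + k5) * (H.length + 1) :=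
      Nat.mul_le_mul_right _ (by omega)
    nlinarith

/-! ### The decision tree -/

/-- The literals of a partial assignment. -/
def lits (D : List (Nm × Bool)) : List Fm := D.map (fun p => lit p.2 p.1)

theorem lits_append (D D' : List (Nm × Bool)) : lits (D ++ D') = lits D ++ lits D' := by
  simp [lits]

theorem hsz_lits' (D : List (Nm × Bool)) : hsz (lits D) ≤ 3 * D.length := by
  induction D with
  | nil => simp [lits]
  | cons p D ih =>
    have := sz_lit p.2 p.1
    have h : lits (p :: D) = lit p.2 p.1 :: lits D := rfl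
    rw [h, hsz_cons, List.length_cons]
    omega

/-- The number of variables with the value `β`. -/
def cnt (β : Bool) (D : List (Nm × Bool)) : ℕ := (D.filter (fun p => p.2 == β)).length

theorem cnt_append (β : Bool) (D D' : List (Nm × Bool)) :
    cnt β (D ++ D') = cnt β D + cnt β D' := by
  simp [cnt, List.filter_append]

theorem dtree (hF : IsFrege F) : ∃ k : ℕ, ∀ (M N Bj : ℕ) (A : Fm) (w : ℕ) (β : Bool)
    (bg : List Fm) (π : List Fm), (∀ v, A.Eval v) → k * N ≤ M →
    (∀ J : List Nm, J.Nodup → J.length = w → (∀ x ∈ J, x ∈ A.vars) →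
      Can F true M π Bj (imps (bg ++ J.map (lit β)) A)) →
    ∀ (R : List Nm) (D : List (Nm × Bool)), (D.map Prod.fst ++ R).Nodup →
      (∀ x ∈ D.map Prod.fst ++ R, x ∈ A.vars) → (∀ x ∈ A.vars, x ∈ D.map Prod.fst ++ R) →
      cnt β D ≤ w → 2 * hsz bg + 6 * (D.length + R.length) + sz A + 6 ≤ N →
      Can F true M π ((Bj + k * (N + 1) ^ 2) * (2 * (R.length + 1) ^ (w - cnt β D) - 1))
        (imps (bg ++ lits D) A) := by
  obtain ⟨k1, hk1⟩ := weaken hF
  obtain ⟨k2, hk2⟩ := kalmar hF
  obtain ⟨k3, hk3⟩ := ctx_rule hF [imp (vv 0) (vv 1), imp (neg (vv 0)) (vv 1)] (vv 1) (by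
    intro v hv; simp [Fm.Eval, vv] at hv ⊢; tauto)
  refine ⟨k1 + k2 + k3, ?_⟩
  intro M N Bj A w β bg π hval hM hJ R
  set n := N + 1 with hn
  have hn1 : 1 ≤ n := by omega
  have hA := sz_pos A
  induction R with
  | nil =>
    intro D hD1 hD2 hD3 hcnt hN
    simp only [List.append_nil] at hD1 hD2 hD3
    simp only [List.length_nil] at hN
    have hD' := hsz_lits' D
    have hH1 : hsz (bg ++ lits D) ≤ hsz bg + 3 * D.length := by rw [hsz_append]; omega
    have hlen := length_le_hsz (bg ++ lits D)
    have h1 : Can F true M π (k2 * sz A * ((bg ++ lits D).length + 1))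
        (imps (bg ++ lits D) A) := by
      set a : Nm → Bool := fun x => decide ((x, true) ∈ D) with ha
      have h2 := hk2 true M N (bg ++ lits D) a π (le_trans (Nat.mul_le_mul_right _ (by omega)) hM)
        A (by omega) (by
        intro x hx
        refine List.mem_append_right _ ?_
        by_cases hxt : (x, true) ∈ D
        · have : a x = true := by rw [ha]; simp [hxt]
          rw [this]
          exact List.mem_map_of_mem (f := fun p : Nm × Bool => lit p.2 p.1) hxt
        · have h3 : a x = false := by rw [ha]; simp [hxt]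
          rw [h3]
          obtain ⟨p, hp, hpx⟩ := List.mem_map.1 (hD3 x hx)
          obtain ⟨y, b⟩ := p
          simp only at hpx
          subst hpx
          cases b with
          | true => exact absurd hp hxt
          | false => exact List.mem_map_of_mem (f := fun p : Nm × Bool => lit p.2 p.1) hp)
      rw [(ev_iff a A).1 (hval _)] at h2
      exact h2
    refine h1.le ?_
    simp only [List.length_nil, zero_add, one_pow]
    calc k2 * sz A * ((bg ++ lits D).length + 1) ≤ k2 * n * n := by gcongr <;> omega
      _ = k2 * n ^ 2 := by ring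
      _ ≤ (k1 + k2 + k3) * n ^ 2 := Nat.mul_le_mul_right _ (by omega)
      _ ≤ (Bj + (k1 + k2 + k3) * n ^ 2) * (2 * 1 - 1) := by omega
  | cons x R ih =>
    intro D hD1 hD2 hD3 hcnt hN
    simp only [List.length_cons] at hN ⊢
    have hD' := hsz_lits' D
    have hH1 : hsz (bg ++ lits D) ≤ hsz bg + 3 * D.length := by rw [hsz_append]; omega
    have hlen := length_le_hsz (bg ++ lits D)
    rcases Nat.eq_or_lt_of_le hcnt with hcw | hcw
    · -- enough tokens
      set J := (D.filter (fun p => p.2 == β)).map Prod.fst with hJdef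
      have hDn : (D.map Prod.fst).Nodup := (List.nodup_append.1 hD1).1
      have hJsub : J.Sublist (D.map Prod.fst) := List.filter_sublist.map _
      have hJn : J.Nodup := hDn.sublist hJsub
      have hJl : J.length = w := by rw [hJdef, List.length_map]; exact hcw
      have hJD : J.length ≤ D.length := by
        rw [hJdef, List.length_map]; exact List.length_filter_le _ _
      have c1 := hJ J hJn hJl (fun y hy => hD2 y (List.mem_append_left _ (hJsub.subset hy)))
      have hJs := hsz_lit_map β J
      have hH2 : hsz (bg ++ J.map (lit β)) ≤ hsz bg + 3 * D.length := by rw [hsz_append]; omega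
      have hlen2 := length_le_hsz (bg ++ J.map (lit β))
      have c2 : Can F true M (imps (bg ++ J.map (lit β)) A :: π)
          (k1 * ((bg ++ lits D).length + 1) * ((bg ++ J.map (lit β)).length + 1))
          (imps (bg ++ lits D) A) := by
        refine hk1 true M _ (bg ++ lits D) (bg ++ J.map (lit β)) A
          (bud (c := 1) hM (by omega) (by omega)) ?_ List.mem_cons_self
        intro h hh
        rcases List.mem_append.1 hh with hh | hh
        · exact List.mem_append_left _ hh
        · refine List.mem_append_right _ ?_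
          obtain ⟨y, hy, rfl⟩ := List.mem_map.1 hh
          obtain ⟨p, hp, rfl⟩ := List.mem_map.1 hy
          rw [List.mem_filter] at hp
          have hpb : p.2 = β := by simpa using hp.2
          rw [← hpb]
          exact List.mem_map_of_mem (f := fun p : Nm × Bool => lit p.2 p.1) hp.1
      refine (c1.cut c2).le ?_
      rw [hcw, Nat.sub_self, pow_zero]
      have : k1 * ((bg ++ lits D).length + 1) * ((bg ++ J.map (lit β)).length + 1) ≤
          (k1 + k2 + k3) * n ^ 2 := by
        calc _ ≤ k1 * n * n := by gcongr <;> omega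
          _ = k1 * n ^ 2 := by ring
          _ ≤ _ := Nat.mul_le_mul_right _ (by omega)
      omega
    · -- branch
      have hrec : ∀ u : Bool, Can F true M π ((Bj + (k1 + k2 + k3) * n ^ 2) *
          (2 * (R.length + 1) ^ (w - cnt β (D ++ [(x, u)])) - 1))
          (imps (bg ++ lits D) (imp (lit u x) A)) := by
        intro u
        have hcu : cnt β [(x, u)] ≤ 1 := by
          unfold cnt
          refine (List.length_filter_le _ _).trans ?_
          simp
        have e1 : (D ++ [(x, u)]).map Prod.fst ++ R = D.map Prod.fst ++ x :: R := by simp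
        have h1 := ih (D ++ [(x, u)]) (by rw [e1]; exact hD1) (by rw [e1]; exact hD2)
          (by rw [e1]; exact hD3) (by rw [cnt_append]; omega) (by
            rw [List.length_append, List.length_singleton]; omega)
        have e2 : imps (bg ++ lits (D ++ [(x, u)])) A = imps (bg ++ lits D) (imp (lit u x) A) := by
          rw [lits_append, ← List.append_assoc, imps_append]
          rfl
        rw [e2] at h1
        exact h1
      have hc1 : cnt β (D ++ [(x, β)]) = cnt β D + 1 := by
        rw [cnt_append]; simp [cnt]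
      have hc2 : cnt β (D ++ [(x, !β)]) = cnt β D := by
        rw [cnt_append]; simp [cnt]
      have r1 := hrec β
      have r2 := hrec (!β)
      rw [hc1] at r1
      rw [hc2] at r2
      have hNode : ∀ π' : List Fm, imps (bg ++ lits D) (imp (lit true x) A) ∈ π' →
          imps (bg ++ lits D) (imp (lit false x) A) ∈ π' →
          Can F true M π' (k3 * ((bg ++ lits D).length + 1)) (imps (bg ++ lits D) A) := by
        intro π' h1 h2
        refine hk3 true M _ _ [var x, A] (bud (c := 1) hM (by omega) ?_) ?_
        · simp [sz]; omega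
        · intro P hP
          simp only [List.mem_cons, List.not_mem_nil, or_false] at hP
          rcases hP with rfl | rfl
          · exact h1
          · exact h2
      have c1 : Can F true M (imps (bg ++ lits D) (imp (lit (!β) x) A) ::
          imps (bg ++ lits D) (imp (lit β x) A) :: π) (k3 * ((bg ++ lits D).length + 1))
          (imps (bg ++ lits D) A) := by
        apply hNode
        · cases β
          · exact List.mem_cons_self
          · exact List.mem_cons_of_mem _ List.mem_cons_self
        · cases β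
          · exact List.mem_cons_of_mem _ List.mem_cons_self
          · exact List.mem_cons_self
      refine (r1.cut (r2.wk.cut c1)).le ?_
      obtain ⟨t', ht'⟩ : ∃ t', w - cnt β D = t' + 1 := ⟨w - cnt β D - 1, by omega⟩
      have ht2 : w - (cnt β D + 1) = t' := by omega
      rw [ht', ht2]
      set r := R.length + 1 with hr
      have hr1 : 1 ≤ r := by omega
      set K := Bj + (k1 + k2 + k3) * n ^ 2 with hK
      have hnode : k3 * ((bg ++ lits D).length + 1) ≤ K := by
        calc k3 * ((bg ++ lits D).length + 1) ≤ k3 * n ^ 1 := by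
              rw [pow_one]; gcongr; omega
          _ ≤ k3 * n ^ 2 := by gcongr <;> omega
          _ ≤ (k1 + k2 + k3) * n ^ 2 := Nat.mul_le_mul_right _ (by omega)
          _ ≤ K := by omega
      have hp1 : 1 ≤ r ^ t' := Nat.one_le_pow _ _ hr1
      have hp2 : r ^ t' ≤ (r + 1) ^ t' := Nat.pow_le_pow_left (by omega) _
      have hp3 : r ^ (t' + 1) = r ^ t' * r := pow_succ _ _
      have hp4 : (r + 1) ^ (t' + 1) = (r + 1) ^ t' * (r + 1) := pow_succ _ _
      have hp5 : r ^ t' * (r + 1) ≤ (r + 1) ^ t' * (r + 1) := Nat.mul_le_mul_right _ hp2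
      have hp6 : r ^ t' * (r + 1) = r ^ t' * r + r ^ t' := by ring
      rw [hp3, hp4]
      have hp7 : 1 ≤ r ^ t' * r := Nat.mul_pos hp1 hr1
      have hfin : K * (2 * r ^ t' - 1) + (K * (2 * (r ^ t' * r) - 1) + K) ≤
          K * (2 * ((r + 1) ^ t' * (r + 1)) - 1) := by
        have e : K * (2 * r ^ t' - 1) + (K * (2 * (r ^ t' * r) - 1) + K) =
            K * ((2 * r ^ t' - 1) + (2 * (r ^ t' * r) - 1) + 1) := by ring
        rw [e]
        exact Nat.mul_le_mul_left _ (by omega)
      omega

end Pool.Agent.H.MP_0447ec_lc.SE
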