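import Pool.Agent.H.MP_0447ec_lc.SE.Ctx

/-!
# Constants, literals, disjunctions; values of coded variables
-/

namespace Pool.Agent.H.MP_0447ec_lc.SE

open Pool.Agent.H.MP_0447ec_lc.PS Pool.Agent.H.MP_0447ec_lc.PS.Fm

variable {F : List Rule}

/-- Truth constants, written with the variable `t`. -/
def cst (t : Nm) : Bool → Fm
  | true => imp (var t) (var t)
  | false => neg (imp (var t) (var t))

/-- Literals. -/
def lit : Bool → Nm → Fm
  | true, x => var x
  | false, x => neg (var x)

/-- Disjunction of a list. -/
def disj (t : Nm) (L : List Fm) : Fm := L.foldr or (cst t false)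

theorem sz_cst (t : Nm) (b : Bool) : sz (cst t b) ≤ 4 := by cases b <;> simp [cst, sz]
theorem sz_lit (b : Bool) (x : Nm) : sz (lit b x) ≤ 2 := by cases b <;> simp [lit, sz]

theorem sz_disj (t : Nm) (L : List Fm) : sz (disj t L) = hsz L + 4 := by
  induction L with
  | nil => simp [disj, cst, sz]
  | cons a L ih =>
    have : disj t (a :: L) = or a (disj t L) := rfl
    rw [this]
    simp [sz, ih]; omega

theorem disj_cons (t : Nm) (a : Fm) (L : List Fm) : disj t (a :: L) = or a (disj t L) := rfl

theorem disj_true (hF : IsFrege F) : ∃ k : ℕ, ∀ (b : Bool) (M : ℕ) (H : List Fm) (t : Nm)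
    (L : List Fm) (X : Fm) (π : List Fm), k * (hsz H + hsz L + 4) ≤ M → X ∈ L → imps H X ∈ π →
    Can F b M π (k * (L.length + 1) * (H.length + 1)) (imps H (Fm.iff (disj t L) (cst t true))) := by
  obtain ⟨k1, hk1⟩ := ctx_rule hF [vv 0] (Fm.iff (or (vv 0) (vv 1)) (imp (vv 2) (vv 2))) (by
    intro v hv; simp [Fm.Eval, Fm.iff, vv] at hv ⊢; tauto)
  obtain ⟨k2, hk2⟩ := ctx_rule hF [Fm.iff (vv 1) (imp (vv 2) (vv 2))]
    (Fm.iff (or (vv 0) (vv 1)) (imp (vv 2) (vv 2))) (by
    intro v hv; simp [Fm.Eval, Fm.iff, vv] at hv ⊢; tauto)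
  refine ⟨(k1 + k2) * 3, ?_⟩
  intro b M H t L X
  induction L with
  | nil => intro π _ h; simp at h
  | cons a L ih =>
    intro π hM hX hπ
    rw [disj_cons]
    rcases List.mem_cons.1 hX with rfl | hX
    · have c : Can F b M π (k1 * (H.length + 1))
          (imps H (Fm.iff (or X (disj t L)) (cst t true))) := by
        refine hk1 b M π H [X, disj t L, var t] ?_ ?_
        · refine bud (c := 3) hM (by omega) ?_
          simp [sz_disj, sz]
          omega
        · intro P hP
          rw [List.mem_singleton] at hP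
          subst hP
          exact hπ
      refine c.le ?_
      simp only [List.length_cons]
      calc k1 * (H.length + 1) ≤ ((k1 + k2) * 3 * (L.length + 1 + 1)) * (H.length + 1) := by
            apply Nat.mul_le_mul_right
            nlinarith
        _ = _ := rfl
    · have c1 := ih π (by
        refine le_trans (Nat.mul_le_mul_left _ ?_) hM
        simp) hX hπ
      have c : Can F b M (imps H (Fm.iff (disj t L) (cst t true)) :: π) (k2 * (H.length + 1))
          (imps H (Fm.iff (or a (disj t L)) (cst t true))) := by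
        refine hk2 b M _ H [a, disj t L, var t] ?_ ?_
        · refine bud (c := 3) hM (by omega) ?_
          simp [sz_disj, sz]
          omega
        · intro P hP
          rw [List.mem_singleton] at hP
          subst hP
          exact List.mem_cons_self
      refine (c1.cut c).le ?_
      simp only [List.length_cons]
      have : (k1 + k2) * 3 * (L.length + 1 + 1) * (H.length + 1) =
        (k1 + k2) * 3 * (L.length + 1) * (H.length + 1) + (k1 + k2) * 3 * (H.length + 1) := by ring
      rw [this]
      have : k2 * (H.length + 1) ≤ (k1 + k2) * 3 * (H.length + 1) :=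
        Nat.mul_le_mul_right _ (by omega)
      omega

theorem disj_false (hF : IsFrege F) : ∃ k : ℕ, ∀ (b : Bool) (M : ℕ) (H : List Fm) (t : Nm)
    (L : List Fm) (π : List Fm), k * (hsz H + hsz L + 4) ≤ M → (∀ X ∈ L, imps H (neg X) ∈ π) →
    Can F b M π (k * (L.length + 1) * (H.length + 1)) (imps H (Fm.iff (disj t L) (cst t false))) := by
  obtain ⟨k1, hk1⟩ := ctx_rule hF [] (Fm.iff (neg (imp (vv 0) (vv 0))) (neg (imp (vv 0) (vv 0)))) (by
    intro v hv; simp [Fm.Eval, Fm.iff, vv])
  obtain ⟨k2, hk2⟩ := ctx_rule hF [neg (vv 0), Fm.iff (vv 1) (neg (imp (vv 2) (vv 2)))]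
    (Fm.iff (or (vv 0) (vv 1)) (neg (imp (vv 2) (vv 2)))) (by
    intro v hv; simp [Fm.Eval, Fm.iff, vv] at hv ⊢; tauto)
  refine ⟨(k1 + k2) * 3, ?_⟩
  intro b M H t L
  induction L with
  | nil =>
    intro π hM _
    have c : Can F b M π (k1 * (H.length + 1))
        (imps H (Fm.iff (disj t []) (cst t false))) := by
      refine hk1 b M π H [var t] ?_ (by simp)
      refine bud (c := 3) hM (by omega) ?_
      simp [sz]
      omega
    refine c.le ?_
    calc k1 * (H.length + 1) ≤ ((k1 + k2) * 3 * (([] : List Fm).length + 1)) * (H.length + 1) := by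
          apply Nat.mul_le_mul_right
          simp
          nlinarith
      _ = _ := rfl
  | cons a L ih =>
    intro π hM hπ
    rw [disj_cons]
    have c1 := ih π (by
      refine le_trans (Nat.mul_le_mul_left _ ?_) hM
      simp) (fun X hX => hπ X (List.mem_cons_of_mem _ hX))
    have c : Can F b M (imps H (Fm.iff (disj t L) (cst t false)) :: π) (k2 * (H.length + 1))
        (imps H (Fm.iff (or a (disj t L)) (cst t false))) := by
      refine hk2 b M _ H [a, disj t L, var t] ?_ ?_
      · refine bud (c := 3) hM (by omega) ?_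
        simp [sz_disj, sz]
        omega
      · intro P hP
        simp only [List.mem_cons, List.not_mem_nil, or_false] at hP
        rcases hP with rfl | rfl
        · exact List.mem_cons_of_mem _ (hπ a List.mem_cons_self)
        · exact List.mem_cons_self
    refine (c1.cut c).le ?_
    simp only [List.length_cons]
    have : (k1 + k2) * 3 * (L.length + 1 + 1) * (H.length + 1) =
      (k1 + k2) * 3 * (L.length + 1) * (H.length + 1) + (k1 + k2) * 3 * (H.length + 1) := by ring
    rw [this]
    have : k2 * (H.length + 1) ≤ (k1 + k2) * 3 * (H.length + 1) :=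
      Nat.mul_le_mul_right _ (by omega)
    omega

/-- From the opposite literal. -/
theorem neg_lit (hF : IsFrege F) : ∃ k : ℕ, ∀ (b : Bool) (M : ℕ) (H : List Fm) (β : Bool)
    (y : Nm) (π : List Fm), k * (hsz H + 1) ≤ M → lit (!β) y ∈ H →
    Can F b M π (k * (H.length + 1)) (imps H (neg (lit β y))) := by
  obtain ⟨k1, hk1⟩ := hypo hF
  obtain ⟨k2, hk2⟩ := ctx_rule hF [vv 0] (neg (neg (vv 0))) (by
    intro v hv; simp [Fm.Eval, vv] at hv ⊢; tauto)
  refine ⟨k1 + k2 * 2, ?_⟩
  intro b M H β y π hM h
  have c1 : Can F b M π (k1 * (H.length + 1)) (imps H (lit (!β) y)) :=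
    hk1 b M π H _ (bud (c := 1) hM (by omega) (by omega)) h
  cases β with
  | true => exact c1.le (Nat.mul_le_mul_right _ (by omega))
  | false =>
    have c2 : Can F b M (imps H (lit (!false) y) :: π) (k2 * (H.length + 1))
        (imps H (neg (lit false y))) := by
      refine hk2 b M _ H [var y] ?_ ?_
      · refine bud (c := 2) hM (by omega) ?_
        simp only [List.map_cons, List.map_nil, List.sum_cons, List.sum_nil, sz]
        omega
      · intro P hP
        rw [List.mem_singleton] at hP
        subst hP
        exact List.mem_cons_self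
    refine (c1.cut c2).le ?_
    nlinarith

/-- The formula that reads one bit of a coded value. -/
def qh (t : Nm) (β : Bool) (V : ℕ) (z : ℕ → Nm) (bt : ℕ → Bool) : Fm :=
  disj t (((List.range V).filter bt).map (fun a => lit β (z a)))

theorem hsz_lits (β : Bool) (z : ℕ → Nm) (L : List ℕ) :
    hsz (L.map (fun a => lit β (z a))) ≤ 3 * L.length := by
  induction L with
  | nil => simp
  | cons a L ih =>
    have := sz_lit β (z a)
    simp only [List.map_cons, hsz_cons, List.length_cons]
    omega

theorem sz_qh (t : Nm) (β : Bool) (V : ℕ) (z : ℕ → Nm) (bt : ℕ → Bool) :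
    sz (qh t β V z bt) ≤ 3 * V + 4 := by
  unfold qh
  rw [sz_disj]
  have h1 := hsz_lits β z ((List.range V).filter bt)
  have h2 : ((List.range V).filter bt).length ≤ V := by
    simpa using List.length_filter_le bt (List.range V)
  omega

theorem lit_subst (β : Bool) (x : Nm) (ρ : Nm → Nm) :
    (lit β x).subst (fun w => var (ρ w)) = lit β (ρ x) := by
  cases β <;> rfl

theorem cst_subst (t : Nm) (b : Bool) (ρ : Nm → Nm) (h : ρ t = t) :
    (cst t b).subst (fun w => var (ρ w)) = cst t b := by
  cases b <;> simp [cst, Fm.subst, h]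

theorem disj_subst (t : Nm) (L : List Fm) (ρ : Nm → Nm) (h : ρ t = t) :
    (disj t L).subst (fun w => var (ρ w)) =
      disj t (L.map (fun X => X.subst (fun w => var (ρ w)))) := by
  induction L with
  | nil => exact cst_subst t false ρ h
  | cons a L ih => rw [disj_cons, List.map_cons, disj_cons, ← ih]; rfl

theorem qh_subst (t : Nm) (β : Bool) (V : ℕ) (z : ℕ → Nm) (bt : ℕ → Bool) (ρ : Nm → Nm)
    (h : ρ t = t) : (qh t β V z bt).subst (fun w => var (ρ w)) =
      qh t β V (fun a => ρ (z a)) bt := by
  unfold qh
  rw [disj_subst _ _ _ h, List.map_map]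
  congr 1
  apply List.map_congr_left
  intro a _
  simp only [Function.comp]
  exact lit_subst _ _ _

/-- Value of a coded variable, after a transposition that brings the value `v` to the
canonical place `0`. -/
theorem qh_val (hF : IsFrege F) : ∃ k : ℕ, ∀ (b : Bool) (M : ℕ) (H : List Fm) (t : Nm) (β : Bool)
    (V : ℕ) (z : ℕ → Nm) (bt : ℕ → Bool) (v : ℕ) (π : List Fm),
    k * (hsz H + V + 1) ≤ M → v < V → (∀ a c, a < V → c < V → z a = z c → a = c) →
    lit β (z 0) ∈ H → (∀ a, 0 < a → a < V → lit (!β) (z a) ∈ H) →
    Can F b M π (k * (V + 1) * (H.length + 1))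
      (imps H (Fm.iff (qh t β V (fun a => Equiv.swap (z v) (z 0) (z a)) bt) (cst t (bt v)))) := by
  obtain ⟨k1, hk1⟩ := disj_true hF
  obtain ⟨k2, hk2⟩ := disj_false hF
  obtain ⟨k3, hk3⟩ := neg_lit hF
  obtain ⟨k4, hk4⟩ := hypo hF
  refine ⟨k1 * 7 + k2 * 7 + k3 + k4, ?_⟩
  intro b M H t β V z bt v π hM hv hz h0 h1
  set L := ((List.range V).filter bt).map (fun a => lit β (Equiv.swap (z v) (z 0) (z a))) with hL
  have hL1 : L.length ≤ V := by
    rw [hL, List.length_map]
    simpa using List.length_filter_le bt (List.range V)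
  have hL2 : hsz L ≤ 3 * V := by
    have h1 := hsz_lits β (fun a => Equiv.swap (z v) (z 0) (z a)) ((List.range V).filter bt)
    have h2 : ((List.range V).filter bt).length ≤ V := by
      simpa using List.length_filter_le bt (List.range V)
    rw [hL]; omega
  have hq : qh t β V (fun a => Equiv.swap (z v) (z 0) (z a)) bt = disj t L := rfl
  rw [hq]
  cases hb : bt v with
  | true =>
    have c1 : Can F b M π (k4 * (H.length + 1)) (imps H (lit β (z 0))) :=
      hk4 b M π H _ (bud (c := 1) hM (by omega) (by omega)) h0
    have hmem : lit β (z 0) ∈ L := by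
      rw [hL, List.mem_map]
      refine ⟨v, ?_, ?_⟩
      · simp [hv, hb]
      · rw [Equiv.swap_apply_left]
    have c2 : Can F b M (imps H (lit β (z 0)) :: π) (k1 * (L.length + 1) * (H.length + 1))
        (imps H (Fm.iff (disj t L) (cst t true))) :=
      hk1 b M H t L _ _ (bud (c := 7) hM (by omega) (by omega)) hmem List.mem_cons_self
    refine (c1.cut c2).le ?_
    have e1 : k1 * (L.length + 1) * (H.length + 1) ≤ k1 * (V + 1) * (H.length + 1) :=
      Nat.mul_le_mul_right _ (Nat.mul_le_mul_left _ (by omega))
    have e2 : k4 * (H.length + 1) ≤ k4 * (V + 1) * (H.length + 1) :=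
      Nat.mul_le_mul_right _ (Nat.le_mul_of_pos_right _ (by omega))
    calc k4 * (H.length + 1) + k1 * (L.length + 1) * (H.length + 1)
        ≤ k4 * (V + 1) * (H.length + 1) + k1 * (V + 1) * (H.length + 1) := by omega
      _ = (k1 + k4) * (V + 1) * (H.length + 1) := by ring
      _ ≤ _ := Nat.mul_le_mul_right _ (Nat.mul_le_mul_right _ (by omega))
  | false =>
    have c : Can F b M π ((L.map (fun X => imps H (neg X))).length * (k3 * (H.length + 1)) +
        k2 * (L.length + 1) * (H.length + 1)) (imps H (Fm.iff (disj t L) (cst t false))) := by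
      apply can_cuts
      · intro B hB
        obtain ⟨X, hX, rfl⟩ := List.mem_map.1 hB
        rw [hL, List.mem_map] at hX
        obtain ⟨a, ha, rfl⟩ := hX
        simp only [List.mem_filter, List.mem_range] at ha
        have hav : a ≠ v := by rintro rfl; rw [ha.2] at hb; simp at hb
        refine hk3 b M H β _ π (bud (c := 1) hM (by omega) (by omega)) ?_
        by_cases ha0 : a = 0
        · subst ha0
          rw [Equiv.swap_apply_right]
          exact h1 v (by omega) hv
        · rw [Equiv.swap_apply_of_ne_of_ne]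
          · exact h1 a (by omega) ha.1
          · intro h; exact hav (hz _ _ ha.1 hv h)
          · intro h; exact ha0 (hz _ _ ha.1 (by omega) h)
      · refine hk2 b M H t L _ (bud (c := 7) hM (by omega) (by omega)) ?_
        intro X hX
        exact List.mem_append_left _ (List.mem_map_of_mem (f := fun X => imps H (neg X)) hX)
    refine c.le ?_
    rw [List.length_map]
    have e1 : k2 * (L.length + 1) * (H.length + 1) ≤ k2 * (V + 1) * (H.length + 1) :=
      Nat.mul_le_mul_right _ (Nat.mul_le_mul_left _ (by omega))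
    have e2 : L.length * (k3 * (H.length + 1)) ≤ k3 * (V + 1) * (H.length + 1) := by
      calc L.length * (k3 * (H.length + 1)) ≤ (V + 1) * (k3 * (H.length + 1)) :=
            Nat.mul_le_mul_right _ (by omega)
        _ = _ := by ring
    calc L.length * (k3 * (H.length + 1)) + k2 * (L.length + 1) * (H.length + 1)
        ≤ k3 * (V + 1) * (H.length + 1) + k2 * (V + 1) * (H.length + 1) := by omega
      _ = (k2 + k3) * (V + 1) * (H.length + 1) := by ring
      _ ≤ _ := Nat.mul_le_mul_right _ (Nat.mul_le_mul_right _ (by omega))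

end Pool.Agent.H.MP_0447ec_lc.SE
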