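import Pool.Agent.H.MP_0447ec_lc.SE.Ctx

/-!
# From extended Frege to Frege with hypotheses; soundness; substitution
-/

namespace Pool.Agent.H.MP_0447ec_lc.SE

open Pool.Agent.H.MP_0447ec_lc.PS Pool.Agent.H.MP_0447ec_lc.PS.Fm

variable {F : List Rule}

theorem sz_le_subst {A : Fm} {s : Nm → Fm} {x : Nm} (h : x ∈ A.vars) :
    sz (s x) ≤ sz (A.subst s) := by
  induction A with
  | var w =>
    simp only [Fm.vars, Set.mem_singleton_iff] at h
    subst h; rfl
  | neg A ih => have := ih h; simp only [Fm.subst, sz]; omega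
  | and A B ih1 ih2 =>
    simp only [Fm.subst, sz]
    rcases h with h | h
    · have := ih1 h; omega
    · have := ih2 h; omega
  | or A B ih1 ih2 =>
    simp only [Fm.subst, sz]
    rcases h with h | h
    · have := ih1 h; omega
    · have := ih2 h; omega
  | imp A B ih1 ih2 =>
    simp only [Fm.subst, sz]
    rcases h with h | h
    · have := ih1 h; omega
    · have := ih2 h; omega

/-- A rule of `F` inside a context. -/
theorem ctx_frule (hF : IsFrege F) : ∃ k : ℕ, ∀ r ∈ F, ∀ (b : Bool) (M : ℕ) (π : List Fm)
    (H : List Fm) (s : Nm → Fm) (m : ℕ), 1 ≤ m →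
    (∀ P ∈ r.prem, ∀ x ∈ P.vars, sz (s x) ≤ m) → (∀ x ∈ r.concl.vars, sz (s x) ≤ m) →
    k * (hsz H + m) ≤ M → (∀ P ∈ r.prem, imps H (P.subst s) ∈ π) →
    Can F b M π (k * (H.length + 1)) (imps H (r.concl.subst s)) := by
  have key : ∀ G : List Rule, (∀ r ∈ G, r ∈ F) → ∃ k : ℕ, ∀ r ∈ G, ∀ (b : Bool) (M : ℕ)
      (π : List Fm) (H : List Fm) (s : Nm → Fm) (m : ℕ), 1 ≤ m →
      (∀ P ∈ r.prem, ∀ x ∈ P.vars, sz (s x) ≤ m) → (∀ x ∈ r.concl.vars, sz (s x) ≤ m) →
      k * (hsz H + m) ≤ M → (∀ P ∈ r.prem, imps H (P.subst s) ∈ π) →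
      Can F b M π (k * (H.length + 1)) (imps H (r.concl.subst s)) := by
    intro G
    induction G with
    | nil => intro _; exact ⟨0, by simp⟩
    | cons r G ih =>
      intro hG
      obtain ⟨k1, hk1⟩ := ih (fun r' hr' => hG r' (List.mem_cons_of_mem _ hr'))
      obtain ⟨k2, hk2⟩ := ctx_rule_gen hF r.prem r.concl (hF.sound r (hG r (by simp)))
      refine ⟨k1 + k2, ?_⟩
      intro r' hr' b M π H s m hm h1 h2 hM h3
      rcases List.mem_cons.1 hr' with rfl | hr'
      · classical
        set s' : Nm → Fm := fun x =>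
          if (∃ P ∈ r'.prem, x ∈ P.vars) ∨ x ∈ r'.concl.vars then s x else var [] with hs'
        have e1 : ∀ P ∈ r'.prem, P.subst s' = P.subst s := by
          intro P hP
          apply Fm.subst_congr
          intro x hx
          rw [hs']
          simp only
          rw [if_pos (Or.inl ⟨P, hP, hx⟩)]
        have e2 : r'.concl.subst s' = r'.concl.subst s := by
          apply Fm.subst_congr
          intro x hx
          rw [hs']
          simp only
          rw [if_pos (Or.inr hx)]
        have := hk2 b M π H s' m (by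
          intro x
          rw [hs']
          simp only
          split_ifs with h
          · rcases h with ⟨P, hP, hx⟩ | hx
            · exact h1 P hP x hx
            · exact h2 x hx
          · simpa [sz] using hm) (bud (c := 1) hM (by omega) (by omega)) (by
          intro P hP
          rw [e1 P hP]
          exact h3 P hP)
        rw [e2] at this
        refine this.le (Nat.mul_le_mul_right _ (by omega))
      · refine (hk1 r' hr' b M π H s m hm h1 h2 (bud (c := 1) hM (by omega) (by omega)) h3).le ?_
        exact Nat.mul_le_mul_right _ (by omega)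
  exact key F (fun r hr => hr)

/-- A Frege derivation from hypotheses, lifted to implications. -/
theorem lift (hF : IsFrege F) : ∃ k : ℕ, ∀ (H π : List Fm),
    Deriv (fun σ B => RuleStep F σ B ∨ B ∈ H) π → ∀ (b : Bool) (M N : ℕ), k * N ≤ M →
    hsz H + (π.map sz).sum ≤ N →
    ∃ τ : List Fm, Just (St F b) [] τ ∧ (∀ C ∈ π, imps H C ∈ τ) ∧
      τ.length ≤ k * π.length * (H.length + 1) ∧ ∀ C ∈ τ, sz C ≤ M := by
  obtain ⟨k1, hk1⟩ := hypo hF
  obtain ⟨k2, hk2⟩ := ctx_frule hF
  refine ⟨k1 + k2, ?_⟩
  intro H π hπ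
  induction hπ with
  | nil => intro b M N _ _; exact ⟨[], trivial, by simp, by simp, by simp⟩
  | @snoc σ B _ h2 ih =>
    intro b M N hM hN
    have hN' : hsz H + ((σ.map sz).sum + sz B) ≤ N := by simpa using hN
    obtain ⟨τ, t1, t2, t3, t4⟩ := ih b M N hM (by omega)
    have hB := sz_pos B
    have c : Can F b M τ ((k1 + k2) * (H.length + 1)) (imps H B) := by
      rcases h2 with h2 | h2
      · obtain ⟨r, hr, s, hs, hc⟩ := h2
        rw [← hc]
        refine (hk2 r hr b M τ H s ((σ.map sz).sum + sz B) (by omega) ?_ ?_ ?_ ?_).le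
          (Nat.mul_le_mul_right _ (by omega))
        · intro P hP x hx
          have e1 : sz (s x) ≤ sz (P.subst s) := sz_le_subst hx
          have e2 : sz (P.subst s) ≤ (σ.map sz).sum :=
            List.single_le_sum (by simp) _ (List.mem_map_of_mem (hs P hP))
          omega
        · intro x hx
          have e1 : sz (s x) ≤ sz (r.concl.subst s) := sz_le_subst hx
          rw [hc] at e1
          omega
        · exact bud (c := 1) hM (by omega) (by omega)
        · intro P hP
          exact t2 _ (hs P hP)
      · refine (hk1 b M τ H B (bud (c := 1) hM (by omega) (by omega)) h2).le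
          (Nat.mul_le_mul_right _ (by omega))
    obtain ⟨τ', u1, u2, u3, u4⟩ := c
    refine ⟨τ ++ τ', Just.append t1 (by simpa using u1), ?_, ?_, ?_⟩
    · intro C hC
      rcases List.mem_append.1 hC with hC | hC
      · exact List.mem_append_left _ (t2 C hC)
      · rw [List.mem_singleton] at hC
        subst hC
        exact u2
    · rw [List.length_append, List.length_append, List.length_singleton]
      have : (k1 + k2) * (σ.length + 1) * (H.length + 1) =
        (k1 + k2) * σ.length * (H.length + 1) + (k1 + k2) * (H.length + 1) := by ring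
      omega
    · intro C hC
      rcases List.mem_append.1 hC with hC | hC
      · exact t4 C hC
      · exact u4 C hC

/-! ### Soundness -/

theorem sound_hyp {H π : List Fm} (hF : IsFrege F)
    (h : Deriv (fun σ B => RuleStep F σ B ∨ B ∈ H) π) (v : Nm → Prop)
    (hv : ∀ B ∈ H, B.Eval v) : ∀ C ∈ π, C.Eval v := by
  induction h with
  | nil => simp
  | @snoc σ B _ h2 ih =>
    intro C hC
    rcases List.mem_append.1 hC with hC | hC
    · exact ih C hC
    · rw [List.mem_singleton] at hC
      subst hC
      rcases h2 with h2 | h2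
      · obtain ⟨r, hr, s, hs, hc⟩ := h2
        rw [← hc, Fm.eval_subst]
        apply hF.sound r hr
        intro P hP
        rw [← Fm.eval_subst]
        exact ih _ (hs P hP)
      · exact hv _ h2

theorem eval_congr {A : Fm} {v v' : Nm → Prop} (h : ∀ x ∈ A.vars, (v x ↔ v' x)) :
    A.Eval v ↔ A.Eval v' := by
  induction A with
  | var w => exact h w rfl
  | neg A ih => simp only [Fm.Eval]; rw [ih h]
  | and A B ih1 ih2 =>
    simp only [Fm.Eval]
    rw [ih1 (fun x hx => h x (Or.inl hx)), ih2 (fun x hx => h x (Or.inr hx))]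
  | or A B ih1 ih2 =>
    simp only [Fm.Eval]
    rw [ih1 (fun x hx => h x (Or.inl hx)), ih2 (fun x hx => h x (Or.inr hx))]
  | imp A B ih1 ih2 =>
    simp only [Fm.Eval]
    rw [ih1 (fun x hx => h x (Or.inl hx)), ih2 (fun x hx => h x (Or.inr hx))]

theorem good_sat {A : Fm} : ∀ {l : List (Nm × Fm)}, Good A l → ∀ v : Nm → Prop,
    ∃ v' : Nm → Prop, (∀ x ∈ A.vars, (v x ↔ v' x)) ∧ ∀ e ∈ l, (eAx e).Eval v' := by
  intro l
  induction l with
  | nil => intro _ v; exact ⟨v, fun _ _ => Iff.rfl, by simp⟩
  | cons e l ih =>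
    intro hG v
    obtain ⟨g1, g2, g3, g4⟩ := hG
    obtain ⟨v', h1, h2⟩ := ih g4 v
    classical
    refine ⟨Function.update v' e.1 (e.2.Eval v'), ?_, ?_⟩
    · intro x hx
      have : x ≠ e.1 := by rintro rfl; exact g2 hx
      rw [Function.update_of_ne this]
      exact h1 x hx
    · intro e' he'
      rcases List.mem_cons.1 he' with rfl | he'
      · have e1 : e'.2.Eval (Function.update v' e'.1 (e'.2.Eval v')) ↔ e'.2.Eval v' := by
          apply eval_congr
          intro x hx
          have : x ≠ e'.1 := by rintro rfl; exact g1 hx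
          rw [Function.update_of_ne this]
        simp only [eAx, Fm.iff, Fm.Eval, Function.update_self, e1]
        exact ⟨id, id⟩
      · have e1 : (eAx e').Eval (Function.update v' e.1 (e.2.Eval v')) ↔ (eAx e').Eval v' := by
          apply eval_congr
          intro x hx
          have : x ≠ e.1 := by
            rintro rfl
            simp only [eAx, Fm.iff, Fm.vars, Set.mem_union, Set.mem_singleton_iff] at hx
            rcases hx with (hx | hx) | (hx | hx)
            · exact (g3 e' he').1 hx
            · exact (g3 e' he').2 hx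
            · exact (g3 e' he').2 hx
            · exact (g3 e' he').1 hx
          rw [Function.update_of_ne this]
        exact e1.2 (h2 e' he')

/-- Extended Frege is sound. -/
theorem ext_sound (hF : IsFrege F) {A : Fm} {π : List Fm} (h : ExtProof F A π) (v : Nm → Prop) :
    A.Eval v := by
  obtain ⟨h1, h2, -⟩ := collect h.1
  obtain ⟨v', h3, h4⟩ := good_sat h2 v
  rw [eval_congr h3]
  refine sound_hyp hF h1 v' ?_ A (List.mem_of_getLast? h.2)
  intro B hB
  obtain ⟨e, he, rfl⟩ := List.mem_map.1 hB
  exact h4 e he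

/-! ### Substitution -/

theorem just_subst {π τ : List Fm} (h : Just (RuleStep F) π τ) (s : Nm → Fm) :
    Just (RuleStep F) (π.map (Fm.subst s)) (τ.map (Fm.subst s)) := by
  induction τ generalizing π with
  | nil => trivial
  | cons C τ ih =>
    refine ⟨?_, ?_⟩
    · rcases h.1 with h1 | h1
      · exact Or.inl (List.mem_map_of_mem h1)
      · exact Or.inr (ruleStep_subst h1 s)
    · have := ih h.2
      simpa using this

theorem Just.step_mono {step step' : List Fm → Fm → Prop} (hs : ∀ σ B, step σ B → step' σ B) :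
    ∀ {τ π : List Fm}, Just step π τ → Just step' π τ := by
  intro τ
  induction τ with
  | nil => intro π _; trivial
  | cons C τ ih =>
    intro π h
    refine ⟨?_, ih h.2⟩
    rcases h.1 with h1 | h1
    · exact Or.inl h1
    · exact Or.inr (hs _ _ h1)

/-- A pure Frege derivation can be substituted. -/
theorem can_subst {M n m : ℕ} {B : Fm} (h : Can F false M [] n B) (s : Nm → Fm) (hm : 1 ≤ m)
    (hs : ∀ x, sz (s x) ≤ m) (b : Bool) : Can F b (M * m) [] n (B.subst s) := by
  obtain ⟨τ, h1, h2, h3, h4⟩ := h
  refine ⟨τ.map (Fm.subst s), ?_, ?_, by simpa using h3, ?_⟩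
  · have := just_subst (F := F) h1 s
    exact Just.step_mono (fun σ B h => St_rule h) this
  · simpa using List.mem_map_of_mem (f := Fm.subst s) (by simpa using h2)
  · intro C hC
    obtain ⟨D, hD, rfl⟩ := List.mem_map.1 hC
    exact (sz_subst hm (fun x _ => hs x)).trans (Nat.mul_le_mul_right _ (h4 D hD))

/-- Extended Frege proofs as Frege derivations of an implication. -/
theorem ext_imps (hF : IsFrege F) : ∃ k : ℕ, ∀ (A : Fm) (π : List Fm), ExtProof F A π →
    ∀ (M N : ℕ), k * N ≤ M → hsz (((extL A π).map eAx).reverse) + (π.map sz).sum ≤ N →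
    Can F false M [] (k * π.length * ((extL A π).length + 1))
      (imps (((extL A π).map eAx).reverse) A) := by
  obtain ⟨k, hk⟩ := lift hF
  refine ⟨k, ?_⟩
  intro A π h M N hM hN
  obtain ⟨h1, -, -⟩ := collect h.1
  have h2 : Deriv (fun σ B => RuleStep F σ B ∨ B ∈ ((extL A π).map eAx).reverse) π :=
    h1.imp_step (fun σ B hB => hB.imp id (fun h => List.mem_reverse.2 h))
  obtain ⟨τ, t1, t2, t3, t4⟩ := hk _ π h2 false M N hM hN
  refine ⟨τ, t1, ?_, ?_, t4⟩
  · simpa using t2 A (List.mem_of_getLast? h.2)
  · simpa using t3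

end Pool.Agent.H.MP_0447ec_lc.SE
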