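import Pool.Agent.H.MP_0447ec_lc.SE.Leaf

/-!
# Elimination of one group of extension axioms
-/

namespace Pool.Agent.H.MP_0447ec_lc.SE

open Pool.Agent.H.MP_0447ec_lc.PS Pool.Agent.H.MP_0447ec_lc.PS.Fm

variable {F : List Rule}

/-- The substituted extension axioms. -/
def axs (θ : Nm → Fm) (g : List (Nm × Fm)) : List Fm :=
  g.map (fun e => Fm.iff (θ e.1) (e.2.subst θ))

theorem hsz_axs {θ : Nm → Fm} {m : ℕ} (hm : 4 ≤ m) (hθ : ∀ x, sz (θ x) ≤ m)
    (g : List (Nm × Fm)) : hsz (axs θ g) ≤ 3 * m * gsz g := by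
  induction g with
  | nil => simp [axs]
  | cons e g ih =>
    have h1 := hθ e.1
    have h2 : sz (e.2.subst θ) ≤ sz e.2 * m := sz_subst (by omega) (fun x _ => hθ x)
    have h3 : axs θ (e :: g) = Fm.iff (θ e.1) (e.2.subst θ) :: axs θ g := rfl
    rw [h3, hsz_cons, sz_iff, gsz_cons]
    nlinarith

theorem hsz_map_rn (L : List Fm) (x y : Nm) :
    hsz (L.map (fun h => h.subst (rn x y))) = hsz L := by
  induction L with
  | nil => rfl
  | cons a L ih => simp only [List.map_cons, hsz_cons, sz_rn, ih]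

/-- The conditions on a group. -/
structure GrpOk (t : Nm) (β : Bool) (V : ℕ) (z : ℕ → Nm) (bt : Nm → ℕ → Bool) (θ : Nm → Fm)
    (m : ℕ) (P : List Fm) (g : List (Nm × Fm)) (C : Fm) : Prop where
  m4 : 4 ≤ m
  szθ : ∀ x, sz (θ x) ≤ m
  V0 : 0 < V
  zinj : ∀ a c, a < V → c < V → z a = z c → a = c
  zt : ∀ a, a < V → z a ≠ t
  zP : ∀ a, a < V → ∀ h ∈ P, z a ∉ h.vars
  zC : ∀ a, a < V → z a ∉ C.vars
  ord : OrdG g
  qval : ∀ e ∈ g, θ e.1 = qh t β V z (bt e.1)
  fresh : ∀ e ∈ g, ∀ y ∈ e.2.vars, y ∉ g.map Prod.fst → ∀ a, a < V → z a ∉ (θ y).vars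

theorem leaf (hF : IsFrege F) : ∃ k : ℕ, ∀ (M N : ℕ) (t : Nm) (β : Bool) (V : ℕ) (z : ℕ → Nm)
    (bt : Nm → ℕ → Bool) (θ : Nm → Fm) (m : ℕ) (P : List Fm) (g : List (Nm × Fm)) (C : Fm)
    (f : Nm → Bool) (v : ℕ) (π : List Fm), GrpOk t β V z bt θ m P g C → k * N ≤ M →
    hsz P + 6 * V + 7 + 17 * m * gsz g + sz C ≤ N → v < V → (∀ e ∈ g, bt e.1 v = f e.1) →
    imps (P ++ axs θ g) C ∈ π →
    Can F true M π (k * (N + 1) ^ 4) (imps ((P ++ ZZ β z V (z 0)) ++ Dl t f θ g) C) := by
  obtain ⟨k1, hk1⟩ := rename hF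
  obtain ⟨k2, hk2⟩ := weaken hF
  obtain ⟨k3, hk3⟩ := leaf_ax hF
  obtain ⟨k4, hk4⟩ := ctx_mps hF
  refine ⟨k1 * 3 + k2 * 2 + k3 + k4 * 2, ?_⟩
  intro M N t β V z bt θ m P g C f v π hG hM hN hv hf hπ
  set H := (P ++ ZZ β z V (z 0)) ++ Dl t f θ g with hH
  have hC := sz_pos C
  have hV := hG.V0
  have hDl : hsz (Dl t f θ g) ≤ 14 * m * gsz g := hsz_Dl hG.m4 hG.szθ
  have hax : hsz (axs θ g) ≤ 3 * m * gsz g := hsz_axs hG.m4 hG.szθ g
  have hZ := hsz_ZZ β z V (z 0)
  have hH1 : hsz H = hsz P + hsz (ZZ β z V (z 0)) + hsz (Dl t f θ g) := by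
    rw [hH, hsz_append, hsz_append]
  have hmg : 14 * m * gsz g + 3 * m * gsz g = 17 * m * gsz g := by ring
  -- the renamed line
  have c1 : Can F true M π (k1 * 3) (imps P (imps ((axs θ g).map
      (fun h => h.subst (rn (z v) (z 0)))) C)) := by
    have h1 := hk1 M π [z v, z 0] (imps (P ++ axs θ g) C) (Equiv.swap (z v) (z 0)) (by
      refine bud (c := 3) hM (by omega) ?_
      rw [sz_imps, hsz_append]
      simp only [List.length_cons, List.length_nil]
      omega) (by
      intro x hx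
      left
      by_contra hcon
      simp only [List.mem_cons, List.not_mem_nil, or_false, not_or] at hcon
      exact hx (Equiv.swap_apply_of_ne_of_ne hcon.1 hcon.2)) hπ
    have h2 : (imps (P ++ axs θ g) C).subst (fun w => var (Equiv.swap (z v) (z 0) w)) =
        imps P (imps ((axs θ g).map (fun h => h.subst (rn (z v) (z 0)))) C) := by
      rw [subst_imps, List.map_append, imps_append]
      have hP : P.map (fun h => h.subst (fun w => var (Equiv.swap (z v) (z 0) w))) = P := by
        conv_rhs => rw [← List.map_id P]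
        apply List.map_congr_left
        intro h hh
        exact rn_fresh (hG.zP v hv h hh) (hG.zP 0 hV h hh)
      have hC' : C.subst (fun w => var (Equiv.swap (z v) (z 0) w)) = C :=
        rn_fresh (hG.zC v hv) (hG.zC 0 hV)
      rw [hP, hC']
      rfl
    rw [h2] at h1
    simpa using h1
  set G' := (axs θ g).map (fun h => h.subst (rn (z v) (z 0))) with hG'
  have hG's : hsz G' = hsz (axs θ g) := hsz_map_rn _ _ _
  have c2 : Can F true M (imps P (imps G' C) :: π) (k2 * (H.length + 1) * (P.length + 1))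
      (imps H (imps G' C)) := by
    refine hk2 true M _ H P (imps G' C) ?_ ?_ List.mem_cons_self
    · refine bud (c := 2) hM (by omega) ?_
      rw [sz_imps]
      omega
    · intro h hh
      rw [hH, List.append_assoc]
      exact List.mem_append_left _ hh
  have c3 : ∀ B ∈ G'.map (imps H), Can F true M (imps H (imps G' C) :: π) (k3 * (N + 1) ^ 3) B := by
    intro B hB
    obtain ⟨B', hB', rfl⟩ := List.mem_map.1 hB
    rw [hG', List.mem_map] at hB'
    obtain ⟨A', hA', rfl⟩ := hB'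
    obtain ⟨e, he, rfl⟩ := List.mem_map.1 hA'
    obtain ⟨s', hs1, hs2, hs3⟩ := Dl_mem (t := t) (f := f) (s := θ) hG.ord e he
    have e1 : sz (e.2.subst θ) ≤ sz e.2 * m := sz_subst (by have := hG.m4; omega)
      (fun x _ => hG.szθ x)
    have e2 : sz (e.2.subst s') ≤ sz e.2 * m := by
      apply sz_subst (by have := hG.m4; omega)
      intro x _
      rcases hs2 x with h | h
      · rw [h]; exact hG.szθ x
      · rw [h]; exact (sz_cst _ _).trans hG.m4
    have e3 : sz e.2 + 1 ≤ gsz g := sz_le_gsz he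
    have e4 : sz e.2 * m ≤ m * gsz g := by
      rw [mul_comm]; exact Nat.mul_le_mul_left _ (by omega)
    have hmem : Fm.iff (cst t (bt e.1 v)) (e.2.subst s') ∈ H := by
      rw [hf e he, hH]
      exact List.mem_append_right _ hs1
    refine (hk3 true M N H t β V z bt v θ s' e _ (bud (c := 1) hM (by omega) (by omega)) ?_ hv
      hG.zinj hG.zt ?_ ?_ (hG.qval e he) hmem ?_)
    · have e5 : 3 * m * gsz g = m * gsz g + m * gsz g + m * gsz g := by ring
      omega
    · rw [hH]
      refine List.mem_append_left _ (List.mem_append_right _ List.mem_cons_self)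
    · intro a ha0 haV
      rw [hH]
      refine List.mem_append_left _ (List.mem_append_right _ (List.mem_cons_of_mem _ ?_))
      rw [List.mem_map]
      refine ⟨a - 1, by rw [List.mem_range]; omega, ?_⟩
      rw [Nat.sub_add_cancel ha0]
    · intro y hy
      by_cases hyg : y ∈ g.map Prod.fst
      · left
        obtain ⟨e', he', rfl⟩ := List.mem_map.1 hyg
        refine ⟨hG.qval e' he', ?_⟩
        rw [(hs3 _ hy).1 hyg, hf e' he']
      · right
        refine ⟨((hs3 _ hy).2 hyg).symm, ?_⟩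
        exact rn_fresh (hG.fresh e he y hy hyg v hv) (hG.fresh e he y hy hyg 0 hV)
  have c4 : Can F true M (G'.map (imps H) ++ imps H (imps G' C) :: π)
      (k4 * G'.length * (H.length + 1)) (imps H C) := by
    refine hk4 true M H G' C _ ?_ ?_ ?_
    · refine bud (c := 2) hM (by omega) ?_
      omega
    · exact List.mem_append_right _ List.mem_cons_self
    · intro P' hP'
      exact List.mem_append_left _ (List.mem_map_of_mem hP')
  have c5 := (c1.cut c2).cut (can_cuts _ c3 c4)
  refine c5.le ?_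
  rw [List.length_map]
  have l1 : G'.length ≤ N := by
    have := length_le_hsz G'
    omega
  have l2 : H.length ≤ N := by
    have := length_le_hsz H
    omega
  have l3 : P.length ≤ N := by
    have := length_le_hsz P
    omega
  set n := N + 1 with hn
  have hn1 : 1 ≤ n := by omega
  have f1 : ∀ c : ℕ, c ≤ c * n ^ 4 := by
    intro c
    exact Nat.le_mul_of_pos_right _ (by positivity)
  have f2 : k2 * (H.length + 1) * (P.length + 1) ≤ k2 * n ^ 4 := by
    calc k2 * (H.length + 1) * (P.length + 1) ≤ k2 * n * n := by gcongr <;> omega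
      _ = k2 * n ^ 2 := by ring
      _ ≤ k2 * n ^ 4 := by gcongr <;> omega
  have f3 : G'.length * (k3 * n ^ 3) ≤ k3 * n ^ 4 := by
    calc G'.length * (k3 * n ^ 3) ≤ n * (k3 * n ^ 3) := by gcongr; omega
      _ = k3 * n ^ 4 := by ring
  have f4 : k4 * G'.length * (H.length + 1) ≤ k4 * n ^ 4 := by
    calc k4 * G'.length * (H.length + 1) ≤ k4 * n * n := by gcongr <;> omega
      _ = k4 * n ^ 2 := by ring
      _ ≤ k4 * n ^ 4 := by gcongr <;> omega
  have f5 := f1 (k1 * 3)
  calc _ ≤ (k1 * 3 * n ^ 4 + k2 * n ^ 4) + (k3 * n ^ 4 + k4 * n ^ 4) := by omega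
    _ = (k1 * 3 + k2 + k3 + k4) * n ^ 4 := by ring
    _ ≤ _ := Nat.mul_le_mul_right _ (by omega)

/-- Elimination of the last group of extension axioms. -/
theorem elim_group (hF : IsFrege F) : ∃ k : ℕ, ∀ (M N : ℕ) (t : Nm) (β : Bool) (V : ℕ)
    (z : ℕ → Nm) (bt : Nm → ℕ → Bool) (θ : Nm → Fm) (m : ℕ) (P : List Fm) (g : List (Nm × Fm))
    (C : Fm) (x : Nm) (π : List Fm), GrpOk t β V z bt θ m P g C → k * N ≤ M →
    hsz P + 6 * V + 7 + 17 * m * gsz g + sz C ≤ N →
    (∀ f : Nm → Bool, ∃ v < V, ∀ e ∈ g, bt e.1 v = f e.1) →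
    (∀ a, a < V → z a ≠ x) → (∀ h ∈ P, x ∉ h.vars) → x ∉ C.vars →
    imps (P ++ axs θ g) C ∈ π →
    Can F true M π (2 ^ g.length * (k * (N + 1) ^ 4)) (imps P (imps (ZZ β z V x) C)) := by
  obtain ⟨k1, hk1⟩ := leaf hF
  obtain ⟨k2, hk2⟩ := tree hF
  obtain ⟨k3, hk3⟩ := rename hF
  refine ⟨k1 + k2 + k3 * 3, ?_⟩
  intro M N t β V z bt θ m P g C x π hG hM hN hbt hxz hxP hxC hπ
  have hC := sz_pos C
  have hV := hG.V0
  have hZ := hsz_ZZ β z V (z 0)
  have hDl : ∀ f, hsz (Dl t f θ g) ≤ 14 * m * gsz g := fun f => hsz_Dl hG.m4 hG.szθ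
  have hmg : 14 * m * gsz g + 3 * m * gsz g = 17 * m * gsz g := by ring
  have c1 := hk2 true M N C (k1 * (N + 1) ^ 4) t π (bud (c := 1) hM (by omega) (by omega))
    g (P ++ ZZ β z V (z 0)) θ hG.ord (by
      intro f
      have := hDl f
      rw [hsz_append, hsz_append]
      omega) (by
      intro f
      obtain ⟨v, hv, hf⟩ := hbt f
      exact hk1 M N t β V z bt θ m P g C f v π hG (bud (c := 1) hM (by omega) (by omega)) hN hv
        hf hπ)
  have c2 : Can F true M (imps (P ++ ZZ β z V (z 0)) C :: π) (k3 * 3)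
      (imps P (imps (ZZ β z V x) C)) := by
    have h1 := hk3 M (imps (P ++ ZZ β z V (z 0)) C :: π) [z 0, x] (imps (P ++ ZZ β z V (z 0)) C)
      (Equiv.swap (z 0) x) (by
      refine bud (c := 3) hM (by omega) ?_
      rw [sz_imps, hsz_append]
      simp only [List.length_cons, List.length_nil]
      omega) (by
      intro y hy
      left
      by_contra hcon
      simp only [List.mem_cons, List.not_mem_nil, or_false, not_or] at hcon
      exact hy (Equiv.swap_apply_of_ne_of_ne hcon.1 hcon.2)) List.mem_cons_self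
    have h2 : (imps (P ++ ZZ β z V (z 0)) C).subst (fun w => var (Equiv.swap (z 0) x w)) =
        imps P (imps (ZZ β z V x) C) := by
      rw [subst_imps, List.map_append, imps_append]
      have hP : P.map (fun h => h.subst (fun w => var (Equiv.swap (z 0) x w))) = P := by
        conv_rhs => rw [← List.map_id P]
        apply List.map_congr_left
        intro h hh
        exact rn_fresh (hG.zP 0 hV h hh) (hxP h hh)
      have hC' : C.subst (fun w => var (Equiv.swap (z 0) x w)) = C :=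
        rn_fresh (hG.zC 0 hV) hxC
      have hZZ : (ZZ β z V (z 0)).map (fun h => h.subst (fun w => var (Equiv.swap (z 0) x w))) =
          ZZ β z V x := by
        simp only [ZZ, List.map_cons, List.map_map]
        rw [lit_subst, Equiv.swap_apply_left]
        congr 1
        apply List.map_congr_left
        intro a ha
        rw [List.mem_range] at ha
        simp only [Function.comp]
        rw [lit_subst, Equiv.swap_apply_of_ne_of_ne]
        · intro h
          have := hG.zinj _ _ (by omega) hV h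
          omega
        · exact hxz _ (by omega)
      rw [hP, hC', hZZ]
    rw [h2] at h1
    simpa using h1
  refine (c1.cut c2).le ?_
  obtain ⟨q, hq⟩ : ∃ q, 2 ^ g.length = q + 1 :=
    ⟨2 ^ g.length - 1, by have : 1 ≤ 2 ^ g.length := Nat.one_le_two_pow; omega⟩
  rw [hq]
  have e1 : q + 1 - 1 = q := by omega
  rw [e1]
  set n := N + 1 with hn
  have hn1 : 1 ≤ n ^ 4 := Nat.one_le_pow _ _ (by omega)
  have f2 : k2 * n ≤ k2 * n ^ 4 := by
    calc k2 * n = k2 * n ^ 1 := by rw [pow_one]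
      _ ≤ k2 * n ^ 4 := by gcongr <;> omega
  have f3 : k3 * 3 ≤ k3 * 3 * n ^ 4 := Nat.le_mul_of_pos_right _ (by omega)
  calc (q + 1) * (k1 * n ^ 4) + q * (k2 * n) + k3 * 3
      ≤ (q + 1) * (k1 * n ^ 4) + (q + 1) * (k2 * n ^ 4) + (q + 1) * (k3 * 3 * n ^ 4) := by
        have g1 : q * (k2 * n) ≤ (q + 1) * (k2 * n ^ 4) := by gcongr; omega
        have g2 : k3 * 3 ≤ (q + 1) * (k3 * 3 * n ^ 4) :=
          f3.trans (Nat.le_mul_of_pos_left _ (by omega))
        omega
    _ = (q + 1) * ((k1 + k2 + k3 * 3) * n ^ 4) := by ring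

end Pool.Agent.H.MP_0447ec_lc.SE
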