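import Pool.Agent.H.MP_0447ec_lc.SE.Chain

/-!
# The formula, under tokens at chosen variables and a constant background
-/

namespace Pool.Agent.H.MP_0447ec_lc.SE

open Pool.Agent.H.MP_0447ec_lc.PS Pool.Agent.H.MP_0447ec_lc.PS.Fm

variable {F : List Rule}

theorem ordG_snoc : ∀ {g : List (Nm × Fm)} {e : Nm × Fm}, OrdG g → e.1 ∉ e.2.vars →
    (∀ e' ∈ g, e.1 ≠ e'.1 ∧ e.1 ∉ e'.2.vars) → OrdG (g ++ [e]) := by
  intro g
  induction g with
  | nil => intro e _ h _; exact ⟨h, by simp, trivial⟩
  | cons a g ih =>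
    intro e h1 h2 h3
    refine ⟨h1.1, ?_, ih h1.2.2 h2 (fun e' he' => h3 e' (List.mem_cons_of_mem _ he'))⟩
    intro e' he'
    rcases List.mem_append.1 he' with he' | he'
    · exact h1.2.1 e' he'
    · rw [List.mem_singleton] at he'
      subst he'
      exact h3 a List.mem_cons_self

theorem good_ord {A : Fm} : ∀ {l : List (Nm × Fm)}, Good A l → OrdG l.reverse := by
  intro l
  induction l with
  | nil => intro _; trivial
  | cons e l ih =>
    intro h
    rw [List.reverse_cons]
    refine ordG_snoc (ih h.2.2.2) h.1 ?_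
    intro e' he'
    exact h.2.2.1 e' (List.mem_reverse.1 he')

theorem extL_sum (A : Fm) (π : List Fm) :
    ((extL A π).map (fun e => sz (eAx e))).sum ≤ (π.map sz).sum := by
  induction π using List.reverseRecOn with
  | nil => simp [extL, splits, sp]
  | append_singleton π B ih =>
    rw [extL_snoc]
    rcases isExt_cases A π B with h | ⟨e, h⟩
    · rw [h]
      simp only [List.nil_append, List.map_append, List.sum_append]
      omega
    · have he := (isExt_sound (A := A) (pre := π) (B := B) (e := e) (by rw [h]; simp)).1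
      rw [h]
      simp only [List.map_append, List.sum_append, List.map_cons, List.map_nil, List.sum_cons,
        List.sum_nil]
      rw [← he]
      omega

/-- The names of the background. -/
def bgN (z : ℕ → ℕ → Nm) (V w : ℕ) : List Nm :=
  (List.range w).flatMap (fun i => (List.range (V - 1)).map (fun a => z i (a + 1)))

theorem length_bgN (z : ℕ → ℕ → Nm) (V w : ℕ) : (bgN z V w).length = w * (V - 1) := by
  induction w with
  | zero => simp [bgN]
  | succ w ih =>
    unfold bgN at ih ⊢
    rw [List.range_succ, List.flatMap_append, List.length_append, ih]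
    simp
    ring

theorem hsz_lit_map (β : Bool) (L : List Nm) : hsz (L.map (lit β)) ≤ 3 * L.length := by
  induction L with
  | nil => simp
  | cons a L ih =>
    have := sz_lit β a
    simp only [List.map_cons, hsz_cons, List.length_cons]
    omega

theorem jline (hF : IsFrege F) : ∃ k : ℕ, ∀ (M N : ℕ) (A : Fm) (π₀ : List Fm)
    (J : List Nm) (L : ℕ) (t : Nm) (z : ℕ → ℕ → Nm) (β : Bool) (c w : ℕ),
    ExtProof F A π₀ → Setup (extL A π₀).reverse A J L t z → 0 < c → J.Nodup → J.length = w →
    (extL A π₀).length ≤ w * c → k * N ≤ M →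
    30 * (3 * 2 ^ c + 4) * ((π₀.map sz).sum + w + 1) ≤ N →
    Can F true M [] (k * (N + 1) ^ 6)
      (imps ((bgN z (2 ^ c) w).map (lit (!β)) ++ J.map (lit β)) A) := by
  obtain ⟨k1, hk1⟩ := ext_imps hF
  obtain ⟨k2, hk2⟩ := chain hF
  obtain ⟨k3, hk3⟩ := weaken hF
  obtain ⟨k4, hk4⟩ := hypo hF
  obtain ⟨k5, hk5⟩ := ctx_rule hF [vv 0] (Fm.iff (imp (vv 1) (vv 1)) (vv 0)) (by
    intro v hv; simp [Fm.Eval, Fm.iff, vv] at hv ⊢; tauto)
  obtain ⟨k6, hk6⟩ := ctx_rule hF [neg (vv 0)] (Fm.iff (neg (imp (vv 1) (vv 1))) (vv 0)) (by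
    intro v hv; simp [Fm.Eval, Fm.iff, vv] at hv ⊢; tauto)
  obtain ⟨k7, hk7⟩ := ctx_rule hF [] (Fm.iff (vv 0) (vv 0)) (by
    intro v hv; simp [Fm.Eval, Fm.iff, vv])
  obtain ⟨k8, hk8⟩ := repl hF
  obtain ⟨k9, hk9⟩ := ctx_rule hF [vv 0, Fm.iff (vv 0) (vv 1)] (vv 1) (by
    intro v hv; simp [Fm.Eval, Fm.iff, vv] at hv ⊢; tauto)
  set K := k1 + k2 + k3 + k4 + k5 + k6 + k7 + k8 + k9 with hK
  refine ⟨K * 2, ?_⟩
  intro M N A π₀ J L t z β c w hπ hS hc hJn hJ hE hM hN
  set E := (extL A π₀).reverse with hEdef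
  set V := 2 ^ c with hV
  set S := (π₀.map sz).sum with hSdef
  have hV1 : 1 ≤ V := Nat.one_le_two_pow
  have hN' : 90 * (V * S) + 90 * (V * w) + 90 * V + 120 * S + 120 * w + 120 ≤ N := by
    refine le_trans (le_of_eq ?_) hN
    ring
  have hAS : sz A ≤ S := List.single_le_sum (by simp) _
    (List.mem_map_of_mem (List.mem_of_getLast? hπ.2))
  have hVS : V * sz A ≤ V * S := Nat.mul_le_mul_left _ hAS
  have hA1 := sz_pos A
  set θ := TH E J t β c z with hθ
  -- sizes
  have hEsum : ((E.map (fun e => sz (eAx e))).sum) ≤ S := by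
    rw [hEdef, List.map_reverse, List.sum_reverse]
    exact extL_sum A π₀
  have hgE : gsz E ≤ S := by
    refine le_trans ?_ hEsum
    unfold gsz
    apply List.sum_le_sum
    intro e _
    simp only [eAx, sz_iff]
    omega
  have hVg : V * gsz E ≤ V * S := Nat.mul_le_mul_left _ hgE
  have hhE : hsz (E.map eAx) ≤ 2 * S := by
    have : hsz (E.map eAx) ≤ 2 * (E.map (fun e => sz (eAx e))).sum := by
      clear * -
      induction E with
      | nil => simp
      | cons e E ih =>
        have := sz_pos (eAx e)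
        simp only [List.map_cons, hsz_cons, List.sum_cons]
        omega
    omega
  have hm1 : ∀ x, sz (θ x) ≤ 3 * V + 4 := sz_TH _ _ _ _ _ _
  have hA0 : sz (A.subst θ) ≤ 3 * (V * S) + 4 * S := by
    have h1 : sz (A.subst θ) ≤ sz A * (3 * V + 4) := sz_subst (by omega) (fun x _ => hm1 x)
    have h2 : sz A * (3 * V + 4) ≤ S * (3 * V + 4) := Nat.mul_le_mul_right _ hAS
    have h3 : S * (3 * V + 4) = 3 * (V * S) + 4 * S := by ring
    omega
  -- step 1
  have c1 : Can F true M [] (k1 * π₀.length * ((extL A π₀).length + 1))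
      (imps (axs θ E) (A.subst θ)) := by
    have h0 : ((extL A π₀).map eAx).reverse = E.map eAx := by
      rw [hEdef, List.map_reverse]
    have h1 := hk1 A π₀ hπ (k1 * (3 * S)) (3 * S) le_rfl (by rw [h0]; omega)
    have h2 := can_subst h1 θ (m := 3 * V + 4) (by omega) hm1 true
    rw [h0, subst_imps, List.map_map] at h2
    refine h2.mono (fun _ h => h) ?_ le_rfl
    calc k1 * (3 * S) * (3 * V + 4) = k1 * (9 * (V * S) + 12 * S) := by ring
      _ ≤ k1 * N := Nat.mul_le_mul_left _ (by omega)
      _ ≤ K * 2 * N := Nat.mul_le_mul_right _ (by omega)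
      _ ≤ M := hM
  -- step 2
  have c2 : Can F true M [imps (axs θ E) (A.subst θ)] (w * (V * (k2 * (N + 1) ^ 4)))
      (imps (ZZr β z V (fun j => J.getD j []) 0 w) (A.subst θ)) := by
    refine hk2 M N E A J L t z β c w _ hS hc hJn hJ ?_ (le_trans (Nat.mul_le_mul_right _ (by omega)) hM) ?_
      List.mem_cons_self
    · rw [hEdef, List.length_reverse]; exact hE
    · have e1 : 20 * (3 * V + 4) * gsz E = 60 * (V * gsz E) + 80 * gsz E := by ring
      have e2 : w * (3 * V + 3) = 3 * (V * w) + 3 * w := by ring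
      have e3 : sz A * (3 * V + 4) = 3 * (V * sz A) + 4 * sz A := by ring
      rw [e1, e2, e3]
      omega
  set Z := ZZr β z V (fun j => J.getD j []) 0 w with hZ
  set H := (bgN z V w).map (lit (!β)) ++ J.map (lit β) with hH
  have hVw : w * (V - 1) ≤ V * w := by
    rw [mul_comm]; exact Nat.mul_le_mul_right _ (by omega)
  have hHs : hsz H ≤ 3 * (V * w) + 3 * w := by
    rw [hH, hsz_append]
    have e1 := hsz_lit_map (!β) (bgN z V w)
    have e2 := hsz_lit_map β J
    rw [length_bgN] at e1
    omega
  have hZs : hsz Z ≤ 3 * (V * w) + 3 * w := by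
    have := hsz_ZZr β z V (fun j => J.getD j []) 0 w
    rw [← hZ] at this
    have e2 : w * (3 * V + 3) = 3 * (V * w) + 3 * w := by ring
    omega
  have hlH := length_le_hsz H
  have hlZ := length_le_hsz Z
  -- step 3
  have c3 : Can F true M [imps Z (A.subst θ)] (k3 * (H.length + 1) * (Z.length + 1))
      (imps H (A.subst θ)) := by
    refine hk3 true M _ H Z _ ?_ ?_ List.mem_cons_self
    · exact bud (c := 1) hM (by omega) (by omega)
    · intro h hh
      obtain ⟨j, -, hj2, hh⟩ := mem_ZZr hh
      rw [hH]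
      rcases List.mem_cons.1 hh with rfl | hh
      · refine List.mem_append_right _ (List.mem_map_of_mem ?_)
        rw [List.getD_eq_getElem _ _ (by omega)]
        exact List.getElem_mem _
      · refine List.mem_append_left _ ?_
        obtain ⟨a, ha, rfl⟩ := List.mem_map.1 hh
        refine List.mem_map_of_mem ?_
        simp only [bgN, List.mem_flatMap]
        refine ⟨j, by rw [List.mem_range]; omega, ?_⟩
        exact List.mem_map_of_mem (f := fun a => z j (a + 1)) ha
  -- step 4
  have c4 : ∀ B ∈ (nms A).map (fun x => imps H (Fm.iff (θ x) (var x))),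
      Can F true M [imps H (A.subst θ)] ((k4 + k5 + k6 + k7) * (H.length + 1)) B := by
    intro B hB
    obtain ⟨x, hx, rfl⟩ := List.mem_map.1 hB
    rw [mem_nms] at hx
    by_cases hxJ : x ∈ J
    · have e1 : θ x = cst t β := by rw [hθ]; unfold TH; rw [if_pos hxJ]
      rw [e1]
      have d1 : Can F true M [imps H (A.subst θ)] (k4 * (H.length + 1)) (imps H (lit β x)) := by
        refine hk4 true M _ H _ (bud (c := 1) hM (by omega) (by omega)) ?_
        rw [hH]
        exact List.mem_append_right _ (List.mem_map_of_mem hxJ)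
      have d2 : Can F true M (imps H (lit β x) :: [imps H (A.subst θ)])
          ((k5 + k6) * (H.length + 1)) (imps H (Fm.iff (cst t β) (var x))) := by
        cases β with
        | true =>
          refine (hk5 true M _ H [var x, var t] (bud (c := 2) hM (by omega) ?_) ?_).le ?_
          · simp [sz]; omega
          · intro P hP
            rw [List.mem_singleton] at hP
            subst hP
            exact List.mem_cons_self
          · exact Nat.mul_le_mul_right _ (by omega)
        | false =>
          refine (hk6 true M _ H [var x, var t] (bud (c := 2) hM (by omega) ?_) ?_).le ?_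
          · simp [sz]; omega
          · intro P hP
            rw [List.mem_singleton] at hP
            subst hP
            exact List.mem_cons_self
          · exact Nat.mul_le_mul_right _ (by omega)
      refine (d1.cut d2).le ?_
      rw [← add_mul]
      exact Nat.mul_le_mul_right _ (by omega)
    · have hxE : x ∉ E.map Prod.fst := by
        intro h
        obtain ⟨e, he, rfl⟩ := List.mem_map.1 h
        exact hS.EA e he hx
      have e1 : θ x = var x := by rw [hθ]; unfold TH; rw [if_neg hxJ, if_neg hxE]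
      rw [e1]
      refine (hk7 true M _ H [var x] (bud (c := 2) hM (by omega) ?_) (by simp)).le ?_
      · simp [sz]; omega
      · exact Nat.mul_le_mul_right _ (by omega)
  have c5 : Can F true M ((nms A).map (fun x => imps H (Fm.iff (θ x) (var x))) ++
      [imps H (A.subst θ)]) (k8 * sz A * (H.length + 1)) (imps H (Fm.iff (A.subst θ) A)) := by
    have := hk8 true M N H θ var (le_trans (Nat.mul_le_mul_right _ (by omega)) hM) A
      ((nms A).map (fun x => imps H (Fm.iff (θ x) (var x))) ++ [imps H (A.subst θ)])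
      (by rw [Fm.subst_var]; omega)
      (by
        intro x hx
        exact List.mem_append_left _ (List.mem_map_of_mem
          (f := fun x => imps H (Fm.iff (θ x) (var x))) (mem_nms.2 hx)))
    rw [Fm.subst_var] at this
    exact this
  have c6 := can_cuts _ c4 c5
  have c7 : Can F true M [imps H (Fm.iff (A.subst θ) A), imps H (A.subst θ)]
      (k9 * (H.length + 1)) (imps H A) := by
    refine hk9 true M _ H [A.subst θ, A] (bud (c := 2) hM (by omega) ?_) ?_
    · simp only [List.map_cons, List.map_nil, List.sum_cons, List.sum_nil]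
      omega
    · intro P hP
      simp only [List.mem_cons, List.not_mem_nil, or_false] at hP
      rcases hP with rfl | rfl
      · exact List.mem_cons_of_mem _ List.mem_cons_self
      · exact List.mem_cons_self
  have c8 := ((c1.cut c2).cut c3).cut (c6.cut c7)
  refine c8.le ?_
  rw [List.length_map]
  have l1 : (nms A).length ≤ N := (nms_length_le A).trans (by omega)
  have l2 : H.length ≤ N := by omega
  have l3 : Z.length ≤ N := by omega
  have l4 : π₀.length ≤ N := by
    have : π₀.length ≤ S := by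
      rw [hSdef]
      clear * -
      induction π₀ with
      | nil => simp
      | cons a l ih => have := sz_pos a; simp only [List.length_cons, List.map_cons, List.sum_cons]; omega
    omega
  have l5 : (extL A π₀).length ≤ N := by
    have e1 : E.length ≤ gsz E := length_le_gsz E
    have e2 : E.length = (extL A π₀).length := by rw [hEdef, List.length_reverse]
    omega
  have l6 : sz A ≤ N := by omega
  have l7 : w * V ≤ N := by rw [mul_comm]; omega
  set n := N + 1 with hn
  have hn1 : 1 ≤ n := by omega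
  have p2 : n ^ 2 ≤ n ^ 6 := Nat.pow_le_pow_right hn1 (by omega)
  have p5 : n ^ 5 ≤ n ^ 6 := Nat.pow_le_pow_right hn1 (by omega)
  have p1 : n ≤ n ^ 6 := by
    calc n = n ^ 1 := (pow_one n).symm
      _ ≤ n ^ 6 := Nat.pow_le_pow_right hn1 (by omega)
  have f1 : k1 * π₀.length * ((extL A π₀).length + 1) ≤ k1 * n ^ 6 := by
    calc k1 * π₀.length * ((extL A π₀).length + 1) ≤ k1 * n * n := by gcongr <;> omega
      _ = k1 * n ^ 2 := by ring
      _ ≤ k1 * n ^ 6 := Nat.mul_le_mul_left _ p2
  have f2 : w * (V * (k2 * n ^ 4)) ≤ k2 * n ^ 6 := by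
    calc w * (V * (k2 * n ^ 4)) = w * V * (k2 * n ^ 4) := by ring
      _ ≤ n * (k2 * n ^ 4) := Nat.mul_le_mul_right _ (by omega)
      _ = k2 * n ^ 5 := by ring
      _ ≤ k2 * n ^ 6 := Nat.mul_le_mul_left _ p5
  have f3 : k3 * (H.length + 1) * (Z.length + 1) ≤ k3 * n ^ 6 := by
    calc k3 * (H.length + 1) * (Z.length + 1) ≤ k3 * n * n := by gcongr <;> omega
      _ = k3 * n ^ 2 := by ring
      _ ≤ k3 * n ^ 6 := Nat.mul_le_mul_left _ p2
  have f4 : (nms A).length * ((k4 + k5 + k6 + k7) * (H.length + 1)) ≤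
      (k4 + k5 + k6 + k7) * n ^ 6 := by
    calc (nms A).length * ((k4 + k5 + k6 + k7) * (H.length + 1)) ≤
          n * ((k4 + k5 + k6 + k7) * n) := by gcongr <;> omega
      _ = (k4 + k5 + k6 + k7) * n ^ 2 := by ring
      _ ≤ _ := Nat.mul_le_mul_left _ p2
  have f5 : k8 * sz A * (H.length + 1) ≤ k8 * n ^ 6 := by
    calc k8 * sz A * (H.length + 1) ≤ k8 * n * n := by gcongr <;> omega
      _ = k8 * n ^ 2 := by ring
      _ ≤ k8 * n ^ 6 := Nat.mul_le_mul_left _ p2
  have f6 : k9 * (H.length + 1) ≤ k9 * n ^ 6 :=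
    Nat.mul_le_mul_left _ (by omega)
  have f7 : k1 * n ^ 6 + k2 * n ^ 6 + k3 * n ^ 6 + ((k4 + k5 + k6 + k7) * n ^ 6 + k8 * n ^ 6 +
      k9 * n ^ 6) = K * n ^ 6 := by rw [hK]; ring
  have f8 : K * n ^ 6 ≤ K * 2 * n ^ 6 := Nat.mul_le_mul_right _ (by omega)
  omega

end Pool.Agent.H.MP_0447ec_lc.SE
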