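import Pool.Agent.H.MP_0447ec_lc.SE.Tree
import Pool.Agent.H.MP_0447ec_lc.SE.EF

/-!
# The leaves of the case tree
-/

namespace Pool.Agent.H.MP_0447ec_lc.SE

open Pool.Agent.H.MP_0447ec_lc.PS Pool.Agent.H.MP_0447ec_lc.PS.Fm

variable {F : List Rule}

/-- The literals that say that the name `y` has the distinguished value and `z 1, z 2, ...` do
not. -/
def ZZ (β : Bool) (z : ℕ → Nm) (V : ℕ) (y : Nm) : List Fm :=
  lit β y :: (List.range (V - 1)).map (fun a => lit (!β) (z (a + 1)))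

theorem length_ZZ (β : Bool) (z : ℕ → Nm) (V : ℕ) (y : Nm) :
    (ZZ β z V y).length = V - 1 + 1 := by simp [ZZ]

theorem hsz_ZZ (β : Bool) (z : ℕ → Nm) (V : ℕ) (y : Nm) : hsz (ZZ β z V y) ≤ 3 * V + 3 := by
  have h1 := hsz_lits (!β) (fun a => z (a + 1)) (List.range (V - 1))
  have h2 := sz_lit β y
  rw [List.length_range] at h1
  simp only [ZZ, hsz_cons]
  omega

/-- The renaming by the transposition of two names. -/
def rn (x y : Nm) : Nm → Fm := fun w => var (Equiv.swap x y w)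

theorem sz_rn (A : Fm) (x y : Nm) : sz (A.subst (rn x y)) = sz A := by
  induction A with
  | var w => rfl
  | neg A ih => simp only [Fm.subst, sz, ih]
  | and A B ih1 ih2 => simp only [Fm.subst, sz, ih1, ih2]
  | or A B ih1 ih2 => simp only [Fm.subst, sz, ih1, ih2]
  | imp A B ih1 ih2 => simp only [Fm.subst, sz, ih1, ih2]

theorem nms_length_le (B : Fm) : (nms B).length ≤ sz B := by
  induction B with
  | var w => simp [nms, sz]
  | neg A ih => simp only [nms, sz]; omega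
  | and A B ih1 ih2 => simp only [nms, sz, List.length_append]; omega
  | or A B ih1 ih2 => simp only [nms, sz, List.length_append]; omega
  | imp A B ih1 ih2 => simp only [nms, sz, List.length_append]; omega

theorem sz_subst_ge (B : Fm) (s : Nm → Fm) : sz B ≤ sz (B.subst s) := by
  induction B with
  | var w => simpa [Fm.subst, sz] using sz_pos (s w)
  | neg A ih => simp only [Fm.subst, sz]; omega
  | and A B ih1 ih2 => simp only [Fm.subst, sz]; omega
  | or A B ih1 ih2 => simp only [Fm.subst, sz]; omega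
  | imp A B ih1 ih2 => simp only [Fm.subst, sz]; omega

theorem rn_fresh {A : Fm} {x y : Nm} (hx : x ∉ A.vars) (hy : y ∉ A.vars) :
    A.subst (rn x y) = A := by
  apply Fm.subst_eq_self
  intro w hw
  unfold rn
  rw [Equiv.swap_apply_of_ne_of_ne]
  · rintro rfl; exact hx hw
  · rintro rfl; exact hy hw

theorem rep_line (hF : IsFrege F) : ∃ k : ℕ, ∀ (b : Bool) (M : ℕ) (H : List Fm) (t : Nm)
    (β : Bool) (V : ℕ) (z : ℕ → Nm) (bt : ℕ → Bool) (v : ℕ) (A B : Fm) (π : List Fm),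
    k * (hsz H + V + sz A + 1) ≤ M → v < V → (∀ a c, a < V → c < V → z a = z c → a = c) →
    (∀ a, a < V → z a ≠ t) →
    lit β (z 0) ∈ H → (∀ a, 0 < a → a < V → lit (!β) (z a) ∈ H) →
    ((A = qh t β V z bt ∧ B = cst t (bt v)) ∨ (A = B ∧ A.subst (rn (z v) (z 0)) = A)) →
    Can F b M π (k * (V + 1) * (H.length + 1)) (imps H (Fm.iff (A.subst (rn (z v) (z 0))) B)) := by
  obtain ⟨k1, hk1⟩ := qh_val hF
  obtain ⟨k2, hk2⟩ := ctx_rule hF [] (Fm.iff (vv 0) (vv 0)) (by
    intro v hv; simp [Fm.Eval, Fm.iff, vv])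
  refine ⟨k1 + k2 * 2, ?_⟩
  intro b M H t β V z bt v A B π hM hv hz hzt h0 h1 h
  rcases h with ⟨hA, hB⟩ | ⟨hA, hB⟩
  · rw [hA, hB]
    have e : (qh t β V z bt).subst (rn (z v) (z 0)) =
        qh t β V (fun a => Equiv.swap (z v) (z 0) (z a)) bt := by
      apply qh_subst
      rw [Equiv.swap_apply_of_ne_of_ne]
      · exact (hzt v hv).symm
      · exact (hzt 0 (by omega)).symm
    rw [e]
    refine (hk1 b M H t β V z bt v π (bud (c := 1) hM (by omega) (by omega)) hv hz h0 h1).le ?_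
    exact Nat.mul_le_mul_right _ (Nat.mul_le_mul_right _ (by omega))
  · rw [hB, ← hA]
    have hA1 := sz_pos A
    refine (hk2 b M π H [A] (bud (c := 2) hM (by omega) ?_) (by simp)).le ?_
    · simp; omega
    · apply Nat.mul_le_mul_right
      calc k2 ≤ k2 * (V + 1) := Nat.le_mul_of_pos_right _ (by omega)
        _ ≤ (k1 + k2 * 2) * (V + 1) := Nat.mul_le_mul_right _ (by omega)

/-- A substituted extension axiom holds at a leaf. -/
theorem leaf_ax (hF : IsFrege F) : ∃ k : ℕ, ∀ (b : Bool) (M N : ℕ) (H : List Fm) (t : Nm)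
    (β : Bool) (V : ℕ) (z : ℕ → Nm) (bt : Nm → ℕ → Bool) (v : ℕ) (θ s' : Nm → Fm) (e : Nm × Fm)
    (π : List Fm),
    k * N ≤ M → hsz H + 3 * V + 4 + 2 * sz (e.2.subst θ) + sz (e.2.subst s') ≤ N →
    v < V → (∀ a c, a < V → c < V → z a = z c → a = c) → (∀ a, a < V → z a ≠ t) →
    lit β (z 0) ∈ H → (∀ a, 0 < a → a < V → lit (!β) (z a) ∈ H) →
    θ e.1 = qh t β V z (bt e.1) →
    Fm.iff (cst t (bt e.1 v)) (e.2.subst s') ∈ H →
    (∀ y ∈ e.2.vars, (θ y = qh t β V z (bt y) ∧ s' y = cst t (bt y v)) ∨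
      (θ y = s' y ∧ (θ y).subst (rn (z v) (z 0)) = θ y)) →
    Can F b M π (k * (N + 1) ^ 3)
      (imps H ((Fm.iff (θ e.1) (e.2.subst θ)).subst (rn (z v) (z 0)))) := by
  obtain ⟨k1, hk1⟩ := rep_line hF
  obtain ⟨k2, hk2⟩ := repl hF
  obtain ⟨k3, hk3⟩ := hypo hF
  obtain ⟨k4, hk4⟩ := ctx_rule hF [Fm.iff (vv 0) (vv 1), Fm.iff (vv 1) (vv 2),
    Fm.iff (vv 3) (vv 2)] (Fm.iff (vv 0) (vv 3)) (by
    intro v hv; simp [Fm.Eval, Fm.iff, vv] at hv ⊢; tauto)
  refine ⟨k1 * 2 + k2 + k3 + k4 * 2, ?_⟩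
  intro b M N H t β V z bt v θ s' e π hM hN hv hz hzt h0 h1 hθ hH hrep
  set A := e.2.subst θ with hA
  set B := e.2.subst s' with hB
  have hA1 := sz_pos A
  have hB1 := sz_pos B
  have hlen := length_le_hsz H
  -- the lines for the variables
  have c1 : ∀ L ∈ (nms e.2).map (fun y => imps H (Fm.iff ((θ y).subst (rn (z v) (z 0))) (s' y))),
      Can F b M π (k1 * (V + 1) * (H.length + 1)) L := by
    intro L hL
    obtain ⟨y, hy, rfl⟩ := List.mem_map.1 hL
    rw [mem_nms] at hy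
    have hy1 : sz (θ y) ≤ sz A := sz_le_subst hy
    refine hk1 b M H t β V z (bt y) v (θ y) (s' y) π (bud (c := 2) hM (by omega) (by omega))
      hv hz hzt h0 h1 (hrep y hy)
  -- the replacement
  have c2 : Can F b M ((nms e.2).map
      (fun y => imps H (Fm.iff ((θ y).subst (rn (z v) (z 0))) (s' y))) ++ π)
      (k2 * sz e.2 * (H.length + 1))
      (imps H (Fm.iff (A.subst (rn (z v) (z 0))) B)) := by
    have := hk2 b M N H (fun y => (θ y).subst (rn (z v) (z 0))) s'
      (le_trans (Nat.mul_le_mul_right _ (by omega)) hM) e.2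
      ((nms e.2).map (fun y => imps H (Fm.iff ((θ y).subst (rn (z v) (z 0))) (s' y))) ++ π)
      (by
        rw [← Fm.subst_subst, ← hA, ← hB, sz_rn]; omega)
      (by
        intro x hx
        exact List.mem_append_left _ (List.mem_map_of_mem
          (f := fun y => imps H (Fm.iff ((θ y).subst (rn (z v) (z 0))) (s' y)))
          (mem_nms.2 hx)))
    rw [← Fm.subst_subst] at this
    exact this
  have c3 := can_cuts _ c1 c2
  -- the name
  have c4 : Can F b M (imps H (Fm.iff (A.subst (rn (z v) (z 0))) B) :: π)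
      (k1 * (V + 1) * (H.length + 1))
      (imps H (Fm.iff ((θ e.1).subst (rn (z v) (z 0))) (cst t (bt e.1 v)))) := by
    have hsq : sz (θ e.1) ≤ 3 * V + 4 := by rw [hθ]; exact sz_qh _ _ _ _ _
    exact hk1 b M H t β V z (bt e.1) v (θ e.1) _ _ (bud (c := 2) hM (by omega) (by omega))
      hv hz hzt h0 h1 (Or.inl ⟨hθ, rfl⟩)
  have c5 : Can F b M (imps H (Fm.iff ((θ e.1).subst (rn (z v) (z 0))) (cst t (bt e.1 v))) ::
      imps H (Fm.iff (A.subst (rn (z v) (z 0))) B) :: π)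
      (k3 * (H.length + 1)) (imps H (Fm.iff (cst t (bt e.1 v)) B)) :=
    hk3 b M _ H _ (bud (c := 1) hM (by omega) (by omega)) hH
  have c6 : Can F b M (imps H (Fm.iff (cst t (bt e.1 v)) B) ::
      imps H (Fm.iff ((θ e.1).subst (rn (z v) (z 0))) (cst t (bt e.1 v))) ::
      imps H (Fm.iff (A.subst (rn (z v) (z 0))) B) :: π)
      (k4 * (H.length + 1))
      (imps H ((Fm.iff (θ e.1) (e.2.subst θ)).subst (rn (z v) (z 0)))) := by
    have hsq : sz (θ e.1) ≤ 3 * V + 4 := by rw [hθ]; exact sz_qh _ _ _ _ _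
    have hc := sz_cst t (bt e.1 v)
    refine hk4 b M _ H [(θ e.1).subst (rn (z v) (z 0)), cst t (bt e.1 v), B,
      A.subst (rn (z v) (z 0))] ?_ ?_
    · refine bud (c := 2) hM (by omega) ?_
      simp only [List.map_cons, List.map_nil, List.sum_cons, List.sum_nil, sz_rn]
      omega
    · intro P hP
      simp only [List.mem_cons, List.not_mem_nil, or_false] at hP
      rcases hP with rfl | rfl | rfl
      · exact List.mem_cons_of_mem _ List.mem_cons_self
      · exact List.mem_cons_self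
      · exact List.mem_cons_of_mem _ (List.mem_cons_of_mem _ List.mem_cons_self)
  refine (c3.cut (c4.cut (c5.cut c6))).le ?_
  rw [List.length_map]
  have e1 : (nms e.2).length ≤ N := by
    have := (nms_length_le e.2).trans (sz_subst_ge e.2 θ)
    rw [← hA] at this
    omega
  have e2 : sz e.2 ≤ N := by
    have := sz_subst_ge e.2 θ
    rw [← hA] at this
    omega
  have e3 : V + 1 ≤ N + 1 := by omega
  have e4 : H.length + 1 ≤ N + 1 := by omega
  set n := N + 1 with hn
  have hn1 : 1 ≤ n := by omega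
  have f1 : (nms e.2).length * (k1 * (V + 1) * (H.length + 1)) ≤ k1 * n ^ 3 := by
    calc (nms e.2).length * (k1 * (V + 1) * (H.length + 1)) ≤ n * (k1 * n * n) := by gcongr; omega
      _ = k1 * n ^ 3 := by ring
  have f2 : k2 * sz e.2 * (H.length + 1) ≤ k2 * n ^ 3 := by
    calc k2 * sz e.2 * (H.length + 1) ≤ k2 * n * n := by gcongr; omega
      _ = k2 * n ^ 2 := by ring
      _ ≤ k2 * n ^ 3 := by gcongr <;> omega
  have f3 : k1 * (V + 1) * (H.length + 1) ≤ k1 * n ^ 3 := by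
    calc k1 * (V + 1) * (H.length + 1) ≤ k1 * n * n := by gcongr
      _ = k1 * n ^ 2 := by ring
      _ ≤ k1 * n ^ 3 := by gcongr <;> omega
  have f4 : ∀ c : ℕ, c * (H.length + 1) ≤ c * n ^ 3 := by
    intro c
    calc c * (H.length + 1) ≤ c * n ^ 1 := by rw [pow_one]; gcongr
      _ ≤ c * n ^ 3 := by gcongr <;> omega
  have f5 := f4 k3
  have f6 := f4 k4
  calc _ ≤ (k1 * n ^ 3 + k2 * n ^ 3) + (k1 * n ^ 3 + (k3 * n ^ 3 + k4 * n ^ 3)) := by omega
    _ = (k1 * 2 + k2 + k3 + k4) * n ^ 3 := by ring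
    _ ≤ _ := Nat.mul_le_mul_right _ (by omega)

end Pool.Agent.H.MP_0447ec_lc.SE
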