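import Mathlib

/-!
# Choice of the parameters
-/

namespace Pool.Agent.H.MP_0447ec_lc.SE

/-- The number of bits of `s`. -/
def lg (s : ℕ) : ℕ := Nat.log 2 s + 1

/-- The number of groups. -/
def wg (s : ℕ) : ℕ := Nat.sqrt (s / lg s) + 1

theorem lt_two_pow_lg (s : ℕ) : s + 1 ≤ 2 ^ lg s := Nat.lt_pow_succ_log_self (by norm_num) s

theorem lg_le {s : ℕ} (hs : 2 ≤ s) : lg s ≤ s := by
  unfold lg
  have h1 : 2 ^ Nat.log 2 s ≤ s := Nat.pow_log_le_self 2 (by omega)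
  have h2 : Nat.log 2 s < 2 ^ Nat.log 2 s := Nat.lt_two_pow_self
  omega

theorem wg_pos (s : ℕ) : 1 ≤ wg s := by unfold wg; omega

theorem wg_le (s : ℕ) : wg s ≤ s + 1 := by
  unfold wg
  have h1 : Nat.sqrt (s / lg s) ≤ s / lg s := Nat.sqrt_le_self _
  have h2 : s / lg s ≤ s := Nat.div_le_self _ _
  omega

theorem cover (s : ℕ) : s ≤ wg s * (wg s * lg s) := by
  have h1 : s / lg s < wg s * wg s := Nat.lt_succ_sqrt _
  have h2 : 0 < lg s := by unfold lg; omega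
  have h3 : s < (s / lg s + 1) * lg s := by
    have := Nat.lt_mul_div_succ s h2
    calc s < lg s * (s / lg s + 1) := this
      _ = _ := by ring
  have h4 : (s / lg s + 1) * lg s ≤ wg s * wg s * lg s := Nat.mul_le_mul_right _ h1
  calc s ≤ wg s * wg s * lg s := by omega
    _ = _ := by ring

theorem c_sq {s : ℕ} (hs : 2 ≤ s) : (wg s * lg s) ^ 2 ≤ 4 * (s * lg s) := by
  set q := Nat.sqrt (s / lg s) with hq
  have h0 : wg s = q + 1 := rfl
  have h1 : q * q ≤ s / lg s := Nat.sqrt_le _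
  have h2 : q * q * lg s ≤ s := (Nat.mul_le_mul_right _ h1).trans (Nat.div_mul_le_self _ _)
  have h3 := lg_le hs
  rw [h0]
  have h4 : q * q * lg s * lg s ≤ s * lg s := Nat.mul_le_mul_right _ h2
  have h5 : lg s * lg s ≤ s * lg s := Nat.mul_le_mul_right _ h3
  nlinarith [sq_nonneg ((q : ℤ) - 1), Nat.zero_le q, sq_nonneg (((q : ℤ) - 1) * lg s),
    two_mul_le_add_sq (q * lg s) (lg s)]

theorem nat_bound (k s : ℕ) {N c : ℕ} (hc : c = wg s * lg s)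
    (hN : N = 30 * (3 * 2 ^ c + 4) * (s + wg s + 1)) :
    (k * ((N + 1) ^ 6 * (s + 1) ^ wg s)) * (k * N) ≤ 2 ^ (2 * k + 15 * c + 63) := by
  have hl := lt_two_pow_lg s
  have hw := wg_le s
  have hk : k ≤ 2 ^ k := Nat.lt_two_pow_self.le
  have hlc : lg s ≤ c := by
    rw [hc]; exact Nat.le_mul_of_pos_left _ (wg_pos s)
  have h1 : (s + 1) ^ wg s ≤ 2 ^ c := by
    calc (s + 1) ^ wg s ≤ (2 ^ lg s) ^ wg s := Nat.pow_le_pow_left hl _
      _ = 2 ^ c := by rw [← pow_mul, hc, mul_comm]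
  have hV : 1 ≤ 2 ^ c := Nat.one_le_two_pow
  have h2 : N + 1 ≤ 2 ^ (2 * c + 9) := by
    have e1 : s + wg s + 1 ≤ 2 * 2 ^ c := by
      have : 2 ^ lg s ≤ 2 ^ c := Nat.pow_le_pow_right (by norm_num) hlc
      omega
    have e2 : 30 * (3 * 2 ^ c + 4) ≤ 210 * 2 ^ c := by omega
    have e3 : N ≤ 210 * 2 ^ c * (2 * 2 ^ c) := by
      rw [hN]; exact Nat.mul_le_mul e2 e1
    have e4 : 210 * 2 ^ c * (2 * 2 ^ c) = 420 * 2 ^ (2 * c) := by
      rw [two_mul c, pow_add]; ring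
    have e5 : 2 ^ (2 * c + 9) = 512 * 2 ^ (2 * c) := by rw [pow_add]; norm_num; ring
    have e6 : 1 ≤ 2 ^ (2 * c) := Nat.one_le_two_pow
    omega
  calc (k * ((N + 1) ^ 6 * (s + 1) ^ wg s)) * (k * N)
      ≤ (2 ^ k * ((2 ^ (2 * c + 9)) ^ 6 * 2 ^ c)) * (2 ^ k * 2 ^ (2 * c + 9)) := by
        gcongr
        omega
    _ = 2 ^ (2 * k + 15 * c + 63) := by
        rw [← pow_mul, ← pow_add, ← pow_add, ← pow_add, ← pow_add]
        congr 1
        ring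

theorem real_bound {s c : ℕ} (hs : 2 ≤ s) (hc : c = wg s * lg s) :
    1 ≤ Real.sqrt (s * Real.log s) ∧ (c : ℝ) ≤ 4 * Real.sqrt (s * Real.log s) := by
  have hs' : (2 : ℝ) ≤ s := by exact_mod_cast hs
  have hl2 := Real.log_two_gt_d9
  have hlog : Real.log 2 ≤ Real.log s := Real.log_le_log (by norm_num) hs'
  have h1 : (1 : ℝ) ≤ s * Real.log s := by nlinarith
  refine ⟨Real.one_le_sqrt.2 h1, ?_⟩
  have h2 : (lg s : ℝ) ≤ 3 * Real.log s := by
    have e1 : (2 : ℝ) ^ Nat.log 2 s ≤ s := by exact_mod_cast Nat.pow_log_le_self 2 (by omega)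
    have e2 : Real.log ((2 : ℝ) ^ Nat.log 2 s) ≤ Real.log s := Real.log_le_log (by positivity) e1
    rw [Real.log_pow] at e2
    have e3 : (Nat.log 2 s : ℝ) * 0.69 ≤ Real.log s := by
      have : (0 : ℝ) ≤ (Nat.log 2 s : ℝ) := by positivity
      nlinarith
    unfold lg
    push_cast
    nlinarith
  have h3 : ((c : ℝ)) ^ 2 ≤ 4 * (s * lg s) := by
    rw [hc]
    exact_mod_cast c_sq hs
  have h4 : ((c : ℝ)) ^ 2 ≤ 16 * (s * Real.log s) := by
    have : (s : ℝ) * lg s ≤ s * (3 * Real.log s) := by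
      apply mul_le_mul_of_nonneg_left h2; positivity
    nlinarith
  have h5 : (c : ℝ) ≤ Real.sqrt (16 * (s * Real.log s)) := Real.le_sqrt_of_sq_le h4
  have h6 : Real.sqrt (16 * (s * Real.log s)) = 4 * Real.sqrt (s * Real.log s) := by
    rw [Real.sqrt_mul (by norm_num), show (16 : ℝ) = 4 ^ 2 by norm_num,
      Real.sqrt_sq (by norm_num)]
  rw [← h6]
  exact h5

theorem pow_le_rpow {x e : ℕ} {y : ℝ} (h : x ≤ 2 ^ e) (he : (e : ℝ) ≤ y) :
    (x : ℝ) ≤ (2 : ℝ) ^ y := by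
  have h1 : (x : ℝ) ≤ (2 : ℝ) ^ e := by exact_mod_cast h
  calc (x : ℝ) ≤ (2 : ℝ) ^ e := h1
    _ = (2 : ℝ) ^ (e : ℝ) := (Real.rpow_natCast 2 e).symm
    _ ≤ (2 : ℝ) ^ y := Real.rpow_le_rpow_of_exponent_le (by norm_num) he

theorem exp_bound {k c y : ℝ} (hk : 0 ≤ k) (h1 : 1 ≤ y) (h2 : c ≤ 4 * y) :
    2 * k + 15 * c + 63 ≤ (2 * k + 123) * y := by
  nlinarith

theorem final_bound (k : ℕ) {s N c x : ℕ} (hs : 2 ≤ s) (hc : c = wg s * lg s)
    (hN : N = 30 * (3 * 2 ^ c + 4) * (s + wg s + 1))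
    (hx : x ≤ (k * ((N + 1) ^ 6 * (s + 1) ^ wg s)) * (k * N)) :
    (x : ℝ) ≤ (2 : ℝ) ^ ((2 * (k : ℝ) + 123) * Real.sqrt (s * Real.log s)) := by
  obtain ⟨h1, h2⟩ := real_bound hs hc
  have h3 := hx.trans (nat_bound k s hc hN)
  clear hx hN
  refine pow_le_rpow h3 ?_
  clear h3
  have e1 : ((2 * k + 15 * c + 63 : ℕ) : ℝ) = 2 * k + 15 * c + 63 := by
    simp only [Nat.cast_add, Nat.cast_mul, Nat.cast_ofNat]
  rw [e1]
  exact exp_bound (Nat.cast_nonneg k) h1 h2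

end Pool.Agent.H.MP_0447ec_lc.SE
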