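import Pool.Agent.H.MP_0447ec_lc.SE.Disj

/-!
# The case tree over the truth values of a group
-/

namespace Pool.Agent.H.MP_0447ec_lc.SE

open Pool.Agent.H.MP_0447ec_lc.PS Pool.Agent.H.MP_0447ec_lc.PS.Fm

variable {F : List Rule}

/-- The branch of the case tree with the values `f`. -/
def Dl (t : Nm) (f : Nm → Bool) : (Nm → Fm) → List (Nm × Fm) → List Fm
  | _, [] => []
  | s, e :: g => Fm.iff (cst t (f e.1)) (e.2.subst s) ::
      Dl t f (Function.update s e.1 (cst t (f e.1))) g

/-- Every name in the list is new, earliest first. -/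
def OrdG : List (Nm × Fm) → Prop
  | [] => True
  | e :: g => e.1 ∉ e.2.vars ∧ (∀ e' ∈ g, e'.1 ≠ e.1 ∧ e'.1 ∉ e.2.vars) ∧ OrdG g

/-- The size of a group. -/
def gsz (g : List (Nm × Fm)) : ℕ := (g.map (fun e => sz e.2 + 1)).sum

@[simp] theorem gsz_nil : gsz [] = 0 := rfl
@[simp] theorem gsz_cons (e : Nm × Fm) (g : List (Nm × Fm)) :
    gsz (e :: g) = sz e.2 + 1 + gsz g := by simp [gsz]
theorem gsz_append (g g' : List (Nm × Fm)) : gsz (g ++ g') = gsz g + gsz g' := by simp [gsz]

theorem length_le_gsz (g : List (Nm × Fm)) : g.length ≤ gsz g := by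
  induction g with
  | nil => simp
  | cons e g ih => simp; omega

theorem sz_le_gsz {e : Nm × Fm} {g : List (Nm × Fm)} (h : e ∈ g) : sz e.2 + 1 ≤ gsz g :=
  List.single_le_sum (by simp) _ (List.mem_map_of_mem (f := fun e => sz e.2 + 1) h)

theorem Dl_congr {t : Nm} {f f' : Nm → Bool} : ∀ {g : List (Nm × Fm)} {s : Nm → Fm},
    (∀ e ∈ g, f e.1 = f' e.1) → Dl t f s g = Dl t f' s g := by
  intro g
  induction g with
  | nil => intro s _; rfl
  | cons e g ih =>
    intro s h
    have h1 := h e (by simp)
    simp only [Dl]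
    rw [h1, ih (fun e' he' => h e' (List.mem_cons_of_mem _ he'))]

theorem sz_iff (A B : Fm) : sz (Fm.iff A B) = 2 * sz A + 2 * sz B + 3 := by
  simp [Fm.iff, sz]; omega

theorem hsz_Dl {t : Nm} {f : Nm → Bool} {m : ℕ} (hm : 4 ≤ m) : ∀ {g : List (Nm × Fm)}
    {s : Nm → Fm}, (∀ x, sz (s x) ≤ m) → hsz (Dl t f s g) ≤ 14 * m * gsz g := by
  intro g
  induction g with
  | nil => intro s _; simp [Dl]
  | cons e g ih =>
    intro s hs
    have h1 : hsz (Dl t f (Function.update s e.1 (cst t (f e.1))) g) ≤ 14 * m * gsz g := by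
      apply ih
      intro x
      by_cases hx : x = e.1
      · rw [hx, Function.update_self]
        exact (sz_cst _ _).trans hm
      · rw [Function.update_of_ne hx]; exact hs x
    have h2 : sz (e.2.subst s) ≤ sz e.2 * m := sz_subst (by omega) (fun x _ => hs x)
    have h3 := sz_cst t (f e.1)
    simp only [Dl, hsz_cons, gsz_cons, sz_iff]
    nlinarith

theorem Dl_mem {t : Nm} {f : Nm → Bool} : ∀ {g : List (Nm × Fm)} {s : Nm → Fm}, OrdG g →
    ∀ e ∈ g, ∃ s' : Nm → Fm, Fm.iff (cst t (f e.1)) (e.2.subst s') ∈ Dl t f s g ∧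
      (∀ x, s' x = s x ∨ s' x = cst t (f x)) ∧
      ∀ x ∈ e.2.vars, (x ∈ g.map Prod.fst → s' x = cst t (f x)) ∧
        (x ∉ g.map Prod.fst → s' x = s x) := by
  intro g
  induction g with
  | nil => intro s _ e he; simp at he
  | cons e0 g ih =>
    intro s hG e he
    obtain ⟨g1, g2, g3⟩ := hG
    rcases List.mem_cons.1 he with rfl | he
    · refine ⟨s, List.mem_cons_self, fun x => Or.inl rfl, ?_⟩
      intro x hx
      refine ⟨?_, fun _ => rfl⟩
      intro h
      exfalso
      rw [List.map_cons, List.mem_cons] at h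
      rcases h with rfl | h
      · exact g1 hx
      · obtain ⟨e', he', rfl⟩ := List.mem_map.1 h
        exact (g2 e' he').2 hx
    · obtain ⟨s', h1, h2, h3⟩ := ih (s := Function.update s e0.1 (cst t (f e0.1))) g3 e he
      refine ⟨s', List.mem_cons_of_mem _ h1, ?_, ?_⟩
      · intro x
        rcases h2 x with h | h
        · by_cases hx : x = e0.1
          · rw [hx, Function.update_self] at h
            right; rw [hx]; exact h
          · rw [Function.update_of_ne hx] at h
            exact Or.inl h
        · exact Or.inr h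
      · intro x hx
        obtain ⟨h3a, h3b⟩ := h3 x hx
        refine ⟨?_, ?_⟩
        · intro h
          by_cases hxg : x ∈ g.map Prod.fst
          · exact h3a hxg
          · rw [List.map_cons, List.mem_cons] at h
            rcases h with rfl | h
            · rw [h3b hxg, Function.update_self]
            · exact absurd h hxg
        · intro h
          rw [List.map_cons, List.mem_cons, not_or] at h
          rw [h3b h.2, Function.update_of_ne h.1]

theorem tree (hF : IsFrege F) : ∃ k : ℕ, ∀ (b : Bool) (M N : ℕ) (C : Fm) (n : ℕ) (t : Nm)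
    (π : List Fm), k * N ≤ M →
    ∀ (g : List (Nm × Fm)) (H : List Fm) (s : Nm → Fm), OrdG g →
    (∀ f, hsz (H ++ Dl t f s g) + sz C ≤ N) →
    (∀ f, Can F b M π n (imps (H ++ Dl t f s g) C)) →
    Can F b M π (2 ^ g.length * n + (2 ^ g.length - 1) * (k * (N + 1))) (imps H C) := by
  obtain ⟨k1, hk1⟩ := ctx_rule hF [imp (Fm.iff (imp (vv 0) (vv 0)) (vv 1)) (vv 2),
    imp (Fm.iff (neg (imp (vv 0) (vv 0))) (vv 1)) (vv 2)] (vv 2) (by
    intro v hv; simp [Fm.Eval, Fm.iff, vv] at hv ⊢; tauto)
  refine ⟨k1 * 2, ?_⟩
  intro b M N C n t π hM g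
  induction g with
  | nil =>
    intro H s _ _ h
    have := h (fun _ => true)
    simp only [Dl, List.append_nil] at this
    refine this.le ?_
    simp
  | cons e g ih =>
    intro H s hG hN h
    have hC := sz_pos C
    have hrec : ∀ u : Bool, Can F b M π (2 ^ g.length * n + (2 ^ g.length - 1) * (k1 * 2 * (N + 1)))
        (imps (H ++ [Fm.iff (cst t u) (e.2.subst s)]) C) := by
      intro u
      have hf : ∀ f : Nm → Bool, (H ++ [Fm.iff (cst t u) (e.2.subst s)]) ++
          Dl t f (Function.update s e.1 (cst t u)) g =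
          H ++ Dl t (Function.update f e.1 u) s (e :: g) := by
        intro f
        rw [List.append_assoc]
        congr 1
        simp only [Dl, Function.update_self, List.singleton_append]
        congr 1
        apply Dl_congr
        intro e' he'
        rw [Function.update_of_ne (hG.2.1 e' he').1]
      apply ih _ (Function.update s e.1 (cst t u)) hG.2.2
      · intro f
        rw [hf]
        exact hN _
      · intro f
        rw [hf]
        exact h _
    have hNode : Can F b M (imps (H ++ [Fm.iff (cst t false) (e.2.subst s)]) C ::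
        imps (H ++ [Fm.iff (cst t true) (e.2.subst s)]) C :: π) (k1 * (H.length + 1))
        (imps H C) := by
      refine hk1 b M _ H [var t, e.2.subst s, C] ?_ ?_
      · refine bud (c := 2) hM le_rfl ?_
        have h1 := hN (fun _ => true)
        simp only [Dl, hsz_append, hsz_cons, sz_iff] at h1
        have h2 := sz_pos (cst t true)
        simp only [List.map_cons, List.map_nil, List.sum_cons, List.sum_nil, sz]
        omega
      · intro P hP
        simp only [List.mem_cons, List.not_mem_nil, or_false] at hP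
        rcases hP with rfl | rfl
        · refine List.mem_cons_of_mem _ ?_
          rw [imps_append]
          exact List.mem_cons_self
        · rw [imps_append]
          exact List.mem_cons_self
    have hlen : H.length ≤ N := by
      have h1 := hN (fun _ => true)
      rw [hsz_append] at h1
      have := length_le_hsz H
      omega
    refine ((hrec true).cut ((hrec false).wk.cut hNode)).le ?_
    rw [List.length_cons, pow_succ]
    have h1 : k1 * (H.length + 1) ≤ k1 * (N + 1) := Nat.mul_le_mul_left _ (by omega)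
    obtain ⟨q, hq⟩ : ∃ q, 2 ^ g.length = q + 1 :=
      ⟨2 ^ g.length - 1, by have : 1 ≤ 2 ^ g.length := Nat.one_le_two_pow; omega⟩
    rw [hq]
    have e1 : q + 1 - 1 = q := by omega
    have e2 : (q + 1) * 2 - 1 = 2 * q + 1 := by omega
    rw [e1, e2]
    nlinarith

end Pool.Agent.H.MP_0447ec_lc.SE
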